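import Mathlib
import Pool.Agent.H76.W.G1F

set_option autoImplicit false
open Finset

/-! # Taylor coefficients of the weighted sums over a row (B6.7)

`tay_bound` : a finite sum of products `mn n z * H n z`, `mn n` of order `deg n` at `0`, `H n` at most
`C n * R ^ (2/3 deg n + s)` : the Taylor coefficient of order `m` at `0` is at most `D * R ^ (2/3 m + s)`.
`tayF` : the weighted sums of `H76.W.expandF`, the columns of `F` have fixed weights (one of them may be a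
coupon). -/

namespace Pool.Agent.H40.W

open Filter Topology Metric

/-- a function which is `O(z ^ (m + 1))` has vanishing `m`-th derivative at `0` -/
lemma iterDeriv_zero {f : ℂ → ℂ} {m : ℕ} {D ρ : ℝ} (hρ : 0 < ρ)
    (hd : DifferentiableOn ℂ f (ball 0 ρ)) (hb : ∀ z ∈ ball (0 : ℂ) ρ, ‖f z‖ ≤ D * ‖z‖ ^ (m + 1)) :
    iteratedDeriv m f 0 = 0 := by
  have key : ∀ r : ℝ, 0 < r → r < ρ → ‖iteratedDeriv m f 0‖ ≤ m.factorial * |D| * r := by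
    intro r hr hr1
    have hcl : DiffContOnCl ℂ f (ball 0 r) := hd.diffContOnCl_ball (closedBall_subset_ball hr1)
    have h1 := Complex.norm_iteratedDeriv_le_of_forall_mem_sphere_norm_le m hr hcl
      (C := |D| * r ^ (m + 1)) (by
        intro z hz
        have hz' : ‖z‖ = r := by simpa using hz
        have h2 := hb z (by rw [mem_ball_zero_iff, hz']; exact hr1)
        rw [hz'] at h2
        exact h2.trans (mul_le_mul_of_nonneg_right (le_abs_self D) (by positivity)))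
    refine h1.trans (le_of_eq ?_)
    rw [pow_succ]
    field_simp
  by_contra hne
  have hpos : 0 < ‖iteratedDeriv m f 0‖ := norm_pos_iff.2 hne
  set B : ℝ := m.factorial * |D| + 1 with hB
  have hB1 : 0 < B := by positivity
  set r : ℝ := min (ρ / 2) (‖iteratedDeriv m f 0‖ / (2 * B)) with hr
  have hr0 : 0 < r := lt_min (by linarith) (by positivity)
  have hr1 : r < ρ := (min_le_left _ _).trans_lt (by linarith)
  have h1 := key r hr0 hr1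
  have h2 : m.factorial * |D| * r ≤ B * r := mul_le_mul_of_nonneg_right (by linarith) hr0.le
  have h3 : B * r ≤ ‖iteratedDeriv m f 0‖ / 2 := by
    have h4 : r ≤ ‖iteratedDeriv m f 0‖ / (2 * B) := min_le_right _ _
    calc B * r ≤ B * (‖iteratedDeriv m f 0‖ / (2 * B)) := mul_le_mul_of_nonneg_left h4 hB1.le
      _ = _ := by field_simp
  linarith

/-- the terms of low and of high order -/
lemma tay_core {Idx : Type*} {deg : Idx → ℕ} (hfin : ∀ m, {n | deg n ≤ m}.Finite)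
    {ρ : ℝ} (hρ : 0 < ρ) (B C : Idx → ℝ) (s : ℝ) (m : ℕ) : ∃ K : ℝ, 0 ≤ K ∧ ∀ (R : ℝ), 1 ≤ R →
    ∀ (mn : Idx → ℂ → ℂ), (∀ n, DifferentiableOn ℂ (mn n) (ball 0 ρ)) →
    (∀ n, ∀ z ∈ ball (0 : ℂ) ρ, ‖mn n z‖ ≤ B n * ‖z‖ ^ deg n) →
    ∀ (I : Finset Idx) (H : Idx → ℂ → ℂ), (∀ n, DifferentiableOn ℂ (H n) (ball 0 ρ)) →
    (∀ n, ∃ C' : ℝ, ∀ z ∈ ball (0 : ℂ) ρ, ‖H n z‖ ≤ C') →
    (∀ n, deg n ≤ m → ∀ z ∈ ball (0 : ℂ) ρ, ‖H n z‖ ≤ C n * R ^ ((2 / 3 : ℝ) * deg n + s)) →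
    ∀ G : ℂ → ℂ, (∀ᶠ z in 𝓝 (0 : ℂ), G z = ∑ n ∈ I, mn n z * H n z) →
    ∃ P Q : ℂ → ℂ, DifferentiableOn ℂ P (ball 0 ρ) ∧ DifferentiableOn ℂ Q (ball 0 ρ) ∧
      (∀ᶠ z in 𝓝 (0 : ℂ), G z = P z + Q z) ∧
      (∃ D' : ℝ, 0 ≤ D' ∧ ∀ z ∈ ball (0 : ℂ) ρ, ‖Q z‖ ≤ D' * ‖z‖ ^ (m + 1)) ∧
      ∀ z : ℂ, ‖z‖ = ρ / 2 * R ^ (-(2 / 3) : ℝ) → ‖P z‖ ≤ K * R ^ s := by
  classical
  set Dm : Finset Idx := (hfin m).toFinset with hDm
  have hmem : ∀ n, n ∈ Dm ↔ deg n ≤ m := fun n => by rw [hDm, Set.Finite.mem_toFinset]; rfl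
  set K : ℝ := ∑ n ∈ Dm, |B n| * |C n| * (ρ / 2) ^ deg n with hK
  have hK0 : 0 ≤ K := sum_nonneg fun n _ => by positivity
  refine ⟨K, hK0, ?_⟩
  intro R hR mn hd hB I H hH hHb hHC G hG
  have hR0 : 0 < R := by linarith
  -- the radius
  set r : ℝ := ρ / 2 * R ^ (-(2 / 3) : ℝ) with hr
  have hRle : R ^ (-(2 / 3) : ℝ) ≤ 1 := Real.rpow_le_one_of_one_le_of_nonpos hR (by norm_num)
  have hRpos : 0 < R ^ (-(2 / 3) : ℝ) := Real.rpow_pos_of_pos hR0 _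
  have hr0 : 0 < r := by positivity
  have hr1 : r < ρ := by
    calc r ≤ ρ / 2 * 1 := mul_le_mul_of_nonneg_left hRle (by linarith)
      _ < ρ := by linarith
  have hf : ∀ n, DifferentiableOn ℂ (fun z => mn n z * H n z) (ball 0 ρ) := fun n => (hd n).mul (hH n)
  choose C' hC' using hHb
  refine ⟨fun z => ∑ n ∈ I with deg n ≤ m, mn n z * H n z,
    fun z => ∑ n ∈ I with ¬ deg n ≤ m, mn n z * H n z, DifferentiableOn.fun_sum fun n _ => hf n,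
    DifferentiableOn.fun_sum fun n _ => hf n, ?_, ⟨∑ n ∈ I with ¬ deg n ≤ m,
      |B n| * ρ ^ (deg n - (m + 1)) * |C' n|, sum_nonneg fun _ _ => by positivity, ?_⟩, ?_⟩
  · filter_upwards [hG] with z hz
    rw [hz]
    exact (sum_filter_add_sum_filter_not I (fun n => deg n ≤ m) _).symm
  · intro z hz
    have hz' : ‖z‖ < ρ := mem_ball_zero_iff.1 hz
    rw [sum_mul]
    refine (norm_sum_le _ _).trans (sum_le_sum fun n hn => ?_)
    have hn := (mem_filter.1 hn).2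
    have e : deg n = (deg n - (m + 1)) + (m + 1) := by omega
    rw [norm_mul]
    calc ‖mn n z‖ * ‖H n z‖ ≤ (|B n| * ‖z‖ ^ deg n) * |C' n| := by
          refine mul_le_mul ((hB n z hz).trans ?_) ((hC' n z hz).trans (le_abs_self _))
            (norm_nonneg _) (by positivity)
          exact mul_le_mul_of_nonneg_right (le_abs_self _) (by positivity)
      _ ≤ (|B n| * (ρ ^ (deg n - (m + 1)) * ‖z‖ ^ (m + 1))) * |C' n| := by
          refine mul_le_mul_of_nonneg_right (mul_le_mul_of_nonneg_left ?_ (abs_nonneg _))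
            (abs_nonneg _)
          conv_lhs => rw [e, pow_add]
          exact mul_le_mul_of_nonneg_right (pow_le_pow_left₀ (norm_nonneg _) hz'.le _) (by positivity)
      _ = _ := by ring
  · intro z hz'
    have hzb : z ∈ ball (0 : ℂ) ρ := by rw [mem_ball_zero_iff, hz']; exact hr1
    refine (norm_sum_le _ _).trans ?_
    rw [hK, sum_mul]
    have hsub : (I.filter fun n => deg n ≤ m) ⊆ Dm := fun n hn => (hmem n).2 (mem_filter.1 hn).2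
    refine (sum_le_sum_of_subset_of_nonneg hsub fun n _ _ => norm_nonneg _).trans
      (sum_le_sum fun n hn => ?_)
    have hn := (hmem n).1 hn
    rw [norm_mul]
    have e1 : r ^ deg n * R ^ ((2 / 3 : ℝ) * deg n + s) = (ρ / 2) ^ deg n * R ^ s := by
      rw [hr, mul_pow, ← Real.rpow_natCast (R ^ (-(2 / 3) : ℝ)) (deg n), ← Real.rpow_mul hR0.le,
        mul_assoc, ← Real.rpow_add hR0]
      congr 2
      ring
    calc ‖mn n z‖ * ‖H n z‖ ≤ (|B n| * r ^ deg n) * (|C n| * R ^ ((2 / 3 : ℝ) * deg n + s)) := by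
          refine mul_le_mul ((hB n z hzb).trans ?_) ((hHC n hn z hzb).trans ?_)
            (norm_nonneg _) (by positivity)
          · rw [hz']
            exact mul_le_mul_of_nonneg_right (le_abs_self _) (by positivity)
          · exact mul_le_mul_of_nonneg_right (le_abs_self _) (by positivity)
      _ = (|B n| * |C n|) * (r ^ deg n * R ^ ((2 / 3 : ℝ) * deg n + s)) := by ring
      _ = _ := by rw [e1]; ring

/-- the sum of a bounded function and of a function of high order -/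
lemma deriv_PQ {P Q G : ℂ → ℂ} {m : ℕ} {ρ r c D' : ℝ} (hr0 : 0 < r) (hr1 : r < ρ)
    (hP : DifferentiableOn ℂ P (ball 0 ρ)) (hQ : DifferentiableOn ℂ Q (ball 0 ρ))
    (hG : ∀ᶠ z in 𝓝 (0 : ℂ), G z = P z + Q z)
    (hQb : ∀ z ∈ ball (0 : ℂ) ρ, ‖Q z‖ ≤ D' * ‖z‖ ^ (m + 1))
    (hPb : ∀ z : ℂ, ‖z‖ = r → ‖P z‖ ≤ c) : ‖iteratedDeriv m G 0‖ ≤ m.factorial * c / r ^ m := by
  have hρ : 0 < ρ := hr0.trans hr1
  have hmem0 : (0 : ℂ) ∈ ball (0 : ℂ) ρ := mem_ball_self hρ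
  have aP : AnalyticAt ℂ P 0 := hP.analyticAt (isOpen_ball.mem_nhds hmem0)
  have aQ : AnalyticAt ℂ Q 0 := hQ.analyticAt (isOpen_ball.mem_nhds hmem0)
  have hGPQ : G =ᶠ[𝓝 0] fun z => P z + Q z := hG
  have h1 : iteratedDeriv m G 0 = iteratedDeriv m P 0 + iteratedDeriv m Q 0 := by
    rw [hGPQ.iteratedDeriv_eq m]
    exact iteratedDeriv_fun_add aP.contDiffAt aQ.contDiffAt
  have hcl : DiffContOnCl ℂ P (ball 0 r) := hP.diffContOnCl_ball (closedBall_subset_ball hr1)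
  rw [h1, iterDeriv_zero hρ hQ hQb, add_zero]
  exact Complex.norm_iteratedDeriv_le_of_forall_mem_sphere_norm_le m hr0 hcl
    fun z hz => hPb z (by simpa using hz)

/-- **Taylor coefficients from the bounds of the coefficients**: of `G` and of the rescaled function. -/
theorem tay_bound {Idx : Type*} {deg : Idx → ℕ} (hfin : ∀ m, {n | deg n ≤ m}.Finite)
    {ρ : ℝ} (hρ : 0 < ρ) (B C : Idx → ℝ) (s : ℝ) (m : ℕ) : ∃ D : ℝ, 0 ≤ D ∧ ∀ (R : ℝ), 1 ≤ R →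
    ∀ (mn : Idx → ℂ → ℂ), (∀ n, DifferentiableOn ℂ (mn n) (ball 0 ρ)) →
    (∀ n, ∀ z ∈ ball (0 : ℂ) ρ, ‖mn n z‖ ≤ B n * ‖z‖ ^ deg n) →
    ∀ (I : Finset Idx) (H : Idx → ℂ → ℂ), (∀ n, DifferentiableOn ℂ (H n) (ball 0 ρ)) →
    (∀ n, ∃ C' : ℝ, ∀ z ∈ ball (0 : ℂ) ρ, ‖H n z‖ ≤ C') →
    (∀ n, deg n ≤ m → ∀ z ∈ ball (0 : ℂ) ρ, ‖H n z‖ ≤ C n * R ^ ((2 / 3 : ℝ) * deg n + s)) →
    ∀ G : ℂ → ℂ, (∀ᶠ z in 𝓝 (0 : ℂ), G z = ∑ n ∈ I, mn n z * H n z) →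
    ‖iteratedDeriv m G 0‖ ≤ D * R ^ ((2 / 3 : ℝ) * m + s) ∧
    ‖iteratedDeriv m (fun z => G (z * (R ^ (-(2 / 3) : ℝ) : ℝ))) 0‖ ≤ D * R ^ s := by
  obtain ⟨K, hK0, hK⟩ := tay_core hfin hρ B C s m
  refine ⟨m.factorial * K * (2 / ρ) ^ m, by positivity, ?_⟩
  intro R hR mn hd hB I H hH hHb hHC G hG
  have hR0 : 0 < R := by linarith
  obtain ⟨P, Q, hP, hQ, hPQ, ⟨D', hD'0, hQb⟩, hPb⟩ := hK R hR mn hd hB I H hH hHb hHC G hG
  set u : ℝ := R ^ (-(2 / 3) : ℝ) with hu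
  have hu1 : u ≤ 1 := Real.rpow_le_one_of_one_le_of_nonpos hR (by norm_num)
  have hu0 : 0 < u := Real.rpow_pos_of_pos hR0 _
  constructor
  · have h1 := deriv_PQ (r := ρ / 2 * u) (by positivity) (by
      calc ρ / 2 * u ≤ ρ / 2 * 1 := mul_le_mul_of_nonneg_left hu1 (by linarith)
        _ < ρ := by linarith) hP hQ hPQ hQb hPb
    refine h1.trans (le_of_eq ?_)
    have e2 : ((ρ / 2 * u) ^ m)⁻¹ = (2 / ρ) ^ m * R ^ ((2 / 3 : ℝ) * m) := by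
      rw [hu, mul_pow, ← Real.rpow_natCast (R ^ (-(2 / 3) : ℝ)) m, ← Real.rpow_mul hR0.le, mul_inv,
        ← Real.rpow_neg hR0.le, ← inv_pow, inv_div]
      congr 2
      ring
    rw [div_eq_mul_inv, e2, Real.rpow_add hR0]
    ring
  · -- the rescaled functions
    have hmap : ∀ z ∈ ball (0 : ℂ) ρ, z * (u : ℂ) ∈ ball (0 : ℂ) ρ := by
      intro z hz
      rw [mem_ball_zero_iff] at hz ⊢
      rw [norm_mul, Complex.norm_real, Real.norm_of_nonneg hu0.le]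
      calc ‖z‖ * u ≤ ‖z‖ * 1 := mul_le_mul_of_nonneg_left hu1 (norm_nonneg _)
        _ < ρ := by linarith
    have hmd : DifferentiableOn ℂ (fun z : ℂ => z * (u : ℂ)) (ball 0 ρ) :=
      (differentiable_id.mul_const _).differentiableOn
    have h1 := deriv_PQ (P := fun z => P (z * u)) (Q := fun z => Q (z * u))
      (G := fun z => G (z * u)) (m := m) (r := ρ / 2) (c := K * R ^ s) (D' := D') (by positivity)
      (by linarith) (hP.comp hmd hmap) (hQ.comp hmd hmap) ?_ ?_ ?_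
    · refine h1.trans (le_of_eq ?_)
      rw [div_eq_mul_inv, ← inv_pow, inv_div]
      ring
    · have ht : Tendsto (fun z : ℂ => z * (u : ℂ)) (𝓝 0) (𝓝 0) := by
        have h2 : Continuous fun z : ℂ => z * (u : ℂ) := by fun_prop
        have h3 := h2.tendsto 0
        rwa [zero_mul] at h3
      exact ht.eventually hPQ
    · intro z hz
      refine (hQb _ (hmap z hz)).trans ?_
      rw [norm_mul, Complex.norm_real, Real.norm_of_nonneg hu0.le]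
      refine mul_le_mul_of_nonneg_left (pow_le_pow_left₀ (by positivity) ?_ _) hD'0
      calc ‖z‖ * u ≤ ‖z‖ * 1 := mul_le_mul_of_nonneg_left hu1 (norm_nonneg _)
        _ = ‖z‖ := mul_one _
    · intro z hz
      apply hPb
      rw [norm_mul, Complex.norm_real, Real.norm_of_nonneg hu0.le, hz]

/-! ### The weighted sums over a row -/

section

open Pool.Agent.H75.Perc hiding AR VV
open Pool.Agent.H75.TwoArm hiding EF
open Pool.Agent.H99.NC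
open Pool.Agent.Q1 Pool.Agent.H33.Q1
open Pool.Agent.H81.G1 Pool.Agent.Q1.M6b.Gd Pool.Agent.H76.R45 Pool.Agent.H76.Sp Pool.Agent.H76.W
open Pool.Agent.H30.Mid

variable {N : ℕ} {x0 y0 : ℤ} {K : Type*} [Fintype K] [DecidableEq K]

/-- **The exact expansion, the columns of `F` have fixed weights** (they may be coupons). -/
theorem expandFc {Φ : Finset (ℤ × ℤ) → ℂ} {a b : Fin N → ℂ} {F : Finset (Fin N)} {q : ℤ × ℤ → ℂ}
    {κ : ℂ} {C A Bk Fr : Finset (ℤ × ℤ)} {kd : ℤ × ℤ → K} {lam : K → ℂ}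
    {st : Finset (ℤ × ℤ) → Finset (ℤ × ℤ)}
    (hFr : Fr ⊆ A) (hst : ∀ T, T ⊆ A → st T = symmDiff T Fr)
    (hd1 : Disjoint C (A ∪ Bk)) (hd2 : Disjoint A Bk) (hT : ∀ e ∈ A, e ∉ Fr → q e = lam (kd e))
    (hT' : ∀ e ∈ Fr, q e = 1 - lam (kd e)) (hB : ∀ e ∈ Bk, q e = 1 / 2) :
    Ec q (C ∪ (A ∪ Bk)) (AF Φ x0 y0 (fun i => if i ∈ F then a i else a i + κ)
      (fun i => if i ∈ F then b i else b i - κ)) =
      ∑ m ∈ range (N + 1), ∑ l ∈ IL K (A.card + 1), ∑ s ∈ C.powerset,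
        κ ^ m * (∏ k, lam k ^ l k) * ((∏ e ∈ s, q e) * ∏ e ∈ C \ s, (1 - q e)) *
          HF Φ x0 y0 a b F A kd Bk st m l s := by
  rw [Ec_congr (G := fun ω => ∑ m ∈ range (N + 1), κ ^ m * ∑ S ∈ powersetCard m (univ \ F),
      AF Φ x0 y0 (cA' S a) (cB' S b) ω) (fun ω _ => AF_coupons Φ x0 y0 a b κ F ω),
      expandT_poly hFr hst hd1 hd2 hT hT' hB]
  rfl

/-- order of the small parameters -/
def degK (n : ℕ × (K → ℕ)) : ℕ := n.1 + ∑ k, n.2 k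

lemma degK_fin (m : ℕ) : {n : ℕ × (K → ℕ) | degK n ≤ m}.Finite := by
  refine Set.Finite.subset ((range (m + 1) ×ˢ IL K (m + 1)).finite_toSet) fun n hn => ?_
  have h1 : n.1 + ∑ k, n.2 k ≤ m := hn
  rw [mem_coe, mem_product, mem_range, mem_IL]
  refine ⟨by omega, fun k => ?_⟩
  have := single_le_sum (f := n.2) (fun i _ => Nat.zero_le _) (mem_univ k)
  omega

/-- **Taylor coefficients of a weighted sum over a row**, times a function `α` of order `e` at `0`. -/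
theorem tayF (K : Type*) [Fintype K] [DecidableEq K] {ρ : ℝ} (hρ : 0 < ρ) (Λ Q : ℝ) (hΛ : 0 ≤ Λ)
    (hQ : 1 ≤ Q) (nC : ℕ) (B : ℕ → (K → ℕ) → ℝ) (s0 : ℝ) (e : ℕ) (μ : ℕ) : ∃ D : ℝ, 0 ≤ D ∧
    ∀ R : ℝ, 1 ≤ R →
    ∀ (α κ : ℂ → ℂ) (lam : K → ℂ → ℂ), DifferentiableOn ℂ α (ball 0 ρ) →
    DifferentiableOn ℂ κ (ball 0 ρ) → (∀ k, DifferentiableOn ℂ (lam k) (ball 0 ρ)) →
    (∀ z ∈ ball (0 : ℂ) ρ, ‖α z‖ ≤ Λ * ‖z‖ ^ e) → (∀ z ∈ ball (0 : ℂ) ρ, ‖κ z‖ ≤ Λ * ‖z‖) →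
    (∀ k, ∀ z ∈ ball (0 : ℂ) ρ, ‖lam k z‖ ≤ Λ * ‖z‖) →
    ∀ (N : ℕ) (x0 y0 : ℤ) (Φ : Finset (ℤ × ℤ) → ℂ) (a b : Fin N → ℂ) (F : Finset (Fin N))
    (C A Bk : Finset (ℤ × ℤ)) (kd : ℤ × ℤ → K) (st : Finset (ℤ × ℤ) → Finset (ℤ × ℤ))
    (q : ℂ → ℤ × ℤ → ℂ), C.card ≤ nC → (∀ e ∈ C, DifferentiableOn ℂ (fun z => q z e) (ball 0 ρ)) →
    (∀ e ∈ C, ∀ z ∈ ball (0 : ℂ) ρ, ‖q z e‖ ≤ Q ∧ ‖1 - q z e‖ ≤ Q) →
    (∀ m l, m + ∑ k, l k ≤ μ → ∀ s, s ⊆ C → ‖HF Φ x0 y0 a b F A kd Bk st m l s‖ ≤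
      B m l * R ^ ((2 / 3 : ℝ) * (m + ∑ k, l k : ℕ) + s0)) →
    ∀ G : ℂ → ℂ, (∀ᶠ z in 𝓝 (0 : ℂ), G z = ∑ m ∈ range (N + 1), ∑ l ∈ IL K (A.card + 1),
      ∑ s ∈ C.powerset, κ z ^ m * (∏ k, lam k z ^ l k) *
        ((∏ e ∈ s, q z e) * ∏ e ∈ C \ s, (1 - q z e)) * HF Φ x0 y0 a b F A kd Bk st m l s) →
    ‖iteratedDeriv μ (fun z => α z * G z) 0‖ ≤ D * R ^ ((2 / 3 : ℝ) * μ + (s0 - 2 / 3 * e)) ∧
    ‖iteratedDeriv μ (fun z => α (z * (R ^ (-(2 / 3) : ℝ) : ℝ)) * G (z * (R ^ (-(2 / 3) : ℝ) : ℝ)))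
      0‖ ≤ D * R ^ (s0 - 2 / 3 * e) := by
  obtain ⟨D, hD0, hD⟩ := tay_bound (deg := fun n : ℕ × (K → ℕ) => degK n + e)
    (fun m => (degK_fin m).subset fun n hn => by
      have h1 : degK n + e ≤ m := hn
      show degK n ≤ m
      omega) hρ (fun n => Λ ^ (degK n + 1))
    (fun n => 2 ^ nC * (Q ^ nC * |B n.1 n.2|)) (s0 - 2 / 3 * e) μ
  refine ⟨D, hD0, ?_⟩
  intro R hR α κ lam hα hκ hlam hαb hκb hlamb N x0 y0 Φ a b F C A Bk kd st q hC hq hqb hHF G hG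
  have hR0 : 0 < R := by linarith
  -- the weights of the exceptional labels
  have hw : ∀ s, s ⊆ C → ∀ z ∈ ball (0 : ℂ) ρ,
      ‖(∏ e ∈ s, q z e) * ∏ e ∈ C \ s, (1 - q z e)‖ ≤ Q ^ nC := by
    intro s hs z hz
    rw [norm_mul, norm_prod, norm_prod]
    have h1 : ∏ e ∈ s, ‖q z e‖ ≤ Q ^ s.card := by
      rw [← prod_const]
      exact prod_le_prod (fun _ _ => norm_nonneg _) fun e he => (hqb e (hs he) z hz).1
    have h2 : ∏ e ∈ C \ s, ‖1 - q z e‖ ≤ Q ^ (C \ s).card := by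
      rw [← prod_const]
      exact prod_le_prod (fun _ _ => norm_nonneg _) fun e he => (hqb e (mem_sdiff.1 he).1 z hz).2
    have h3 : s.card + (C \ s).card ≤ nC := by
      rw [card_sdiff_of_subset hs]
      have := card_le_card hs
      omega
    calc (∏ e ∈ s, ‖q z e‖) * ∏ e ∈ C \ s, ‖1 - q z e‖ ≤ Q ^ s.card * Q ^ (C \ s).card :=
          mul_le_mul h1 h2 (prod_nonneg fun _ _ => norm_nonneg _) (by positivity)
      _ = Q ^ (s.card + (C \ s).card) := (pow_add _ _ _).symm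
      _ ≤ Q ^ nC := pow_le_pow_right₀ hQ h3
  have hsum : ∀ (n : ℕ × (K → ℕ)) (c : ℝ), 0 ≤ c →
      (∀ s, s ⊆ C → ‖HF Φ x0 y0 a b F A kd Bk st n.1 n.2 s‖ ≤ c) → ∀ z ∈ ball (0 : ℂ) ρ,
      ‖∑ s ∈ C.powerset, ((∏ e ∈ s, q z e) * ∏ e ∈ C \ s, (1 - q z e)) *
        HF Φ x0 y0 a b F A kd Bk st n.1 n.2 s‖ ≤ 2 ^ nC * (Q ^ nC * c) := by
    intro n c hc hn z hz
    refine (norm_sum_le _ _).trans ?_
    calc ∑ s ∈ C.powerset, ‖((∏ e ∈ s, q z e) * ∏ e ∈ C \ s, (1 - q z e)) *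
          HF Φ x0 y0 a b F A kd Bk st n.1 n.2 s‖
        ≤ ∑ s ∈ C.powerset, Q ^ nC * c := by
          refine sum_le_sum fun s hs => ?_
          have hs := mem_powerset.1 hs
          rw [norm_mul]
          exact mul_le_mul (hw s hs z hz) (hn s hs) (norm_nonneg _) (by positivity)
      _ = 2 ^ C.card * (Q ^ nC * c) := by
          rw [sum_const, card_powerset, nsmul_eq_mul]; push_cast; rfl
      _ ≤ _ := mul_le_mul_of_nonneg_right (pow_le_pow_right₀ (by norm_num) hC) (by positivity)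
  refine hD R hR (fun n z => α z * (κ z ^ n.1 * ∏ k, lam k z ^ n.2 k)) ?_ ?_
    (range (N + 1) ×ˢ IL K (A.card + 1))
    (fun n z => ∑ s ∈ C.powerset, ((∏ e ∈ s, q z e) * ∏ e ∈ C \ s, (1 - q z e)) *
      HF Φ x0 y0 a b F A kd Bk st n.1 n.2 s) ?_ ?_ ?_ (fun z => α z * G z) ?_
  · intro n
    refine hα.mul ((hκ.pow _).mul ?_)
    exact DifferentiableOn.fun_finsetProd fun k _ => (hlam k).pow _
  · intro n z hz
    rw [norm_mul, norm_mul, norm_pow, norm_prod]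
    have h1 : ‖κ z‖ ^ n.1 ≤ (Λ * ‖z‖) ^ n.1 := pow_le_pow_left₀ (norm_nonneg _) (hκb z hz) _
    have h2 : ∏ k, ‖lam k z ^ n.2 k‖ ≤ (Λ * ‖z‖) ^ ∑ k, n.2 k := by
      rw [← prod_pow_eq_pow_sum]
      refine prod_le_prod (fun _ _ => norm_nonneg _) fun k _ => ?_
      rw [norm_pow]
      exact pow_le_pow_left₀ (norm_nonneg _) (hlamb k z hz) _
    calc ‖α z‖ * (‖κ z‖ ^ n.1 * ∏ k, ‖lam k z ^ n.2 k‖) ≤
          (Λ * ‖z‖ ^ e) * ((Λ * ‖z‖) ^ n.1 * (Λ * ‖z‖) ^ ∑ k, n.2 k) :=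
          mul_le_mul (hαb z hz) (mul_le_mul h1 h2 (prod_nonneg fun _ _ => norm_nonneg _)
            (by positivity)) (mul_nonneg (by positivity) (prod_nonneg fun _ _ => norm_nonneg _))
            (by positivity)
      _ = (Λ * ‖z‖ ^ e) * (Λ * ‖z‖) ^ degK n := by rw [← pow_add]; rfl
      _ = _ := by rw [mul_pow, pow_add, pow_add]; ring
  · intro n
    refine DifferentiableOn.fun_sum fun s hs => ?_
    have hs := mem_powerset.1 hs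
    refine DifferentiableOn.mul_const ?_ _
    refine DifferentiableOn.mul ?_ ?_
    · exact DifferentiableOn.fun_finsetProd fun e he => hq e (hs he)
    · exact DifferentiableOn.fun_finsetProd fun e he =>
        (differentiableOn_const _).sub (hq e (mem_sdiff.1 he).1)
  · intro n
    obtain ⟨c, hc0, hc⟩ : ∃ c : ℝ, 0 ≤ c ∧ ∀ s, s ⊆ C →
        ‖HF Φ x0 y0 a b F A kd Bk st n.1 n.2 s‖ ≤ c := by
      refine ⟨∑ s ∈ C.powerset, ‖HF Φ x0 y0 a b F A kd Bk st n.1 n.2 s‖,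
        sum_nonneg fun _ _ => norm_nonneg _, fun s hs => ?_⟩
      exact single_le_sum (f := fun s => ‖HF Φ x0 y0 a b F A kd Bk st n.1 n.2 s‖)
        (fun _ _ => norm_nonneg _) (mem_powerset.2 hs)
    exact ⟨_, fun z hz => hsum n c hc0 hc z hz⟩
  · intro n hn z hz
    have h1 := hsum n (|B n.1 n.2| * R ^ ((2 / 3 : ℝ) * (degK n : ℕ) + s0)) (by positivity)
      (fun s hs => (hHF n.1 n.2 (by have h : degK n + e ≤ μ := hn; unfold degK at h; omega) s hs).trans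
        (mul_le_mul_of_nonneg_right (le_abs_self _) (by positivity))) z hz
    refine h1.trans (le_of_eq ?_)
    have e1 : (2 / 3 : ℝ) * ((degK n + e : ℕ) : ℝ) + (s0 - 2 / 3 * e) = (2 / 3 : ℝ) * (degK n : ℕ) + s0 := by
      push_cast; ring
    rw [e1]
    ring
  · filter_upwards [hG] with z hz
    rw [hz, sum_product, mul_sum]
    refine sum_congr rfl fun m _ => ?_
    rw [mul_sum]
    refine sum_congr rfl fun l _ => ?_
    rw [mul_sum, mul_sum]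
    exact sum_congr rfl fun s _ => by ring

/-- **Taylor coefficients of the weighted sum over a row**, some columns (`F`) have fixed weights, times a
function `α` of order `e` at `0`. -/
theorem tayFc (K : Type*) [Fintype K] [DecidableEq K] {ρ : ℝ} (hρ : 0 < ρ) (Λ Q : ℝ) (hΛ : 0 ≤ Λ)
    (hQ : 1 ≤ Q) (nC : ℕ) (B : ℕ → (K → ℕ) → ℝ) (s0 : ℝ) (e : ℕ) (μ : ℕ) : ∃ D : ℝ, 0 ≤ D ∧
    ∀ R : ℝ, 1 ≤ R →
    ∀ (α κ : ℂ → ℂ) (lam : K → ℂ → ℂ), DifferentiableOn ℂ α (ball 0 ρ) →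
    DifferentiableOn ℂ κ (ball 0 ρ) → (∀ k, DifferentiableOn ℂ (lam k) (ball 0 ρ)) →
    (∀ z ∈ ball (0 : ℂ) ρ, ‖α z‖ ≤ Λ * ‖z‖ ^ e) → (∀ z ∈ ball (0 : ℂ) ρ, ‖κ z‖ ≤ Λ * ‖z‖) →
    (∀ k, ∀ z ∈ ball (0 : ℂ) ρ, ‖lam k z‖ ≤ Λ * ‖z‖) →
    ∀ (N : ℕ) (x0 y0 : ℤ) (Φ : Finset (ℤ × ℤ) → ℂ) (a b : Fin N → ℂ) (F : Finset (Fin N))
    (C A Bk Fr : Finset (ℤ × ℤ)) (kd : ℤ × ℤ → K) (st : Finset (ℤ × ℤ) → Finset (ℤ × ℤ))
    (q : ℂ → ℤ × ℤ → ℂ), C.card ≤ nC → (∀ e ∈ C, DifferentiableOn ℂ (fun z => q z e) (ball 0 ρ)) →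
    (∀ e ∈ C, ∀ z ∈ ball (0 : ℂ) ρ, ‖q z e‖ ≤ Q ∧ ‖1 - q z e‖ ≤ Q) →
    Fr ⊆ A → (∀ T, T ⊆ A → st T = symmDiff T Fr) → Disjoint C (A ∪ Bk) → Disjoint A Bk →
    (∀ᶠ z in 𝓝 (0 : ℂ), ∀ e ∈ A, e ∉ Fr → q z e = lam (kd e) z) →
    (∀ᶠ z in 𝓝 (0 : ℂ), ∀ e ∈ Fr, q z e = 1 - lam (kd e) z) →
    (∀ᶠ z in 𝓝 (0 : ℂ), ∀ e ∈ Bk, q z e = 1 / 2) →
    (∀ m l, m + ∑ k, l k ≤ μ → ∀ s, s ⊆ C → ‖HF Φ x0 y0 a b F A kd Bk st m l s‖ ≤
      B m l * R ^ ((2 / 3 : ℝ) * (m + ∑ k, l k : ℕ) + s0)) →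
    ∀ G : ℂ → ℂ, (∀ᶠ z in 𝓝 (0 : ℂ), G z = Ec (q z) (C ∪ (A ∪ Bk)) (AF Φ x0 y0
      (fun i => if i ∈ F then a i else a i + κ z) (fun i => if i ∈ F then b i else b i - κ z))) →
    ‖iteratedDeriv μ (fun z => α z * G z) 0‖ ≤ D * R ^ ((2 / 3 : ℝ) * μ + (s0 - 2 / 3 * e)) ∧
    ‖iteratedDeriv μ (fun z => α (z * (R ^ (-(2 / 3) : ℝ) : ℝ)) * G (z * (R ^ (-(2 / 3) : ℝ) : ℝ)))
      0‖ ≤ D * R ^ (s0 - 2 / 3 * e) := by
  obtain ⟨D, hD0, hD⟩ := tayF K hρ Λ Q hΛ hQ nC B s0 e μ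
  refine ⟨D, hD0, ?_⟩
  intro R hR α κ lam hα hκ hlam hαb hκb hlamb N x0 y0 Φ a b F C A Bk Fr kd st q hC hq hqb hFr hst
    hd1 hd2 hT hT' hB hHF G hG
  refine hD R hR α κ lam hα hκ hlam hαb hκb hlamb N x0 y0 Φ a b F C A Bk kd st q hC hq hqb hHF G ?_
  filter_upwards [hG, hT, hT', hB] with z h0 h1 h2 h3
  rw [h0]
  exact expandFc (lam := fun k => lam k z) hFr hst hd1 hd2 h1 h2 h3

end

end Pool.Agent.H40.W
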