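import Mathlib
import Pool.Agent.H30.Mid.Plan

set_option autoImplicit false
open Finset

/-! # Wires of a network of tiles of the plane, in coordinates

`PT tc lb p cr` : the tile `i` is the label `lbt (tc i)`, `cr (i, d)` its corner. `wire_pos` : a path of
`uf L` from the end `x` to the end `x'`, outside the tiles of the network, is the wire of `x`, for both
orientations. -/

namespace Pool.Agent.H40.W

open Pool.Agent.H75.Perc Pool.Agent.H75.TwoArm Pool.Agent.Q1 Pool.Agent.H81.G1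
open Pool.Agent.H30.Mid
open Pool.Agent.H69.M6b (lbt lbt_inj lbt_odd pr0 PR Pn)

lemma UW_UW (z : (ℤ × ℤ) × Dir) : UW (UW z) = z := by
  obtain ⟨⟨x, y⟩, d⟩ := z
  unfold UW
  cases d <;> simp

lemma mate_mate (s : Bool) (d : Dir) : Dir.mate s (Dir.mate s d) = d := by
  cases s <;> cases d <;> rfl

lemma tn_mate (s : Bool) (d : Dir) : Dir.tn s (Dir.mate s d) = -Dir.tn s d := by
  cases s <;> cases d <;> rfl

lemma UW_uf (L : Finset (ℤ × ℤ)) (z : (ℤ × ℤ) × Dir) :
    UW (uf L z) = (z.1, Dir.mate (us L z.1) z.2) := by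
  unfold uf; rw [UW_UW]

/-- the step map backwards -/
lemma uf_rev (L : Finset (ℤ × ℤ)) (z : (ℤ × ℤ) × Dir) : uf L (UW (uf L z)) = UW z := by
  rw [UW_uf]
  unfold uf
  simp only
  rw [mate_mate]

lemma ud_rev (L : Finset (ℤ × ℤ)) (z : (ℤ × ℤ) × Dir) : ud L (UW (uf L z)) = -ud L z := by
  rw [UW_uf]
  unfold ud
  simp only
  rw [tn_mate]

/-- paths backwards -/
lemma uf_iter_rev (L : Finset (ℤ × ℤ)) (z : (ℤ × ℤ) × Dir) (n : ℕ) :
    ∀ k ≤ n, (uf L)^[k] (UW ((uf L)^[n] z)) = UW ((uf L)^[n - k] z) := by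
  intro k
  induction k with
  | zero => intro _; rfl
  | succ k ih =>
    intro hk
    rw [Function.iterate_succ_apply', ih (by omega)]
    have e : n - k = (n - (k + 1)) + 1 := by omega
    rw [e, Function.iterate_succ_apply', uf_rev]

lemma uc_UW (z : (ℤ × ℤ) × Dir) : uc (UW z) = uc z := by
  obtain ⟨⟨x, y⟩, d⟩ := z
  cases d
  · show uc ((x - 1, y), .E) = uc ((x, y), .W)
    rw [uc_E, uc_W, sub_add_cancel]
  · show uc ((x, y + 1), .S) = uc ((x, y), .N)
    rw [uc_S, uc_N]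
  · show uc ((x + 1, y), .W) = uc ((x, y), .E)
    rw [uc_E, uc_W]
  · show uc ((x, y - 1), .N) = uc ((x, y), .S)
    rw [uc_S, uc_N, sub_add_cancel]

variable {ι : Type*} [Fintype ι] [DecidableEq ι]

/-- the tiles in coordinates -/
structure PT (tc : ι → ℤ × ℤ) (lb : ι → ℤ × ℤ) (p : ι → Bool) (cr : ι × Dir → ℤ × ℤ) : Prop where
  elb : ∀ i, lb i = lbt (tc i).1 (tc i).2
  ep : ∀ i, p i = pr0 (lb i)
  ecr : ∀ x : ι × Dir, cr x = uc (tc x.1, x.2)

variable {tc : ι → ℤ × ℤ} {lb : ι → ℤ × ℤ} {p : ι → Bool} {cr : ι × Dir → ℤ × ℤ} {X2 : Env}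
  {Nw : Net ι} {n0 : ℕ} {L : Finset (ℤ × ℤ)}

omit [Fintype ι] [DecidableEq ι] in
lemma PT.inc (T : PT tc lb p cr) (x : ι × Dir) : inc p x = ui (tc x.1, x.2) := by
  unfold H81.G1.inc ui
  rw [T.ep, T.elb]

/-- a path between two ends, outside the tiles of the network, is a wire -/
lemma wire_of_path' (W : Wired X2 lb p cr Nw n0) (ho : OutL X2 L)
    {x x' : ι × Dir} (hx : inc p x = false) (hx' : inc p x' = true) {n : ℕ}
    (h1 : (nx L)^[n] (cr x) = cr x') (h2 : ∀ i < n, lab ((nx L)^[i] (cr x)) ∉ X2.E) :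
    Nw.π x = x' ∧ Nw.t x = ∑ i ∈ range n, del L ((nx L)^[i] (cr x)) := by
  obtain ⟨m, w1, w2, w3⟩ := W.wire x hx
  have hi := outL_iter ho h2
  have hπ : inc p (Nw.π x) = true := by rw [W.good.ty, hx]; rfl
  have hmn : m = n := by
    rcases lt_trichotomy m n with h | h | h
    · exfalso
      apply h2 m h
      rw [← hi m h.le, ← w2]
      exact mem_cr W.tiles hπ
    · exact h
    · exfalso
      apply w1 n h
      rw [hi n le_rfl, h1]
      exact mem_cr W.tiles hx'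
  subst hmn
  refine ⟨?_, ?_⟩
  · apply cr_inj W.tiles hπ hx'
    rw [w2, hi m le_rfl, h1]
  · rw [w3]
    refine sum_congr rfl fun i hi' => ?_
    have hi' := mem_range.1 hi'
    rw [hi i hi'.le]
    exact (ho _ (h2 i hi')).2

/-- **A path of the tiles of the plane between two ends is a wire**, for both orientations. -/
theorem wire_pos (T : PT tc lb p cr) (W : Wired X2 lb p cr Nw n0) (ho : OutL X2 L) {x x' : ι × Dir}
    {n : ℕ} (h1 : (uf L)^[n] (UW (tc x.1, x.2)) = (tc x'.1, x'.2))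
    (h2 : ∀ i < n, lbt ((uf L)^[i] (UW (tc x.1, x.2))).1.1 ((uf L)^[i] (UW (tc x.1, x.2))).1.2 ∉ X2.E) :
    Nw.π x = x' ∧ Nw.t x = ∑ i ∈ range n, ud L ((uf L)^[i] (UW (tc x.1, x.2))) := by
  have key : ∀ {x x' : ι × Dir}, inc p x = false → ∀ {n : ℕ},
      (uf L)^[n] (UW (tc x.1, x.2)) = (tc x'.1, x'.2) →
      (∀ i < n, lbt ((uf L)^[i] (UW (tc x.1, x.2))).1.1 ((uf L)^[i] (UW (tc x.1, x.2))).1.2 ∉ X2.E) →
      Nw.π x = x' ∧ Nw.t x = ∑ i ∈ range n, ud L ((uf L)^[i] (UW (tc x.1, x.2))) := by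
    intro x x' hx n h1 h2
    have hz : ui (UW (tc x.1, x.2)) = true := by
      rw [ui_UW, ← T.inc, hx]; rfl
    have hu := uiter L hz
    have hx' : inc p x' = true := by
      rw [T.inc, ← h1]; exact (hu n).2
    have e0 : cr x = uc (UW (tc x.1, x.2)) := by rw [T.ecr, uc_UW]
    have a1 : (nx L)^[n] (cr x) = cr x' := by
      rw [e0, ← (hu n).1, h1, T.ecr]
    have a2 : ∀ i < n, lab ((nx L)^[i] (cr x)) ∉ X2.E := by
      intro i hi
      rw [e0, ← (hu i).1, (ustep L (hu i).2).2.2.1]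
      exact h2 i hi
    obtain ⟨b1, b2⟩ := wire_of_path' W ho hx hx' a1 a2
    refine ⟨b1, b2.trans (sum_congr rfl fun i _ => ?_)⟩
    rw [e0, ← (hu i).1, (ustep L (hu i).2).2.1]
  cases hx : inc p x
  · exact key hx h1 h2
  · -- the reversed path
    have hz : ui (UW (tc x.1, x.2)) = false := by
      rw [ui_UW, ← T.inc, hx]; rfl
    have hx' : inc p x' = false := by
      rw [T.inc, ← h1, ui_iter, hz]
    have r := uf_iter_rev L (UW (tc x.1, x.2)) n
    rw [h1] at r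
    have g1 : (uf L)^[n] (UW (tc x'.1, x'.2)) = (tc x.1, x.2) := by
      rw [r n le_rfl, Nat.sub_self, Function.iterate_zero, id_eq, UW_UW]
    have g3 : ∀ i < n, (uf L)^[i] (UW (tc x'.1, x'.2)) =
        UW (uf L ((uf L)^[n - 1 - i] (UW (tc x.1, x.2)))) := by
      intro i hi
      rw [r i hi.le, ← Function.iterate_succ_apply' (uf L)]
      congr 2
      omega
    obtain ⟨b1, b2⟩ := key (x := x') (x' := x) hx' g1 fun i hi => by
      rw [g3 i hi, UW_uf]
      exact h2 _ (by omega)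
    have b3 : Nw.π x = x' := by rw [← b1, W.good.inv]
    refine ⟨b3, ?_⟩
    have b4 : Nw.t x = -Nw.t x' := by rw [← b1]; exact W.good.t_neg x'
    rw [b4, b2, ← sum_range_reflect, ← sum_neg_distrib]
    refine sum_congr rfl fun i hi => ?_
    have hi := mem_range.1 hi
    rw [g3 _ (by omega), ud_rev, neg_neg]
    congr 2
    omega

end Pool.Agent.H40.W
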