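import Mathlib
import Pool.Agent.H40.W.WirU

set_option autoImplicit false
open Finset

/-! # A rectangle of tiles with a column passed straight

`sf L xs` : the step map `uf L`, the tiles of the column `xs` are passed straight (`E` to `W`, `W` to `E`).
`strTD` : the strands of the rectangle without this column give a noncrossing matching of its ports. -/

namespace Pool.Agent.H40.W

open Pool.Agent.H75.Perc Pool.Agent.H75.TwoArm Pool.Agent.Q1 Pool.Agent.H81.G1
open Pool.Agent.H30.Mid
open Pool.Agent.H69.M6b (lbt lbt_inj lbt_odd pr0 PR TD tt Tile4 Grid sdP innS outS KS RR fwd)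

/-- pass the column `xs` straight -/
def cs (xs : ℤ) (z : (ℤ × ℤ) × Dir) : (ℤ × ℤ) × Dir :=
  if z.1.1 = xs ∧ z.2 = .W then ((xs + 1, z.1.2), .W)
  else if z.1.1 = xs ∧ z.2 = .E then ((xs - 1, z.1.2), .E) else z

/-- one step, the column `xs` passed straight -/
def sf (L : Finset (ℤ × ℤ)) (xs : ℤ) (z : (ℤ × ℤ) × Dir) : (ℤ × ℤ) × Dir := cs xs (uf L z)

lemma cs_W (xs y : ℤ) : cs xs ((xs, y), .W) = ((xs + 1, y), .W) := by
  unfold cs; simp

lemma cs_E (xs y : ℤ) : cs xs ((xs, y), .E) = ((xs - 1, y), .E) := by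
  unfold cs; simp

lemma cs_ne {xs : ℤ} {z : (ℤ × ℤ) × Dir} (h : z.1.1 ≠ xs) : cs xs z = z := by
  unfold cs
  rw [if_neg (fun h1 => h h1.1), if_neg (fun h1 => h h1.1)]

lemma cs_N (xs : ℤ) (u : ℤ × ℤ) : cs xs (u, .N) = (u, .N) := by
  unfold cs; simp

lemma cs_S (xs : ℤ) (u : ℤ × ℤ) : cs xs (u, .S) = (u, .S) := by
  unfold cs; simp

/-- columns of the reduced rectangle -/
def rx (xl C i : ℤ) : ℤ := xl + i + (if C ≤ i then 1 else 0)

lemma rx_lt {xl C i : ℤ} (h : i < C) : rx xl C i = xl + i := by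
  unfold rx; rw [if_neg (by omega)]; ring

lemma rx_ge {xl C i : ℤ} (h : C ≤ i) : rx xl C i = xl + i + 1 := by
  unfold rx; rw [if_pos h]

lemma rx_ne (xl C i : ℤ) : rx xl C i ≠ xl + C := by
  unfold rx; split_ifs <;> omega

/-- stepping to the right -/
lemma cs_right (xl C i y : ℤ) : cs (xl + C) ((rx xl C i + 1, y), .W) = ((rx xl C (i + 1), y), .W) := by
  rcases lt_trichotomy (i + 1) C with h | h | h
  · rw [rx_lt (by omega), rx_lt h, cs_ne (by simp only; omega)]
    refine Prod.ext (Prod.ext ?_ rfl) rfl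
    simp only; ring
  · rw [rx_lt (by omega), rx_ge h.ge]
    have e : xl + i + 1 = xl + C := by omega
    rw [e, cs_W]
    refine Prod.ext (Prod.ext ?_ rfl) rfl
    simp only; omega
  · rw [rx_ge (by omega), rx_ge (by omega), cs_ne (by simp only; omega)]
    refine Prod.ext (Prod.ext ?_ rfl) rfl
    simp only; ring

/-- stepping to the left -/
lemma cs_left (xl C i y : ℤ) : cs (xl + C) ((rx xl C i - 1, y), .E) = ((rx xl C (i - 1), y), .E) := by
  rcases lt_trichotomy i C with h | h | h
  · rw [rx_lt h, rx_lt (by omega), cs_ne (by simp only; omega)]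
    refine Prod.ext (Prod.ext ?_ rfl) rfl
    simp only; ring
  · rw [rx_ge h.ge, rx_lt (by omega)]
    have e : xl + i + 1 - 1 = xl + C := by omega
    rw [e, cs_E]
    refine Prod.ext (Prod.ext ?_ rfl) rfl
    simp only; omega
  · rw [rx_ge (by omega), rx_ge (by omega), cs_ne (by simp only; omega)]
    refine Prod.ext (Prod.ext ?_ rfl) rfl
    simp only; ring

section

variable (L : Finset (ℤ × ℤ)) (xl yb C : ℤ)

/-- positions of the sides -/
def vRz (i j : ℕ) : (ℤ × ℤ) × Dir := ((rx xl C i, yb + j), .W)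
def vLz (i j : ℕ) : (ℤ × ℤ) × Dir := ((rx xl C ((i : ℤ) - 1), yb + j), .E)
def hUz (i j : ℕ) : (ℤ × ℤ) × Dir := ((rx xl C i, yb + j), .S)
def hDz (i j : ℕ) : (ℤ × ℤ) × Dir := ((rx xl C i, yb + j - 1), .N)

/-- **the reduced rectangle** -/
lemma gridZ (w h : ℕ) : Grid (sf L (xl + C)) (ud L) w h (fun i j => us L (rx xl C i, yb + j))
    (vRz xl yb C) (vLz xl yb C) (hUz xl yb C) (hDz xl yb C) := by
  constructor
  intro i _ j _
  have eL : vLz xl yb C (i + 1) j = ((rx xl C i, yb + j), .E) := by
    unfold vLz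
    refine Prod.ext (Prod.ext ?_ rfl) rfl
    simp only
    congr 1
    push_cast; ring
  have eD : hDz xl yb C i (j + 1) = ((rx xl C i, yb + j), .N) := by
    unfold hDz
    refine Prod.ext (Prod.ext rfl ?_) rfl
    simp only
    push_cast; ring
  have eU : hUz xl yb C i (j + 1) = ((rx xl C i, yb + j + 1), .S) := by
    unfold hUz
    refine Prod.ext (Prod.ext rfl ?_) rfl
    simp only
    push_cast; ring
  have eR : vRz xl yb C (i + 1) j = ((rx xl C ((i : ℤ) + 1), yb + j), .W) := by
    unfold vRz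
    refine Prod.ext (Prod.ext ?_ rfl) rfl
    simp only
    congr 1
  rw [eL, eD, eU, eR]
  have r := cs_right xl C i (yb + j)
  have l := cs_left xl C i (yb + j)
  constructor
  · intro hs
    refine ⟨?_, ?_, ?_, ?_, ?_, ?_, ?_, ?_⟩
    · unfold sf uf vRz
      simp only [hs, Dir.mate]
      unfold UW
      exact cs_S _ _
    · unfold sf uf
      simp only [hs, Dir.mate]
      unfold UW
      exact cs_N _ _
    · unfold sf uf hUz
      simp only [hs, Dir.mate]
      unfold UW
      exact r
    · unfold sf uf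
      simp only [hs, Dir.mate]
      unfold UW
      exact l
    · unfold ud vRz; simp only [hs, Dir.tn]
    · unfold ud; simp only [hs, Dir.tn]
    · unfold ud hUz; simp only [hs, Dir.tn]
    · unfold ud; simp only [hs, Dir.tn]
  · intro hs
    refine ⟨?_, ?_, ?_, ?_, ?_, ?_, ?_, ?_⟩
    · unfold sf uf vRz
      simp only [hs, Dir.mate]
      unfold UW
      exact cs_N _ _
    · unfold sf uf
      simp only [hs, Dir.mate]
      unfold UW
      exact cs_S _ _
    · unfold sf uf hUz
      simp only [hs, Dir.mate]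
      unfold UW
      exact l
    · unfold sf uf
      simp only [hs, Dir.mate]
      unfold UW
      exact r
    · unfold ud vRz; simp only [hs, Dir.tn]
    · unfold ud; simp only [hs, Dir.tn]
    · unfold ud hUz; simp only [hs, Dir.tn]
    · unfold ud; simp only [hs, Dir.tn]

/-- **The strands of the rectangle without the column `xl + C`.** -/
theorem strTD (w : ℕ) {h : ℕ} (hh : 0 < h) :
    ∃ M, TD (sf L (xl + C)) (ud L) (RR w h (vRz xl yb C) (vLz xl yb C) (hUz xl yb C) (hDz xl yb C))
      (h + w) (innS (vRz xl yb C) (vLz xl yb C) (hUz xl yb C) (hDz xl yb C) (h + w) (sdP w h))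
      (outS (vRz xl yb C) (vLz xl yb C) (hUz xl yb C) (hDz xl yb C) (h + w) (sdP w h))
      (KS (sdP w h)) M :=
  (gridZ L xl yb C w h).rect hh

end

end Pool.Agent.H40.W
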