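import Mathlib
import Pool.Agent.H40.W.StrU

set_option autoImplicit false
open Finset

/-! # The matching of the columns above the row, the string column passed straight

`SideZ c0 Ex U` : noncrossing matching of the columns outside `Ex`, `c0 ∈ Ex` is the column of the string;
the other columns of `Ex` are not separated, `c0` may be. -/

namespace Pool.Agent.H40.W

open Pool.Agent.H75.Perc Pool.Agent.H75.TwoArm Pool.Agent.Q1 Pool.Agent.H81.G1
open Pool.Agent.H30.Mid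
open Pool.Agent.H69.M6b (lbt lbt_inj lbt_odd pr0 PR TD tt Tile4 Grid sdP innS outS KS RR fwd)
open Pool.Agent.Q1.M6b.Meander (dir dir_lt dir_gt)

variable {N : ℕ}

/-- noncrossing matching of the columns outside `Ex`, the column `c0` is passed straight -/
structure SideZ (c0 : Fin N) (Ex : Finset (Fin N)) (U : Fin N → Fin N) : Prop where
  zero : c0 ∈ Ex
  mem : ∀ c, c ∉ Ex → U c ∉ Ex
  inv : ∀ c, c ∉ Ex → U (U c) = c
  ne : ∀ c, c ∉ Ex → U c ≠ c
  nc : ∀ x, x ∉ Ex → ∀ y, y ∉ Ex → x < y → y < U x → x < U y ∧ U y < U x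
  ex : ∀ x, x ∉ Ex → ∀ c ∈ Ex, c ≠ c0 → ¬ (x < c ∧ c < U x)

/-- port of the column -/
def prz (c0 : Fin N) (p0 : ℕ) (c : Fin N) : ℕ := p0 + (if c < c0 then (c : ℕ) else (c : ℕ) - 1)

open Classical in
/-- exceptional columns -/
noncomputable def excz (c0 : Fin N) (M : ℕ → ℕ) (p0 : ℕ) : Finset (Fin N) :=
  univ.filter (fun c => c = c0 ∨ ∀ c', c' ≠ c0 → M (prz c0 p0 c) ≠ prz c0 p0 c')

open Classical in
/-- partner of a column -/
noncomputable def mtz (c0 : Fin N) (M : ℕ → ℕ) (p0 : ℕ) (c : Fin N) : Fin N :=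
  if h : ∃ c', c' ≠ c0 ∧ M (prz c0 p0 c) = prz c0 p0 c' then Classical.choose h else c

section

variable {c0 : Fin N} {M : ℕ → ℕ} {p0 n : ℕ}

lemma mem_excz {c : Fin N} : c ∈ excz c0 M p0 ↔
    c = c0 ∨ ∀ c', c' ≠ c0 → M (prz c0 p0 c) ≠ prz c0 p0 c' := by
  unfold excz; simp

lemma not_excz {c : Fin N} (h : c ∉ excz c0 M p0) :
    c ≠ c0 ∧ mtz c0 M p0 c ≠ c0 ∧ M (prz c0 p0 c) = prz c0 p0 (mtz c0 M p0 c) := by
  rw [mem_excz, not_or] at h
  obtain ⟨h1, h2⟩ := h
  push Not at h2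
  have h3 := Classical.choose_spec h2
  unfold mtz
  rw [dif_pos h2]
  exact ⟨h1, h3⟩

lemma prz_lt {c : Fin N} (h : (c : ℕ) < c0) : prz c0 p0 c = p0 + c := by
  unfold prz; rw [if_pos (Fin.lt_def.2 h)]

lemma prz_gt {c : Fin N} (h : (c0 : ℕ) < c) : prz c0 p0 c + 1 = p0 + c := by
  unfold prz
  rw [if_neg (fun h1 => by have := Fin.lt_def.1 h1; omega)]
  omega

lemma prz_cases {c : Fin N} (h : c ≠ c0) : ((c : ℕ) < c0 ∧ prz c0 p0 c = p0 + c) ∨
    ((c0 : ℕ) < c ∧ prz c0 p0 c + 1 = p0 + c) := by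
  have h1 : (c : ℕ) ≠ c0 := fun h2 => h (Fin.ext h2)
  rcases Nat.lt_or_gt_of_ne h1 with h2 | h2
  · exact Or.inl ⟨h2, prz_lt h2⟩
  · exact Or.inr ⟨h2, prz_gt h2⟩

lemma prz_mono {c c' : Fin N} (h : c ≠ c0) (h' : c' ≠ c0) : prz c0 p0 c < prz c0 p0 c' ↔ c < c' := by
  rw [Fin.lt_def]
  rcases prz_cases (p0 := p0) h with h1 | h1 <;> rcases prz_cases (p0 := p0) h' with h2 | h2 <;> omega

lemma prz_inj {c c' : Fin N} (h : c ≠ c0) (h' : c' ≠ c0) (e : prz c0 p0 c = prz c0 p0 c') : c = c' := by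
  rcases lt_trichotomy c c' with h1 | h1 | h1
  · have := (prz_mono (p0 := p0) h h').2 h1; omega
  · exact h1
  · have := (prz_mono (p0 := p0) h' h).2 h1; omega

lemma prz_surj {k : ℕ} (h1 : p0 ≤ k) (h2 : k + 1 < p0 + N) : ∃ c : Fin N, c ≠ c0 ∧ prz c0 p0 c = k := by
  have hc := c0.2
  rcases Nat.lt_or_ge (k - p0) c0 with h3 | h3
  · refine ⟨⟨k - p0, by omega⟩, fun h => by have := congrArg Fin.val h; simp only at this; omega, ?_⟩
    rw [prz_lt (by simpa using h3)]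
    simp only; omega
  · refine ⟨⟨k - p0 + 1, by omega⟩, fun h => by have := congrArg Fin.val h; simp only at this; omega, ?_⟩
    have := prz_gt (p0 := p0) (c0 := c0) (c := ⟨k - p0 + 1, by omega⟩) (by simp only; omega)
    simp only at this ⊢
    omega

/-- **The matching of the columns above the row**, from a noncrossing matching of `m` ports. -/
theorem sideZ_of' {m : ℕ} (hinv : ∀ k < m, M (M k) = k) (hne : ∀ k < m, M k ≠ k)
    (hnc : ∀ k < m, ∀ l < m, l ≠ k → l ≠ M k → ((l < k ↔ l < M k) ↔ (M l < k ↔ M l < M k)))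
    (hlt : p0 + N ≤ m + 1) : SideZ c0 (excz c0 M p0) (mtz c0 M p0) := by
  have hl : ∀ c : Fin N, c ≠ c0 → prz c0 p0 c < m := by
    intro c hc
    have h1 := c.2
    have h2 := c0.2
    rcases prz_cases (p0 := p0) hc with h3 | h3 <;> omega
  have hinv' := hinv
  have hinv : ∀ c, c ∉ excz c0 M p0 → M (prz c0 p0 (mtz c0 M p0 c)) = prz c0 p0 c := by
    intro c hc
    obtain ⟨h1, h2, h3⟩ := not_excz hc
    rw [← h3]
    exact hinv' _ (hl c h1)
  have hmem : ∀ c, c ∉ excz c0 M p0 → mtz c0 M p0 c ∉ excz c0 M p0 := by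
    intro c hc h
    obtain ⟨h1, h2, h3⟩ := not_excz hc
    rcases mem_excz.1 h with h4 | h4
    · exact h2 h4
    · exact h4 c h1 (hinv c hc)
  have hi : ∀ c, c ∉ excz c0 M p0 → mtz c0 M p0 (mtz c0 M p0 c) = c := by
    intro c hc
    obtain ⟨h1, h2, h3⟩ := not_excz hc
    obtain ⟨g1, g2, g3⟩ := not_excz (hmem c hc)
    apply prz_inj (p0 := p0) g2 h1
    rw [← g3, hinv c hc]
  have hne' := hne
  have hne : ∀ c, c ∉ excz c0 M p0 → mtz c0 M p0 c ≠ c := by
    intro c hc h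
    obtain ⟨h1, h2, h3⟩ := not_excz hc
    apply hne' _ (hl c h1)
    rw [h3, h]
  refine ⟨mem_excz.2 (Or.inl rfl), hmem, hi, hne, ?_, ?_⟩
  · intro x hx y hy h1 h2
    obtain ⟨x1, x2, e1⟩ := not_excz hx
    obtain ⟨y1, y2, e2⟩ := not_excz hy
    have n1 : prz c0 p0 y ≠ prz c0 p0 x := fun h => by
      rw [prz_inj y1 x1 h] at h1
      exact lt_irrefl _ h1
    have n2 : prz c0 p0 y ≠ M (prz c0 p0 x) := fun h => by
      rw [e1] at h
      rw [← prz_inj y1 x2 h] at h2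
      exact lt_irrefl _ h2
    have n3 : mtz c0 M p0 y ≠ x := fun h => by
      have := hi y hy
      rw [h] at this
      rw [this] at h2
      exact lt_irrefl _ h2
    have n4 : mtz c0 M p0 y ≠ mtz c0 M p0 x := fun h => by
      have := congrArg (mtz c0 M p0) h
      rw [hi y hy, hi x hx] at this
      rw [this] at h1
      exact lt_irrefl _ h1
    have key := hnc _ (hl x x1) _ (hl y y1) n1 n2
    rw [e1, e2, prz_mono y1 x1, prz_mono y1 x2, prz_mono y2 x1, prz_mono y2 x2] at key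
    have k1 : ¬ (y < x) := not_lt.2 h1.le
    have k2 : y < mtz c0 M p0 x := h2
    rcases lt_or_gt_of_ne n3 with h3 | h3
    · rcases lt_or_gt_of_ne n4 with h4 | h4
      · exact absurd (key.2 ⟨fun _ => h4, fun _ => h3⟩) (fun h => k1 (h.2 k2))
      · exact absurd (h3.trans (h1.trans h2)) (not_lt.2 h4.le)
    · rcases lt_or_gt_of_ne n4 with h4 | h4
      · exact ⟨h3, h4⟩
      · exfalso
        have : (y < x ↔ y < mtz c0 M p0 x) :=
          key.2 ⟨fun h => absurd h (not_lt.2 h3.le), fun h => absurd h (not_lt.2 h4.le)⟩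
        exact k1 (this.2 k2)
  · rintro x hx c hc hcc ⟨h1, h2⟩
    obtain ⟨x1, x2, e1⟩ := not_excz hx
    have n1 : prz c0 p0 c ≠ prz c0 p0 x := fun h => by
      rw [prz_inj hcc x1 h] at h1
      exact lt_irrefl _ h1
    have n2 : prz c0 p0 c ≠ M (prz c0 p0 x) := fun h => by
      rw [e1] at h
      rw [← prz_inj hcc x2 h] at h2
      exact lt_irrefl _ h2
    have key := hnc _ (hl x x1) _ (hl c hcc) n1 n2
    rw [e1, prz_mono hcc x1, prz_mono hcc x2] at key
    have k1 : ¬ (c < x ↔ c < mtz c0 M p0 x) := fun h => absurd (h.2 h2) (not_lt.2 h1.le)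
    have k2 : ¬ (M (prz c0 p0 c) < prz c0 p0 x ↔ M (prz c0 p0 c) < prz c0 p0 (mtz c0 M p0 x)) :=
      fun h => k1 (key.2 h)
    have k3 := (prz_mono (p0 := p0) x1 x2).2 (h1.trans h2)
    have k4 : prz c0 p0 x ≤ M (prz c0 p0 c) ∧ M (prz c0 p0 c) < prz c0 p0 (mtz c0 M p0 x) := by omega
    have b1 := (mtz c0 M p0 x).2
    have b2 := c0.2
    have b3 : p0 ≤ prz c0 p0 x := by unfold prz; omega
    have b4 : prz c0 p0 (mtz c0 M p0 x) + 1 < p0 + N := by
      rcases prz_cases (p0 := p0) x2 with h3 | h3 <;> omega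
    obtain ⟨c', g1, g2⟩ := prz_surj (c0 := c0) (p0 := p0) (k := M (prz c0 p0 c)) (by omega) (by omega)
    rcases mem_excz.1 hc with h5 | h5
    · exact hcc h5
    · exact h5 c' g1 g2.symm

/-- **The matching of the columns above the row.** -/
theorem sideZ_of {D : Type*} {f : D → D} {δ : D → ℤ} {R : Set D} {inn out : ℕ → D} {K : ℕ → ℤ}
    (hT : TD f δ R n inn out K M) (hlt : p0 + N ≤ 2 * n + 1) :
    SideZ c0 (excz c0 M p0) (mtz c0 M p0) :=
  sideZ_of' (m := 2 * n) (fun k hk => hT.inv k hk) (fun k hk => hT.ne k hk) hT.nc hlt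

end

end Pool.Agent.H40.W
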