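import Mathlib
import Pool.Agent.H40.W.SideZ

set_option autoImplicit false
open Finset

/-! # The wires above the row, the string passed straight

`Chn Nw St Cl x x' t k` : from the end `x` along the wires, the tiles of `St` are passed straight (`E`–`W`), to
the end `x'`; `Cl` : property of the first ends of the wires; `t` : turning of the wires, `k` : number of passages
to the right minus passages to the left. `chn_of_path` : the paths of `sf` are chains. `not_first` : a wire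
in a region is not the wire of a corner outside the region. -/

namespace Pool.Agent.H40.W

open Pool.Agent.H75.Perc Pool.Agent.H75.TwoArm Pool.Agent.Q1 Pool.Agent.H81.G1
open Pool.Agent.H30.Mid
open Pool.Agent.H69.M6b (lbt lbt_inj lbt_odd pr0 PR TD tt Tile4 Grid sdP innS outS KS RR fwd)
open Pool.Agent.Q1.M6b.Meander (dir dir_lt dir_gt)

variable {ι : Type*}

/-- from `x` to `x'` along the wires, the tiles of `St` are passed straight -/
inductive Chn (Nw : Net ι) (St : ι → Prop) (Cl : ι × Dir → Prop) :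
    ι × Dir → ι × Dir → ℤ → ℤ → Prop
  | last (x : ι × Dir) (h0 : Cl x) : Chn Nw St Cl x (Nw.π x) (Nw.t x) 0
  | right {x x' : ι × Dir} {j : ι} {t k : ℤ} (h0 : Cl x) (h1 : Nw.π x = (j, .W)) (h2 : St j)
      (h3 : Chn Nw St Cl (j, .E) x' t k) : Chn Nw St Cl x x' (Nw.t x + t) (k + 1)
  | left {x x' : ι × Dir} {j : ι} {t k : ℤ} (h0 : Cl x) (h1 : Nw.π x = (j, .E)) (h2 : St j)
      (h3 : Chn Nw St Cl (j, .W) x' t k) : Chn Nw St Cl x x' (Nw.t x + t) (k - 1)

lemma Chn.cast {Nw : Net ι} {St : ι → Prop} {Cl : ι × Dir → Prop} {x x' : ι × Dir} {t t' k k' : ℤ}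
    (h : Chn Nw St Cl x x' t k) (e1 : t = t') (e2 : k = k') : Chn Nw St Cl x x' t' k' := by
  subst e1; subst e2; exact h

/-- side of the column `xs` -/
def sd (xs : ℤ) (z : (ℤ × ℤ) × Dir) : ℤ := if xs < z.1.1 then 1 else 0

lemma UW_col (z : (ℤ × ℤ) × Dir) : (UW z).1.1 = z.1.1 ∨
    ((UW z).1.1 = z.1.1 + 1 ∧ (UW z).2 = .W) ∨ ((UW z).1.1 = z.1.1 - 1 ∧ (UW z).2 = .E) := by
  obtain ⟨⟨x, y⟩, d⟩ := z
  unfold UW
  cases d
  · right; right; exact ⟨rfl, rfl⟩
  · left; rfl
  · right; left; exact ⟨rfl, rfl⟩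
  · left; rfl

lemma uf_col (L : Finset (ℤ × ℤ)) (z : (ℤ × ℤ) × Dir) : (uf L z).1.1 = z.1.1 ∨
    ((uf L z).1.1 = z.1.1 + 1 ∧ (uf L z).2 = .W) ∨ ((uf L z).1.1 = z.1.1 - 1 ∧ (uf L z).2 = .E) :=
  UW_col (z.1, Dir.mate (us L z.1) z.2)

variable [Fintype ι] [DecidableEq ι]
variable {tc : ι → ℤ × ℤ} {lb : ι → ℤ × ℤ} {p : ι → Bool} {cr : ι × Dir → ℤ × ℤ} {X2 : Env}
  {Nw : Net ι} {n0 : ℕ} {L : Finset (ℤ × ℤ)} {xs : ℤ} {St : ι → Prop}

/-- a path of the tiles in the region `In` between two ends, outside the tiles of the network -/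
def WP (tc : ι → ℤ × ℤ) (X2 : Env) (L : Finset (ℤ × ℤ)) (In : ℤ × ℤ → Prop) (x x' : ι × Dir)
    (n : ℕ) : Prop :=
  (uf L)^[n] (UW (tc x.1, x.2)) = (tc x'.1, x'.2) ∧ In (tc x.1) ∧ In (tc x'.1) ∧
    ∀ i < n, In ((uf L)^[i] (UW (tc x.1, x.2))).1 ∧
      lbt ((uf L)^[i] (UW (tc x.1, x.2))).1.1 ((uf L)^[i] (UW (tc x.1, x.2))).1.2 ∉ X2.E

omit [Fintype ι] [DecidableEq ι] in
lemma WP.rev {In : ℤ × ℤ → Prop} {x x' : ι × Dir} {n : ℕ} (h : WP tc X2 L In x x' n) :
    WP tc X2 L In x' x n := by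
  obtain ⟨h1, h2, h3, h4⟩ := h
  have r := uf_iter_rev L (UW (tc x.1, x.2)) n
  rw [h1] at r
  have g3 : ∀ i < n, (uf L)^[i] (UW (tc x'.1, x'.2)) =
      UW (uf L ((uf L)^[n - 1 - i] (UW (tc x.1, x.2)))) := by
    intro i hi
    rw [r i hi.le, ← Function.iterate_succ_apply' (uf L)]
    congr 2
    omega
  refine ⟨?_, h3, h2, fun i hi => ?_⟩
  · rw [r n le_rfl, Nat.sub_self, Function.iterate_zero, id_eq, UW_UW]
  · rw [g3 i hi, UW_uf]
    exact h4 _ (by omega)

/-- the label before an outgoing end -/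
lemma plab_out' (T : PT tc lb p cr) (Tl : Tiles X2 lb p cr) {x : ι × Dir}
    (hx : inc p x = false) : plab (cr x) = lb x.1 := by
  have h1 : inc p (par (stt lb p ∅) x) = true := by
    rw [inc_par, hx]; rfl
  rw [cr_out (ω := ∅) Tl hx, Env.f_in (mem_cr Tl h1), plab_nx, lab_cr Tl h1]
  rfl

/-- **A wire in the region is not the wire of a corner outside the region.** -/
theorem not_first (T : PT tc lb p cr) (W : Wired X2 lb p cr Nw n0) (ho : OutL X2 L)
    {In : ℤ × ℤ → Prop} {x x' y : ι × Dir} {n n1 : ℕ} (h : WP tc X2 L In x x' n) (hy : inc p y = true)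
    {c : ℤ × ℤ} (hc : ∀ i < n1, lab (X2.out^[i] c) ∉ X2.E) (hcy : cr y = X2.out^[n1] c)
    (hpl : ∀ u, In u → plab c ≠ lbt u.1 u.2) : y ≠ x ∧ y ≠ x' := by
  have key : ∀ {x : ι × Dir}, WP tc X2 L In x y n → False := by
    intro x h
    obtain ⟨h1, h2, h3, h4⟩ := h
    have hui : ui (UW (tc x.1, x.2)) = true := by
      have h5 := ui_iter L (UW (tc x.1, x.2)) n
      rw [h1, ← T.inc, hy] at h5
      exact h5.symm
    have hx : inc p x = false := by
      rw [ui_UW] at hui
      rw [T.inc]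
      simpa using hui
    have hu := uiter L hui
    have e0 : cr x = uc (UW (tc x.1, x.2)) := by rw [T.ecr, uc_UW]
    have e1 : (nx L)^[n] (cr x) = cr y := by rw [e0, ← (hu n).1, h1, T.ecr]
    have el : ∀ i < n, lab ((nx L)^[i] (cr x)) =
        lbt ((uf L)^[i] (UW (tc x.1, x.2))).1.1 ((uf L)^[i] (UW (tc x.1, x.2))).1.2 := by
      intro i hi
      rw [e0, ← (hu i).1, (ustep L (hu i).2).2.2.1]
    have hr := outL_iter' ho hc
    have e3 : (nx L)^[n] (cr x) = (nx L)^[n1] c := by rw [e1, hcy, hr n1 le_rfl]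
    have hpo := plab_out' T W.tiles hx
    rcases Nat.lt_or_ge n n1 with h5 | h5
    · obtain ⟨m, rfl⟩ : ∃ m, n1 = n + (m + 1) := ⟨n1 - n - 1, by omega⟩
      rw [Function.iterate_add_apply] at e3
      have e4 := ((nx_injective L).iterate n) e3
      rw [Function.iterate_succ_apply'] at e4
      have e5 := hpo
      rw [e4, plab_nx, ← hr m (by omega)] at e5
      apply hc m (by omega)
      rw [e5]
      exact W.tiles.mem _
    · obtain ⟨m, rfl⟩ : ∃ m, n = n1 + m := ⟨n - n1, by omega⟩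
      rw [Function.iterate_add_apply] at e3
      have e4 := ((nx_injective L).iterate n1) e3
      rcases Nat.eq_zero_or_pos m with h6 | h6
      · subst h6
        rw [Function.iterate_zero, id_eq] at e4
        apply hpl _ h2
        rw [← e4, hpo, T.elb]
      · obtain ⟨j, rfl⟩ : ∃ j, m = j + 1 := ⟨m - 1, by omega⟩
        apply hpl _ (h4 j (by omega)).1
        rw [← e4, Function.iterate_succ_apply', plab_nx, el j (by omega)]
  constructor
  · rintro rfl
    exact key h.rev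
  · rintro rfl
    exact key h

/-- **A path which passes the column `xs` straight is a chain of wires.** -/
theorem chn_of_path (T : PT tc lb p cr) (W : Wired X2 lb p cr Nw n0) (ho : OutL X2 L)
    {In : ℤ × ℤ → Prop} {Cl : ι × Dir → Prop} (hCl : ∀ x x' n, WP tc X2 L In x x' n → Cl x)
    {x' : ι × Dir} (hx' : In (tc x'.1)) {n : ℕ} : ∀ {z : (ℤ × ℤ) × Dir} {x : ι × Dir} {m : ℕ},
    In (tc x.1) → (uf L)^[m] (UW (tc x.1, x.2)) = z →
    (∀ i < m, In ((uf L)^[i] (UW (tc x.1, x.2))).1 ∧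
      lbt ((uf L)^[i] (UW (tc x.1, x.2))).1.1 ((uf L)^[i] (UW (tc x.1, x.2))).1.2 ∉ X2.E) →
    z.1.1 ≠ xs → (sf L xs)^[n] z = (tc x'.1, x'.2) →
    (∀ i < n, (((sf L xs)^[i] z).1.1 ≠ xs ∧ In ((sf L xs)^[i] z).1) ∧
      lbt ((sf L xs)^[i] z).1.1 ((sf L xs)^[i] z).1.2 ∉ X2.E ∧
      ∀ y, (uf L ((sf L xs)^[i] z)).1 = (xs, y) → ∃ j, tc j = (xs, y) ∧ In (xs, y) ∧ St j) →
    (∀ i ≤ n, ((sf L xs)^[i] z).1.1 ≠ xs) →
    Chn Nw St Cl x x' (∑ i ∈ range m, ud L ((uf L)^[i] (UW (tc x.1, x.2))) +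
      ∑ i ∈ range n, ud L ((sf L xs)^[i] z)) (sd xs (tc x'.1, x'.2) - sd xs z) := by
  induction n with
  | zero =>
    intro z x m h0 h1 h2 h3 h4 h5 h6
    have h4' : z = (tc x'.1, x'.2) := h4
    rw [h4'] at h1
    obtain ⟨b1, b2⟩ := wire_pos T W ho h1 fun i hi => (h2 i hi).2
    have h7 := Chn.last (Nw := Nw) (St := St) x (hCl x x' m ⟨h1, h0, hx', h2⟩)
    rw [b1] at h7
    refine h7.cast ?_ ?_
    · rw [b2, sum_range_zero, add_zero]
    · rw [h4', sub_self]
  | succ n ih =>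
    intro z x m h0 h1 h2 h3 h4 h5 h6
    obtain ⟨⟨g1, g1'⟩, g2, g3⟩ := h5 0 (Nat.succ_pos n)
    simp only [Function.iterate_zero, id_eq] at g1 g1' g2 g3
    have q1 : (uf L)^[m + 1] (UW (tc x.1, x.2)) = uf L z := by
      rw [Function.iterate_succ_apply', h1]
    have q2 : ∀ i < m + 1, In ((uf L)^[i] (UW (tc x.1, x.2))).1 ∧
        lbt ((uf L)^[i] (UW (tc x.1, x.2))).1.1 ((uf L)^[i] (UW (tc x.1, x.2))).1.2 ∉ X2.E := by
      intro i hi
      rcases Nat.lt_succ_iff_lt_or_eq.1 hi with h | h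
      · exact h2 i h
      · rw [h, h1]; exact ⟨g1', g2⟩
    have q3 : ∀ i, (sf L xs)^[i] (sf L xs z) = (sf L xs)^[i + 1] z := fun i =>
      (Function.iterate_succ_apply (sf L xs) i z).symm
    have q4 : (sf L xs)^[n] (sf L xs z) = (tc x'.1, x'.2) := by rw [q3]; exact h4
    have q5 : ∀ i < n, (((sf L xs)^[i] (sf L xs z)).1.1 ≠ xs ∧ In ((sf L xs)^[i] (sf L xs z)).1) ∧
      lbt ((sf L xs)^[i] (sf L xs z)).1.1 ((sf L xs)^[i] (sf L xs z)).1.2 ∉ X2.E ∧
      ∀ y, (uf L ((sf L xs)^[i] (sf L xs z))).1 = (xs, y) →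
        ∃ j, tc j = (xs, y) ∧ In (xs, y) ∧ St j := by
      intro i hi
      rw [q3]; exact h5 (i + 1) (by omega)
    have q6 : ∀ i ≤ n, ((sf L xs)^[i] (sf L xs z)).1.1 ≠ xs := by
      intro i hi
      rw [q3]; exact h6 (i + 1) (by omega)
    have q7 : (sf L xs z).1.1 ≠ xs := q6 0 (Nat.zero_le _)
    have q8 : ∑ i ∈ range (n + 1), ud L ((sf L xs)^[i] z) =
        ud L z + ∑ i ∈ range n, ud L ((sf L xs)^[i] (sf L xs z)) := by
      rw [sum_range_succ']
      simp only [Function.iterate_zero, id_eq]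
      rw [add_comm]
      congr 1
    have q9 : ∑ i ∈ range (m + 1), ud L ((uf L)^[i] (UW (tc x.1, x.2))) =
        ∑ i ∈ range m, ud L ((uf L)^[i] (UW (tc x.1, x.2))) + ud L z := by
      rw [sum_range_succ, h1]
    by_cases hc : (uf L z).1.1 = xs
    · -- the string is passed
      obtain ⟨j, hj, hIj, hSt⟩ := g3 (uf L z).1.2 (Prod.ext hc rfl)
      have hIj' : In (tc j) := by rw [hj]; exact hIj
      rcases uf_col L z with u1 | ⟨u1, u2⟩ | ⟨u1, u2⟩
      · exact absurd (u1.symm.trans hc) g1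
      · have e1 : uf L z = (tc j, .W) := by
          refine Prod.ext ?_ u2
          rw [hj]; exact Prod.ext hc rfl
        have e2 : sf L xs z = UW (tc j, .E) := by
          unfold sf
          rw [e1, hj, cs_W]
          rfl
        obtain ⟨b1, b2⟩ := wire_pos T W ho (x' := (j, .W)) (by rw [q1, e1]) fun i hi => (q2 i hi).2
        have h7 := ih (z := sf L xs z) (x := (j, .E)) (m := 0) hIj' e2.symm
          (fun i hi => absurd hi (Nat.not_lt_zero i)) q7 q4 q5 q6
        refine (Chn.right (hCl x (j, .W) (m + 1) ⟨by rw [q1, e1], h0, hIj', q2⟩) b1 hSt h7).cast ?_ ?_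
        · rw [b2, q9, q8, sum_range_zero]; ring
        · have s1 : sd xs z = 0 := by unfold sd; rw [if_neg (by omega)]
          have s2 : sd xs (sf L xs z) = 1 := by
            rw [e2, hj]
            unfold sd UW
            rw [if_pos (by simp only; omega)]
          rw [s1, s2]; ring
      · have e1 : uf L z = (tc j, .E) := by
          refine Prod.ext ?_ u2
          rw [hj]; exact Prod.ext hc rfl
        have e2 : sf L xs z = UW (tc j, .W) := by
          unfold sf
          rw [e1, hj, cs_E]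
          rfl
        obtain ⟨b1, b2⟩ := wire_pos T W ho (x' := (j, .E)) (by rw [q1, e1]) fun i hi => (q2 i hi).2
        have h7 := ih (z := sf L xs z) (x := (j, .W)) (m := 0) hIj' e2.symm
          (fun i hi => absurd hi (Nat.not_lt_zero i)) q7 q4 q5 q6
        refine (Chn.left (hCl x (j, .E) (m + 1) ⟨by rw [q1, e1], h0, hIj', q2⟩) b1 hSt h7).cast ?_ ?_
        · rw [b2, q9, q8, sum_range_zero]; ring
        · have s1 : sd xs z = 1 := by unfold sd; rw [if_pos (by omega)]
          have s2 : sd xs (sf L xs z) = 0 := by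
            rw [e2, hj]
            unfold sd UW
            rw [if_neg (by simp only; omega)]
          rw [s1, s2]; ring
    · have e1 : sf L xs z = uf L z := by unfold sf; exact cs_ne hc
      have h7 := ih (z := sf L xs z) (x := x) (m := m + 1) h0 (by rw [q1, e1]) q2 q7 q4 q5 q6
      refine h7.cast ?_ ?_
      · rw [q9, q8]; ring
      · have s1 : sd xs (sf L xs z) = sd xs z := by
          rw [e1]
          unfold sd
          rcases uf_col L z with u1 | ⟨u1, -⟩ | ⟨u1, -⟩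
          · rw [u1]
          · rw [u1] at hc ⊢
            by_cases h8 : xs < z.1.1
            · rw [if_pos h8, if_pos (by omega)]
            · rw [if_neg h8, if_neg (by omega)]
          · rw [u1] at hc ⊢
            by_cases h8 : xs < z.1.1
            · rw [if_pos h8, if_pos (by omega)]
            · rw [if_neg h8, if_neg (by omega)]
        rw [s1]

end Pool.Agent.H40.W
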