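import Mathlib
import Pool.Agent.H40.W.ChnZ

set_option autoImplicit false
open Finset

/-! # The upper side of a row with a straight string above the column `c0`, any region

`UpH L c0 x0 y0 M` : a region `Rg` above the row, the noncrossing matching `U` of the columns outside `Ex`, the
paths of the step map `sf` which passes the column of the string straight; the string has `M` tiles, above it
there is at most one row of the region, its tiles next to the exit are frozen (`CeilW`).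
`UpH.up_chn` : the columns `c ∉ F.Ex` are joined to `(F.U c, N)` by a chain of wires, turning
`-2 dir c (U c)`. `UpH.of_match` : from a noncrossing matching of the ports of the region. -/

namespace Pool.Agent.H40.W

open Pool.Agent.H75.Perc Pool.Agent.H75.TwoArm Pool.Agent.Q1 Pool.Agent.H81.G1
open Pool.Agent.H30.Mid
open Pool.Agent.H69.M6b (lbt lbt_inj lbt_odd pr0 PR TD tt Tile4 Grid sdP innS outS KS RR fwd)
open Pool.Agent.Q1.M6b.Meander (dir dir_lt dir_gt)

variable {N : ℕ}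

/-- the frozen row above the string: constant colour on both sides of the exit `(xs, yw)` -/
def CeilZ (L : Finset (ℤ × ℤ)) (xs yw lo hi : ℤ) : Prop :=
  ∀ x, lo ≤ x → x < hi → x ≠ xs →
    (us L (x, yw) = false ↔ (x < xs ∧ 2 ∣ xs - x) ∨ (xs < x ∧ ¬ 2 ∣ x - xs))

/-- the frozen row above the string: the tiles of the region next to the exit `(xs, yw)` turn the strands
from below away from the exit -/
def CeilW (L : Finset (ℤ × ℤ)) (Rg : ℤ × ℤ → Prop) (xs yw : ℤ) : Prop :=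
  (Rg (xs - 1, yw) → us L (xs - 1, yw) = true) ∧ (Rg (xs + 1, yw) → us L (xs + 1, yw) = false)

/-- constant colours on both sides of the exit are enough -/
lemma CeilZ.weak {L : Finset (ℤ × ℤ)} {Rg : ℤ × ℤ → Prop} {xs yw lo hi : ℤ} (hC : CeilZ L xs yw lo hi)
    (hb : ∀ u, Rg u → lo ≤ u.1 ∧ u.1 < hi) : CeilW L Rg xs yw := by
  constructor
  · intro h
    have h1 := hb _ h
    have h2 := hC (xs - 1) h1.1 h1.2 (by omega)
    cases hu : us L (xs - 1, yw)
    · exfalso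
      have := h2.1 hu
      omega
    · rfl
  · intro h
    have h1 := hb _ h
    exact (hC (xs + 1) h1.1 h1.2 (by omega)).2 (by omega)

/-- in the frozen row the next tile is not the exit -/
lemma ceil_step {L : Finset (ℤ × ℤ)} {Rg : ℤ × ℤ → Prop} {xs yw : ℤ} (hC : CeilW L Rg xs yw)
    {z : (ℤ × ℤ) × Dir} (h1 : Rg z.1) (h2 : z.1.1 ≠ xs) (h3 : z.1.2 = yw) (h4 : z.2 ≠ .N) :
    (uf L z).1.1 ≠ xs := by
  obtain ⟨⟨x, y⟩, d⟩ := z
  simp only at h1 h2 h3 h4
  subst h3
  intro he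
  have key : (x = xs - 1 ∧ Dir.mate (us L (x, y)) d = .E) ∨
      (x = xs + 1 ∧ Dir.mate (us L (x, y)) d = .W) := by
    revert he
    unfold uf UW
    cases Dir.mate (us L ((x, y), d).1) ((x, y), d).2 <;> simp only <;> intro he
    · exact Or.inr ⟨by omega, by simp⟩
    · exact absurd he h2
    · exact Or.inl ⟨by omega, by simp⟩
    · exact absurd he h2
  rcases key with ⟨e, k⟩ | ⟨e, k⟩
  · subst e
    rw [hC.1 h1] at k
    cases d <;> first | exact h4 rfl | cases k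
  · subst e
    rw [hC.2 h1] at k
    cases d <;> first | exact h4 rfl | cases k

/-- the top row is not entered from above -/
lemma row_step {L : Finset (ℤ × ℤ)} {xs yw : ℤ} {z : (ℤ × ℤ) × Dir} (h1 : z.1.2 ≤ yw)
    (h2 : (sf L xs z).1.2 = yw) : (sf L xs z).2 ≠ .N := by
  have key : ∀ v : (ℤ × ℤ) × Dir, v.1.2 ≤ yw → (cs xs (UW v)).1.2 = yw → (cs xs (UW v)).2 ≠ .N := by
    rintro ⟨⟨a, b⟩, e⟩ k1 k3
    simp only at k1
    cases e
    · show (cs xs ((a - 1, b), .E)).2 ≠ _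
      unfold cs; split_ifs <;> simp
    · show (cs xs ((a, b + 1), .S)).2 ≠ _
      rw [cs_S]; simp
    · show (cs xs ((a + 1, b), .W)).2 ≠ _
      unfold cs; split_ifs <;> simp
    · exfalso
      have k4 : (cs xs ((a, b - 1), .N)).1.2 = yw := k3
      rw [cs_N] at k4
      simp only at k4
      omega
  exact key (z.1, Dir.mate (us L z.1) z.2) h1 h2

/-- crossings of the string between two columns -/
def crz (c0 c c' : Fin N) : ℤ := (if c0 < c' then 1 else 0) - (if c0 < c then 1 else 0)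

lemma uf_row {L : Finset (ℤ × ℤ)} {z : (ℤ × ℤ) × Dir} (h : (uf L z).1.1 ≠ z.1.1) :
    (uf L z).1.2 = z.1.2 := by
  rcases uf_col L z with u | u | u
  · exact absurd u h
  · obtain ⟨-, u2⟩ := u
    revert u2
    unfold uf UW
    cases Dir.mate (us L z.1) z.2 <;> simp
  · obtain ⟨-, u2⟩ := u
    revert u2
    unfold uf UW
    cases Dir.mate (us L z.1) z.2 <;> simp

/-- **The upper side of a row with a string above the column `c0`.** -/
structure UpH (L : Finset (ℤ × ℤ)) (c0 : Fin N) (x0 y0 : ℤ) (M : ℕ) where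
  Rg : ℤ × ℤ → Prop
  Ex : Finset (Fin N)
  U : Fin N → Fin N
  side : SideZ c0 Ex U
  path : ∀ c, c ∉ Ex → PR (sf L (x0 + (c0 : ℕ))) (ud L) {z | Rg z.1} ((x0 + (c : ℕ), y0 + 1), .S)
    ((x0 + ((U c : Fin N) : ℕ), y0), .N) (-2 * dir c (U c))
  ne : ∀ u, Rg u → u.1 ≠ x0 + (c0 : ℕ)
  row : ∀ u, Rg u → u.2 = y0 → u.1 < x0 ∨ x0 + N ≤ u.1
  adj : ∀ u, Rg u → (u.1 = x0 + (c0 : ℕ) + 1 ∨ u.1 = x0 + (c0 : ℕ) - 1) → y0 + 1 ≤ u.2
  top : (∀ u, Rg u → u.2 < y0 + 1 + M) ∨
    ((∀ u, Rg u → u.2 ≤ y0 + 1 + M) ∧ CeilW L Rg (x0 + (c0 : ℕ)) (y0 + 1 + M))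

namespace UpH

variable {L : Finset (ℤ × ℤ)} {c0 : Fin N} {x0 y0 : ℤ} {M : ℕ} {F : UpH L c0 x0 y0 M}
variable {ι : Type*} [Fintype ι] [DecidableEq ι]
variable {tc : ι → ℤ × ℤ} {lb : ι → ℤ × ℤ} {p : ι → Bool} {cr : ι × Dir → ℤ × ℤ} {X2 : Env}
  {Nw : Net ι} {n0 : ℕ} {St : ι → Prop}

/-- **The columns above the row** are joined by chains of wires which pass the string straight. `r c` : the
tile of the column `c` of the row. -/
theorem up_chn (T : PT tc lb p cr) (W : Wired X2 lb p cr Nw n0) (ho : OutL X2 L) {r : Fin N → ι}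
    (hr : ∀ c, tc (r c) = (x0 + (c : ℕ), y0))
    (hst : ∀ y, y0 + 1 ≤ y → y < y0 + 1 + M → ∃ j, tc j = (x0 + (c0 : ℕ), y) ∧ St j)
    (hreg : ∀ u, F.Rg u → lbt u.1 u.2 ∉ X2.E)
    {In : ℤ × ℤ → Prop} (hI : ∀ u, F.Rg u → In u) (hIr : ∀ c : Fin N, In (x0 + (c : ℕ), y0))
    (hIs : ∀ y, y0 + 1 ≤ y → y < y0 + 1 + M → In (x0 + (c0 : ℕ), y))
    {Cl : ι × Dir → Prop} (hCl : ∀ x x' n, WP tc X2 L In x x' n → Cl x)
    {c : Fin N} (hc : c ∉ F.Ex) :
    Chn Nw St Cl (r c, .N) (r (F.U c), .N) (-2 * dir c (F.U c)) (crz c0 c (F.U c)) := by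
  have hS := F.side
  have hcc : c ≠ c0 := fun h => hc (h ▸ hS.zero)
  have hUc : F.U c ≠ c0 := fun h => hS.mem c hc (by rw [h]; exact hS.zero)
  obtain ⟨n, h1, h2, h3⟩ := F.path c hc
  have ne0 : ∀ {c : Fin N}, c ≠ c0 → x0 + ((c : ℕ) : ℤ) ≠ x0 + ((c0 : ℕ) : ℤ) := by
    intro c hc h
    exact hc (Fin.ext (by omega))
  have hz : (uf L)^[0] (UW (tc (r c, Dir.N).1, (r c, Dir.N).2)) = ((x0 + (c : ℕ), y0 + 1), .S) := by
    show UW (tc (r c), .N) = _
    rw [hr]; rfl
  have hb : ∀ i < n, F.Rg ((sf L (x0 + (c0 : ℕ)))^[i] ((x0 + (c : ℕ), y0 + 1), Dir.S)).1 :=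
    fun i hi => h2 i hi
  have h4 : ∀ i < n, ((sf L (x0 + (c0 : ℕ)))^[i] ((x0 + (c : ℕ), y0 + 1), Dir.S)).1.1 ≠
      x0 + (c0 : ℕ) := fun i hi => F.ne _ (hb i hi)
  -- the passage is through a tile of the string
  have hrow : ∀ i < n, (uf L ((sf L (x0 + (c0 : ℕ)))^[i] ((x0 + (c : ℕ), y0 + 1), Dir.S))).1.1 =
      x0 + (c0 : ℕ) →
      ((sf L (x0 + (c0 : ℕ)))^[i] ((x0 + (c : ℕ), y0 + 1), Dir.S)).1.2 < y0 + 1 + M := by
    intro i hi he
    rcases F.top with e | ⟨e, hC⟩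
    · exact e _ (hb i hi)
    · have good : ∀ i < n, ((sf L (x0 + (c0 : ℕ)))^[i] ((x0 + (c : ℕ), y0 + 1), Dir.S)).1.2 =
          y0 + 1 + M → ((sf L (x0 + (c0 : ℕ)))^[i] ((x0 + (c : ℕ), y0 + 1), Dir.S)).2 ≠ .N := by
        intro i
        cases i with
        | zero => intro _ _; simp only [Function.iterate_zero, id]; decide
        | succ i =>
          intro hi
          rw [Function.iterate_succ_apply']
          exact row_step (e _ (hb i (by omega)))
      rcases lt_or_eq_of_le (e _ (hb i hi)) with h6 | h6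
      · exact h6
      · exact absurd he (ceil_step hC (hb i hi) (F.ne _ (hb i hi)) h6 (good i hi h6))
  have key := chn_of_path (L := L) (xs := x0 + (c0 : ℕ)) (St := St) T W ho (In := In) hCl
    (x' := (r (F.U c), .N)) (by rw [hr]; exact hIr _)
    (n := n) (z := ((x0 + (c : ℕ), y0 + 1), .S)) (x := (r c, .N)) (m := 0) (by rw [hr]; exact hIr _) hz
    (fun i hi => absurd hi (Nat.not_lt_zero i)) (ne0 hcc) (by rw [h1, hr]) (by
      intro i hi
      have h5 := hb i hi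
      refine ⟨⟨F.ne _ h5, hI _ h5⟩, hreg _ h5, fun y hy => ?_⟩
      have h7 := uf_row (L := L) (z := (sf L (x0 + (c0 : ℕ)))^[i] ((x0 + (c : ℕ), y0 + 1), Dir.S))
        (by rw [hy]; exact fun h => F.ne _ h5 h.symm)
      have h9 := hrow i hi (by rw [hy])
      have h8 : y0 + 1 ≤ ((sf L (x0 + (c0 : ℕ)))^[i] ((x0 + (c : ℕ), y0 + 1), Dir.S)).1.2 := by
        refine F.adj _ h5 ?_
        rcases uf_col L ((sf L (x0 + (c0 : ℕ)))^[i] ((x0 + (c : ℕ), y0 + 1), Dir.S)) with u | u | u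
        · rw [hy] at u
          exact absurd u.symm (F.ne _ h5)
        · have := u.1
          rw [hy] at this
          right
          simp only at this
          omega
        · have := u.1
          rw [hy] at this
          left
          simp only at this
          omega
      rw [← h7, hy] at h8 h9
      obtain ⟨j, j1, j2⟩ := hst y h8 h9
      exact ⟨j, j1, hIs y h8 h9, j2⟩) (by
      intro i hi
      rcases Nat.lt_or_eq_of_le hi with h5 | h5
      · exact h4 i h5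
      · rw [h5, h1]; exact ne0 hUc)
  refine key.cast ?_ ?_
  · rw [sum_range_zero, zero_add, ← h3]
  · unfold crz sd
    rw [hr]
    simp only [Fin.lt_def]
    congr 1
    · by_cases h5 : (c0 : ℕ) < ((F.U c : Fin N) : ℕ)
      · rw [if_pos (by omega), if_pos h5]
      · rw [if_neg (by omega), if_neg h5]
    · by_cases h5 : (c0 : ℕ) < (c : ℕ)
      · rw [if_pos (by omega), if_pos h5]
      · rw [if_neg (by omega), if_neg h5]

end UpH

/-- **The matching of the columns from the ports of a region**: the column `c ≠ c0` is the port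
`prz c0 p0 c`. -/
lemma path_of_match {L : Finset (ℤ × ℤ)} {c0 : Fin N} {x0 y0 : ℤ} {Rg : ℤ × ℤ → Prop} {m p0 : ℕ}
    {inn out : ℕ → (ℤ × ℤ) × Dir} {th : ℕ → ℤ} {M : ℕ → ℕ}
    (hinv : ∀ k < m, M (M k) = k) (hne : ∀ k < m, M k ≠ k)
    (hnc : ∀ k < m, ∀ l < m, l ≠ k → l ≠ M k → ((l < k ↔ l < M k) ↔ (M l < k ↔ M l < M k)))
    (hpath : ∀ k < m, PR (sf L (x0 + (c0 : ℕ))) (ud L) {z | Rg z.1} (inn k) (out (M k))
      (th (M k) - th k + (if k < M k then -2 else 2)))
    (hlt : p0 + N ≤ m + 1)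
    (hin : ∀ c, c ≠ c0 → inn (prz c0 p0 c) = ((x0 + (c : ℕ), y0 + 1), .S))
    (hout : ∀ c, c ≠ c0 → out (prz c0 p0 c) = ((x0 + (c : ℕ), y0), .N))
    (hth : ∀ c, c ≠ c0 → th (prz c0 p0 c) = 1) {c : Fin N} (hc : c ∉ excz c0 M p0) :
    PR (sf L (x0 + (c0 : ℕ))) (ud L) {z | Rg z.1} ((x0 + (c : ℕ), y0 + 1), .S)
      ((x0 + ((mtz c0 M p0 c : Fin N) : ℕ), y0), .N) (-2 * dir c (mtz c0 M p0 c)) := by
  obtain ⟨h1, h2, h3⟩ := not_excz hc
  have hS := sideZ_of' (c0 := c0) hinv hne hnc hlt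
  have hk : prz c0 p0 c < m := by
    have := c.2
    have := c0.2
    rcases prz_cases (p0 := p0) h1 with h4 | h4 <;> omega
  have key := hpath _ hk
  rw [h3, hin c h1, hout _ h2, hth c h1, hth _ h2] at key
  suffices e : (1 : ℤ) - 1 + (if prz c0 p0 c < prz c0 p0 (mtz c0 M p0 c) then -2 else 2) =
      -2 * dir c (mtz c0 M p0 c) by
    rw [e] at key; exact key
  rcases lt_or_gt_of_ne (hS.ne c hc).symm with h4 | h4
  · rw [dir_lt h4, if_pos ((prz_mono h1 h2).2 h4)]; ring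
  · have h5 := (prz_mono (p0 := p0) h2 h1).2 h4
    rw [dir_gt h4, if_neg (by omega)]; ring

end Pool.Agent.H40.W
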