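import Mathlib
import Pool.Agent.H40.W.UpH

set_option autoImplicit false
open Finset

/-! # The rectangle above the row without the string column

`HalfZ L c0 x0 y0` : the rectangle above the row, the matching of the ports of the rectangle without the
column of the string. `HalfZ.upH` : it is an upper side `UpH`. -/

namespace Pool.Agent.H40.W

open Pool.Agent.H75.Perc Pool.Agent.H75.TwoArm Pool.Agent.Q1 Pool.Agent.H81.G1
open Pool.Agent.H30.Mid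
open Pool.Agent.H69.M6b (lbt lbt_inj lbt_odd pr0 PR TD tt Tile4 Grid sdP innS outS KS RR fwd)
open Pool.Agent.Q1.M6b.Meander (dir dir_lt dir_gt)

variable {N : ℕ}

/-- tiles of the rectangle outside the column of the string -/
def InZ (x0 y0 xs : ℤ) (o w h : ℕ) (u : ℤ × ℤ) : Prop :=
  (x0 - o ≤ u.1 ∧ u.1 < x0 - o + w) ∧ (y0 + 1 ≤ u.2 ∧ u.2 < y0 + 1 + h) ∧ u.1 ≠ xs

/-- **The rectangle above the row without the column of the string.** -/
structure HalfZ (L : Finset (ℤ × ℤ)) (c0 : Fin N) (x0 y0 : ℤ) where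
  o : ℕ
  w : ℕ
  h : ℕ
  le : o + N ≤ w
  pos : 0 < h
  M : ℕ → ℕ
  T : TD (sf L ((x0 - o) + (o + (c0 : ℕ)))) (ud L)
    (RR (w - 1) h (vRz (x0 - o) (y0 + 1) (o + (c0 : ℕ))) (vLz (x0 - o) (y0 + 1) (o + (c0 : ℕ)))
      (hUz (x0 - o) (y0 + 1) (o + (c0 : ℕ))) (hDz (x0 - o) (y0 + 1) (o + (c0 : ℕ)))) (h + (w - 1))
    (innS (vRz (x0 - o) (y0 + 1) (o + (c0 : ℕ))) (vLz (x0 - o) (y0 + 1) (o + (c0 : ℕ)))
      (hUz (x0 - o) (y0 + 1) (o + (c0 : ℕ))) (hDz (x0 - o) (y0 + 1) (o + (c0 : ℕ))) (h + (w - 1))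
      (sdP (w - 1) h))
    (outS (vRz (x0 - o) (y0 + 1) (o + (c0 : ℕ))) (vLz (x0 - o) (y0 + 1) (o + (c0 : ℕ)))
      (hUz (x0 - o) (y0 + 1) (o + (c0 : ℕ))) (hDz (x0 - o) (y0 + 1) (o + (c0 : ℕ))) (h + (w - 1))
      (sdP (w - 1) h)) (KS (sdP (w - 1) h)) M

/-- the half exists for every set of open labels and every rectangle -/
theorem exists_halfZ (L : Finset (ℤ × ℤ)) (c0 : Fin N) (x0 y0 : ℤ) {o w h : ℕ} (hw : o + N ≤ w)
    (hh : 0 < h) : ∃ F : HalfZ L c0 x0 y0, F.o = o ∧ F.w = w ∧ F.h = h := by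
  obtain ⟨M, hM⟩ := strTD L (x0 - o) (y0 + 1) (o + (c0 : ℕ)) (w - 1) hh
  exact ⟨⟨o, w, h, hw, hh, M, hM⟩, rfl, rfl, rfl⟩

namespace HalfZ

variable {L : Finset (ℤ × ℤ)} {c0 : Fin N} {x0 y0 : ℤ} (F : HalfZ L c0 x0 y0)

/-- exceptional columns -/
noncomputable def Ex : Finset (Fin N) := excz c0 F.M (F.h + F.o)

/-- partner -/
noncomputable def U : Fin N → Fin N := mtz c0 F.M (F.h + F.o)

lemma side : SideZ c0 F.Ex F.U := by
  have := F.le
  exact sideZ_of F.T (by omega)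

lemma prz_bd {c : Fin N} (hc : c ≠ c0) : F.h ≤ prz c0 (F.h + F.o) c ∧
    prz c0 (F.h + F.o) c < F.h + (F.w - 1) := by
  have h1 := c.2
  have h2 := c0.2
  have h3 := F.le
  rcases prz_cases (p0 := F.h + F.o) hc with h4 | h4 <;> omega

/-- the column of a port -/
lemma rx_prz {c : Fin N} (hc : c ≠ c0) :
    rx (x0 - F.o) (F.o + (c0 : ℕ)) ((prz c0 (F.h + F.o) c - F.h : ℕ) : ℤ) = x0 + (c : ℕ) := by
  rcases prz_cases (p0 := F.h + F.o) hc with ⟨h1, h2⟩ | ⟨h1, h2⟩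
  · rw [rx_lt (by omega)]; omega
  · rw [rx_ge (by omega)]; omega

lemma sdP_prz {c : Fin N} (hc : c ≠ c0) : sdP (F.w - 1) F.h (prz c0 (F.h + F.o) c) =
    (false, prz c0 (F.h + F.o) c - F.h, 0) := by
  obtain ⟨h1, h2⟩ := F.prz_bd hc
  unfold sdP
  rw [if_neg (by omega), if_pos h2]

lemma inn_prz {c : Fin N} (hc : c ≠ c0) :
    innS (vRz (x0 - F.o) (y0 + 1) (F.o + (c0 : ℕ))) (vLz (x0 - F.o) (y0 + 1) (F.o + (c0 : ℕ)))
      (hUz (x0 - F.o) (y0 + 1) (F.o + (c0 : ℕ))) (hDz (x0 - F.o) (y0 + 1) (F.o + (c0 : ℕ)))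
      (F.h + (F.w - 1)) (sdP (F.w - 1) F.h) (prz c0 (F.h + F.o) c) =
    ((x0 + (c : ℕ), y0 + 1), .S) := by
  unfold innS
  rw [if_pos (F.prz_bd hc).2, F.sdP_prz hc]
  show hUz (x0 - F.o) (y0 + 1) (F.o + (c0 : ℕ)) (prz c0 (F.h + F.o) c - F.h) 0 = _
  unfold hUz
  rw [F.rx_prz hc]
  refine Prod.ext (Prod.ext rfl ?_) rfl
  simp

lemma out_prz {c : Fin N} (hc : c ≠ c0) :
    outS (vRz (x0 - F.o) (y0 + 1) (F.o + (c0 : ℕ))) (vLz (x0 - F.o) (y0 + 1) (F.o + (c0 : ℕ)))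
      (hUz (x0 - F.o) (y0 + 1) (F.o + (c0 : ℕ))) (hDz (x0 - F.o) (y0 + 1) (F.o + (c0 : ℕ)))
      (F.h + (F.w - 1)) (sdP (F.w - 1) F.h) (prz c0 (F.h + F.o) c) =
    ((x0 + (c : ℕ), y0), .N) := by
  unfold outS
  rw [if_pos (F.prz_bd hc).2, F.sdP_prz hc]
  show hDz (x0 - F.o) (y0 + 1) (F.o + (c0 : ℕ)) (prz c0 (F.h + F.o) c - F.h) 0 = _
  unfold hDz
  rw [F.rx_prz hc]
  refine Prod.ext (Prod.ext rfl ?_) rfl
  simp

lemma tt_prz {c c' : Fin N} (hc : c ≠ c0) (hc' : c' ≠ c0) (hne : c ≠ c') :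
    tt (F.h + (F.w - 1)) (KS (sdP (F.w - 1) F.h)) (prz c0 (F.h + F.o) c) (prz c0 (F.h + F.o) c') =
      -2 * dir c c' := by
  have h1 := F.prz_bd hc
  have h2 := F.prz_bd hc'
  have kk : ∀ {c : Fin N}, c ≠ c0 → KS (sdP (F.w - 1) F.h) (prz c0 (F.h + F.o) c) = 1 := by
    intro c hc
    unfold KS
    rw [F.sdP_prz hc]
    rfl
  unfold tt
  rw [kk hc, kk hc', if_pos (by omega)]
  rcases lt_or_gt_of_ne hne with h3 | h3
  · have := (prz_mono (p0 := F.h + F.o) hc hc').2 h3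
    rw [dir_lt h3, if_pos this]; simp
  · have := (prz_mono (p0 := F.h + F.o) hc' hc).2 h3
    rw [dir_gt h3, if_neg (by omega)]; simp

/-- the path of a column -/
theorem path {c : Fin N} (hc : c ∉ F.Ex) : PR (sf L (x0 + (c0 : ℕ))) (ud L)
    {z | InZ x0 y0 (x0 + (c0 : ℕ)) F.o F.w F.h z.1} ((x0 + (c : ℕ), y0 + 1), .S)
    ((x0 + ((F.U c : Fin N) : ℕ), y0), .N) (-2 * dir c (F.U c)) := by
  obtain ⟨h1, h2, h3⟩ := not_excz (c0 := c0) (M := F.M) (p0 := F.h + F.o) hc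
  have hlt : prz c0 (F.h + F.o) c < 2 * (F.h + (F.w - 1)) := by
    have := F.prz_bd h1; omega
  have key := F.T.path _ hlt
  rw [h3, F.inn_prz h1, F.out_prz h2, F.tt_prz h1 h2 (Ne.symm (F.side.ne c hc))] at key
  have e : (x0 - F.o) + (F.o + ((c0 : ℕ) : ℤ)) = x0 + (c0 : ℕ) := by ring
  rw [e] at key
  refine key.mono ?_
  rintro z ⟨i, hi, j, hj, hz⟩
  have hle := F.le
  have b1 := rx_ne (x0 - F.o) (F.o + ((c0 : ℕ) : ℤ)) (i : ℤ)
  rw [e] at b1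
  have b2 : x0 - F.o ≤ rx (x0 - F.o) (F.o + ((c0 : ℕ) : ℤ)) (i : ℤ) ∧
      rx (x0 - F.o) (F.o + ((c0 : ℕ) : ℤ)) (i : ℤ) < x0 - F.o + F.w := by
    unfold rx; split_ifs <;> omega
  show InZ x0 y0 (x0 + (c0 : ℕ)) F.o F.w F.h z.1
  unfold InZ
  rcases hz with rfl | rfl | rfl | rfl
  · unfold hUz
    simp only
    exact ⟨b2, ⟨by omega, by omega⟩, b1⟩
  · unfold vRz
    simp only
    exact ⟨b2, ⟨by omega, by omega⟩, b1⟩
  · unfold vLz
    simp only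
    rw [show (((i + 1 : ℕ) : ℤ) - 1) = (i : ℤ) by push_cast; ring]
    exact ⟨b2, ⟨by omega, by omega⟩, b1⟩
  · unfold hDz
    simp only
    exact ⟨b2, ⟨by push_cast; omega, by push_cast; omega⟩, b1⟩

/-- the column of a tile of the rectangle -/
abbrev CeilZ := @Pool.Agent.H40.W.CeilZ

/-- **The rectangle is an upper side**, the string has `M` tiles and reaches the top of the rectangle or the row
below the frozen top row. -/
noncomputable def upH {M : ℕ} (hM : F.h = M ∨ (F.h = M + 1 ∧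
    Pool.Agent.H40.W.CeilZ L (x0 + (c0 : ℕ)) (y0 + 1 + M) (x0 - F.o) (x0 - F.o + F.w))) :
    UpH L c0 x0 y0 M where
  Rg := InZ x0 y0 (x0 + (c0 : ℕ)) F.o F.w F.h
  Ex := F.Ex
  U := F.U
  side := F.side
  path := fun _ hc => F.path hc
  ne := fun _ h => h.2.2
  row := fun _ h e => by have := h.2.1; omega
  adj := fun _ h _ => h.2.1.1
  top := by
    rcases hM with e | ⟨e, hC⟩
    · left
      intro u hu
      have := hu.2.1.2
      rw [e] at this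
      exact this
    · right
      refine ⟨fun u hu => ?_, hC.weak fun _ h => h.1⟩
      have := hu.2.1.2
      rw [e] at this
      push_cast at this
      omega

end HalfZ

end Pool.Agent.H40.W
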