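import Mathlib
import Pool.Agent.H40.W.UpZ
import Pool.Agent.H30.W.RowE

set_option autoImplicit false
open Finset

/-! # The wires below the row, along the row and along the string

`PT.of_gp` : the families of tiles of `H30.W.AG`. `adj_wire` : neighbouring ends are joined by a wire. `HalfD` :
the rectangle below the row; `HalfD.dn_wire`. `OutR` : the root corner and the target corner lie outside the
region; `OutR.ne` : no wire of the region is the root wire or the mark wire. -/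

namespace Pool.Agent.H40.W

open Pool.Agent.H75.Perc Pool.Agent.H75.TwoArm Pool.Agent.Q1 Pool.Agent.H81.G1
open Pool.Agent.H30.Mid
open Pool.Agent.H69.M6b (lbt lbt_inj lbt_odd pr0 PR TD tt Tile4 Grid sdP innS outS KS RR fwd se Kp Bx')
open Pool.Agent.Q1.M6b.Meander (dir dir_lt dir_gt)

section

variable {ι : Type*}

/-- the families of tiles of `AG` -/
lemma PT.of_gp {tc : ι → ℤ × ℤ} {lb : ι → ℤ × ℤ} (h : ∀ i, lb i = lbt (tc i).1 (tc i).2) :
    PT tc lb (Pool.Agent.H30.W.gp lb) (Pool.Agent.H30.W.gcr lb) := by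
  refine ⟨h, fun i => rfl, fun x => ?_⟩
  obtain ⟨i, d⟩ := x
  unfold Pool.Agent.H30.W.gcr uc
  rw [h]
  cases d <;> rfl

variable [Fintype ι] [DecidableEq ι]
variable {tc : ι → ℤ × ℤ} {lb : ι → ℤ × ℤ} {p : ι → Bool} {cr : ι × Dir → ℤ × ℤ} {X2 : Env}
  {Nw : Net ι} {n0 : ℕ} {L : Finset (ℤ × ℤ)}

/-- a path in the region is a wire -/
lemma WP.wire (T : PT tc lb p cr) (W : Wired X2 lb p cr Nw n0) (ho : OutL X2 L)
    {In : ℤ × ℤ → Prop} {x x' : ι × Dir} {n : ℕ} (h : WP tc X2 L In x x' n) : Nw.π x = x' :=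
  (wire_pos T W ho h.1 fun i hi => (h.2.2.2 i hi).2).1

/-- **Neighbouring ends are joined by a wire.** -/
lemma adj_wire (T : PT tc lb p cr) (W : Wired X2 lb p cr Nw n0) (ho : OutL X2 L) {x x' : ι × Dir}
    (h : UW (tc x.1, x.2) = (tc x'.1, x'.2)) : Nw.π x = x' ∧ Nw.t x = 0 := by
  have h1 := wire_pos T W ho (x := x) (x' := x') (n := 0) h fun i hi => absurd hi (Nat.not_lt_zero i)
  rwa [sum_range_zero] at h1

omit [Fintype ι] [DecidableEq ι] in
lemma adj_WP {In : ℤ × ℤ → Prop} {x x' : ι × Dir} (h : UW (tc x.1, x.2) = (tc x'.1, x'.2))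
    (h1 : In (tc x.1)) (h2 : In (tc x'.1)) : WP tc X2 L In x x' 0 :=
  ⟨h, h1, h2, fun i hi => absurd hi (Nat.not_lt_zero i)⟩

/-- the root corner and the target corner `ct` lie outside the region -/
structure OutR (X2 : Env) (cr : ι × Dir → ℤ × ℤ) (Nw : Net ι) (In : ℤ × ℤ → Prop) (ct : ℤ × ℤ)
    (n1 : ℕ) : Prop where
  root : ∀ u, In u → plab X2.c0 ≠ lbt u.1 u.2
  tgt : ∀ u, In u → plab ct ≠ lbt u.1 u.2
  mark : ∀ i < n1, lab (X2.out^[i] ct) ∉ X2.E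
  eq : cr Nw.y0 = X2.out^[n1] ct

/-- **The wires of the region are not the root wire and not the mark wire.** -/
theorem OutR.ne {In : ℤ × ℤ → Prop} {ct : ℤ × ℤ} {n1 : ℕ} (R : OutR X2 cr Nw In ct n1)
    (T : PT tc lb p cr) (W : Wired X2 lb p cr Nw n0) (ho : OutL X2 L)
    {x x' : ι × Dir} {n : ℕ} (h : WP tc X2 L In x x' n) :
    x ≠ Nw.x0 ∧ x ≠ Nw.π Nw.x0 ∧ x ≠ Nw.y0 ∧ x ≠ Nw.π Nw.y0 := by
  have hw := h.wire T W ho
  obtain ⟨a1, a2⟩ := not_first T W ho h W.good.x0_in W.root.1 W.root.2 R.root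
  obtain ⟨b1, b2⟩ := not_first T W ho h W.good.y0_in R.mark R.eq R.tgt
  refine ⟨Ne.symm a1, fun e => a2 ?_, Ne.symm b1, fun e => b2 ?_⟩
  · rw [← hw, e, W.good.inv]
  · rw [← hw, e, W.good.inv]

end

variable {N : ℕ}

/-- **The rectangle below the row.** -/
structure HalfD (L : Finset (ℤ × ℤ)) (N : ℕ) (x0 y0 : ℤ) where
  o : ℕ
  w : ℕ
  h : ℕ
  le : o + N ≤ w
  pos : 0 < h
  M : ℕ → ℕ
  T : TD (uf L) (ud L) (Bx' (TT (x0 - o) (y0 - h)) w 0 h) (h + w)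
    (se (TT (x0 - o) (y0 - h)) w h) (fun k => UW (se (TT (x0 - o) (y0 - h)) w h k)) (Kp w h) M

/-- the half exists for every set of open labels and every rectangle -/
theorem exists_halfD (L : Finset (ℤ × ℤ)) (x0 y0 : ℤ) {o w h : ℕ} (hw : o + N ≤ w) (hN : 0 < N)
    (hh : 0 < h) : ∃ F : HalfD L N x0 y0, F.o = o ∧ F.w = w ∧ F.h = h := by
  obtain ⟨M, hM⟩ := rectTD L (x0 - o) (y0 - h) (by omega : 0 < w) hh
  exact ⟨⟨o, w, h, hw, hh, M, hM⟩, rfl, rfl, rfl⟩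

/-- tiles of the rectangle below the row -/
def InD (x0 y0 : ℤ) (o w h : ℕ) (u : ℤ × ℤ) : Prop :=
  (x0 - o ≤ u.1 ∧ u.1 < x0 - o + w) ∧ (y0 - h ≤ u.2 ∧ u.2 < y0)

namespace HalfD

variable {L : Finset (ℤ × ℤ)} {x0 y0 : ℤ} (F : HalfD L N x0 y0)

/-- exceptional columns -/
noncomputable def Ex : Finset (Fin N) := exc N F.M false (2 * (F.h + F.w) - 1 - F.o)

/-- partner -/
noncomputable def D : Fin N → Fin N := mt N F.M false (2 * (F.h + F.w) - 1 - F.o)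

lemma side : Side F.Ex F.D := sideD F.le F.pos F.T

/-- the path of a column -/
theorem path {c : Fin N} (hc : c ∉ F.Ex) : PR (uf L) (ud L) {z | InD x0 y0 F.o F.w F.h z.1}
    ((x0 + (c : ℕ), y0 - 1), .N) ((x0 + ((F.D c : Fin N) : ℕ), y0), .S) (2 * dir c (F.D c)) := by
  have hcN := c.2
  have hle := F.le
  have hk : prt false (2 * (F.h + F.w) - 1 - F.o) c < 2 * (F.h + F.w) := by
    have e : prt false (2 * (F.h + F.w) - 1 - F.o) c = 2 * (F.h + F.w) - 1 - F.o - c := rfl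
    omega
  have hn := F.T.path _ hk
  have hne : c ≠ F.D c := (F.side.ne c hc).symm
  have e0 : F.M (prt false (2 * (F.h + F.w) - 1 - F.o) c) =
      prt false (2 * (F.h + F.w) - 1 - F.o) (F.D c) := not_exc hc
  rw [e0, se_dn c F.le F.pos, tt_dn hne F.le] at hn
  simp only [se_dn (F.D c) F.le F.pos] at hn
  have e1 : UW ((x0 + ((F.D c : Fin N) : ℕ), y0 - 1), Dir.N) =
      ((x0 + ((F.D c : Fin N) : ℕ), y0), Dir.S) := by
    unfold UW
    refine Prod.ext (Prod.ext rfl ?_) rfl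
    simp
  rw [e1] at hn
  refine hn.mono ?_
  rintro z ⟨i, hi, j, -, hj, e⟩
  show InD x0 y0 F.o F.w F.h z.1
  unfold InD
  rw [e]
  unfold TT
  simp only
  omega

variable {F}
variable {ι : Type*} [Fintype ι] [DecidableEq ι]
variable {tc : ι → ℤ × ℤ} {lb : ι → ℤ × ℤ} {p : ι → Bool} {cr : ι × Dir → ℤ × ℤ} {X2 : Env}
  {Nw : Net ι} {n0 : ℕ}

/-- **The columns below the row.** `r c` : the tile of the column `c` of the row. -/
theorem dn_wire (T : PT tc lb p cr) (W : Wired X2 lb p cr Nw n0) (ho : OutL X2 L) {r : Fin N → ι}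
    (hr : ∀ c, tc (r c) = (x0 + (c : ℕ), y0))
    (hreg : ∀ u, InD x0 y0 F.o F.w F.h u → lbt u.1 u.2 ∉ X2.E)
    {In : ℤ × ℤ → Prop} (hI : ∀ u, InD x0 y0 F.o F.w F.h u → In u)
    (hIr : ∀ c : Fin N, In (x0 + (c : ℕ), y0)) {c : Fin N} (hc : c ∉ F.Ex) :
    Nw.π (r c, .S) = (r (F.D c), .S) ∧ Nw.t (r c, .S) = 2 * dir c (F.D c) ∧
      ∃ n, WP tc X2 L In (r c, .S) (r (F.D c), .S) n := by
  obtain ⟨n, h1, h2, h3⟩ := F.path hc
  have hz : UW (tc (r c), Dir.S) = ((x0 + (c : ℕ), y0 - 1), .N) := by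
    rw [hr]; rfl
  have k1 : (uf L)^[n] (UW (tc (r c, Dir.S).1, (r c, Dir.S).2)) =
      (tc (r (F.D c), Dir.S).1, (r (F.D c), Dir.S).2) := by
    show (uf L)^[n] (UW (tc (r c), Dir.S)) = (tc (r (F.D c)), Dir.S)
    rw [hz, h1, hr]
  have k2 : ∀ i < n, InD x0 y0 F.o F.w F.h ((uf L)^[i] (UW (tc (r c, Dir.S).1, (r c, Dir.S).2))).1 := by
    intro i hi
    show InD x0 y0 F.o F.w F.h ((uf L)^[i] (UW (tc (r c), Dir.S))).1
    rw [hz]
    exact h2 i hi
  obtain ⟨b1, b2⟩ := wire_pos T W ho (x := (r c, Dir.S)) (x' := (r (F.D c), Dir.S)) k1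
    fun i hi => hreg _ (k2 i hi)
  refine ⟨b1, ?_, n, k1, ?_, ?_, fun i hi => ⟨hI _ (k2 i hi), hreg _ (k2 i hi)⟩⟩
  · rw [b2, h3]
    refine sum_congr rfl fun i _ => ?_
    show ud L ((uf L)^[i] (UW (tc (r c), Dir.S))) = _
    rw [hz]
  · show In (tc (r c)); rw [hr]; exact hIr _
  · show In (tc (r (F.D c))); rw [hr]; exact hIr _

end HalfD

end Pool.Agent.H40.W
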