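import Mathlib
import Pool.Agent.H40.W.DnZ

set_option autoImplicit false
open Finset

/-! # The frame of a row with a straight string above the column `c0`

Tiles: the row `(x0 + c, y0)`, `c : Fin N`, and the string `(x0 + c0, y0 + M - i)`, `i : Fin M` (`i = 0`
outermost). `FrameZ` : the region above (`UpH`) and the rectangle below the row
(`HalfD`). The wires of the network of these tiles: `up`, `dn`, `row`, `str`, `str_last`; all of them are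
different from the root wire and from the mark wire. -/

namespace Pool.Agent.H40.W

open Pool.Agent.H75.Perc Pool.Agent.H75.TwoArm Pool.Agent.Q1 Pool.Agent.H81.G1
open Pool.Agent.H30.Mid
open Pool.Agent.H30.W (gp gcr lbE)
open Pool.Agent.H69.M6b (lbt lbt_inj lbt_odd pr0 PR TD tt)
open Pool.Agent.Q1.M6b.Meander (dir dir_lt dir_gt)

variable {N M : ℕ}

/-- positions of the tiles -/
def tcZ (N M : ℕ) (x0 y0 : ℤ) (c0 : Fin N) : Fin N ⊕ Fin M → ℤ × ℤ :=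
  Sum.elim (fun c => (x0 + (c : ℕ), y0)) (fun i => (x0 + (c0 : ℕ), y0 + M - (i : ℕ)))

/-- labels of the string -/
def lsZ (M : ℕ) (x0 y0 : ℤ) (c0 : Fin N) (i : Fin M) : ℤ × ℤ := lbt (x0 + (c0 : ℕ)) (y0 + M - (i : ℕ))

lemma ptZ (N M : ℕ) (x0 y0 : ℤ) (c0 : Fin N) : PT (tcZ N M x0 y0 c0)
    (lbE N x0 y0 (lsZ M x0 y0 c0)) (gp (lbE N x0 y0 (lsZ M x0 y0 c0)))
    (gcr (lbE N x0 y0 (lsZ M x0 y0 c0))) := by
  refine PT.of_gp fun i => ?_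
  rcases i with c | i <;> rfl

/-- the wire is neither the root wire nor the mark wire -/
def NSp {ι : Type*} (Nw : Net ι) (x : ι × Dir) : Prop :=
  x ≠ Nw.x0 ∧ x ≠ Nw.π Nw.x0 ∧ x ≠ Nw.y0 ∧ x ≠ Nw.π Nw.y0

/-- **The frame of a row with a string.** -/
structure FrameZ (L : Finset (ℤ × ℤ)) (M : ℕ) (c0 : Fin N) (x0 y0 : ℤ) where
  u : UpH L c0 x0 y0 M
  d : HalfD L N x0 y0

/-- **Chains to strand paths**: `base`, `west`, `east` are the constructors of `SP` of H56. -/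
theorem Chn.elim {ι : Type*} {Nw : Net ι} {St : ι → Prop} {Cl : ι × Dir → Prop}
    {P : ι × Dir → ι × Dir → ℤ → Prop}
    (base : ∀ x, ¬ St (Nw.π x).1 → Cl x → P x (Nw.π x) (Nw.t x))
    (west : ∀ x y q t, Nw.π x = (q, .W) → St q → Cl x → P (q, .E) y t → P x y (Nw.t x + 4 + t))
    (east : ∀ x y q t, Nw.π x = (q, .E) → St q → Cl x → P (q, .W) y t → P x y (Nw.t x - 4 + t))
    {x x' : ι × Dir} {t k : ℤ} (h : Chn Nw St Cl x x' t k) (hx' : ¬ St x'.1) :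
    P x x' (t + 4 * k) := by
  induction h with
  | last x h0 =>
    have := base x hx' h0
    rwa [mul_zero, add_zero]
  | right h0 h1 h2 h3 ih =>
    have := west _ _ _ _ h1 h2 h0 (ih hx')
    convert this using 1
    ring
  | left h0 h1 h2 h3 ih =>
    have := east _ _ _ _ h1 h2 h0 (ih hx')
    convert this using 1
    ring

/-- the frame exists for every set of open labels -/
theorem exists_frameZ (L : Finset (ℤ × ℤ)) (M : ℕ) (c0 : Fin N) (x0 y0 : ℤ) {o w h o' w' h' : ℕ}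
    (hw : o + N ≤ w) (hh : 0 < h) (hw' : o' + N ≤ w') (hh' : 0 < h')
    (hc : h = M ∨ (h = M + 1 ∧ CeilZ L (x0 + (c0 : ℕ)) (y0 + 1 + M) (x0 - o) (x0 - o + w))) :
    ∃ (H : HalfZ L c0 x0 y0) (F : FrameZ L M c0 x0 y0), (H.o = o ∧ H.w = w ∧ H.h = h) ∧
      (F.u.Rg = InZ x0 y0 (x0 + (c0 : ℕ)) o w h ∧ F.u.Ex = H.Ex ∧ F.u.U = H.U) ∧
      F.d.o = o' ∧ F.d.w = w' ∧ F.d.h = h' := by
  obtain ⟨u, rfl, rfl, rfl⟩ := exists_halfZ L c0 x0 y0 hw hh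
  obtain ⟨d, rfl, rfl, rfl⟩ := exists_halfD (N := N) L x0 y0 hw' (by have := c0.2; omega) hh'
  exact ⟨u, ⟨u.upH hc, d⟩, ⟨rfl, rfl, rfl⟩, ⟨rfl, rfl, rfl⟩, rfl, rfl, rfl⟩

namespace FrameZ

variable {L : Finset (ℤ × ℤ)} {c0 : Fin N} {x0 y0 : ℤ} (F : FrameZ L M c0 x0 y0)

/-- the region: rectangles, row and string -/
def In (v : ℤ × ℤ) : Prop :=
  F.u.Rg v ∨ InD x0 y0 F.d.o F.d.w F.d.h v ∨
    (∃ c : Fin N, v = (x0 + (c : ℕ), y0)) ∨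
    (v.1 = x0 + (c0 : ℕ) ∧ y0 + 1 ≤ v.2 ∧ v.2 < y0 + 1 + M)

lemma In_tc (k : Fin N ⊕ Fin M) : F.In (tcZ N M x0 y0 c0 k) := by
  rcases k with c | i
  · exact Or.inr (Or.inr (Or.inl ⟨c, rfl⟩))
  · refine Or.inr (Or.inr (Or.inr ⟨rfl, ?_, ?_⟩))
    · show y0 + 1 ≤ y0 + M - (i : ℕ)
      have := i.2; omega
    · show y0 + M - ((i : ℕ) : ℤ) < y0 + 1 + M
      omega

variable {F}
variable {X2 : Env} {Nw : Net (Fin N ⊕ Fin M)} {n0 : ℕ} {ct : ℤ × ℤ} {n1 : ℕ}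

/-- the labels of the rectangles are no tiles -/
lemma not_image (hE : X2.E = univ.image (lbE N x0 y0 (lsZ M x0 y0 c0))) {v : ℤ × ℤ}
    (h1 : v.2 = y0 → v.1 < x0 ∨ x0 + N ≤ v.1) (h2 : v.1 ≠ x0 + (c0 : ℕ) ∨ v.2 < y0) :
    lbt v.1 v.2 ∉ X2.E := by
  rw [hE, mem_image]
  rintro ⟨k, -, hk⟩
  rw [(ptZ N M x0 y0 c0).elb k] at hk
  obtain ⟨e1, e2⟩ := lbt_inj hk
  rcases k with c | i
  · have e3 : y0 = v.2 := e2
    have e4 : x0 + ((c : ℕ) : ℤ) = v.1 := e1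
    have := h1 e3.symm
    have := c.2
    omega
  · rcases h2 with h2 | h2
    · exact h2 e1.symm
    · have e3 : y0 + M - ((i : ℕ) : ℤ) = v.2 := e2
      have := i.2
      omega

section

variable (W : Wired X2 (lbE N x0 y0 (lsZ M x0 y0 c0)) (gp (lbE N x0 y0 (lsZ M x0 y0 c0)))
    (gcr (lbE N x0 y0 (lsZ M x0 y0 c0))) Nw n0) (ho : OutL X2 L)
  (hE : X2.E = univ.image (lbE N x0 y0 (lsZ M x0 y0 c0)))
  (R : OutR X2 (gcr (lbE N x0 y0 (lsZ M x0 y0 c0))) Nw F.In ct n1)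

include W ho R

/-- the wires of the region are not special -/
lemma nsp {x x' : (Fin N ⊕ Fin M) × Dir} {n : ℕ} (h : WP (tcZ N M x0 y0 c0) X2 L F.In x x' n) :
    NSp Nw x :=
  R.ne (ptZ N M x0 y0 c0) W ho h

include hE

/-- **Above the row**: the chain of the wires passes the string straight. -/
theorem up {c : Fin N} (hc : c ∉ F.u.Ex) :
    Chn Nw (fun k => ∃ i : Fin M, k = Sum.inr i) (NSp Nw) (Sum.inl c, .N) (Sum.inl (F.u.U c), .N)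
      (-2 * dir c (F.u.U c)) (crz c0 c (F.u.U c)) := by
  refine UpH.up_chn (F := F.u) (ptZ N M x0 y0 c0) W ho (r := Sum.inl) (fun c => rfl) ?_ ?_
    (In := F.In) (fun v hv => Or.inl hv) (fun c => Or.inr (Or.inr (Or.inl ⟨c, rfl⟩)))
    (fun y h1 h2 => Or.inr (Or.inr (Or.inr ⟨rfl, h1, h2⟩))) (fun x x' n h => nsp W ho R h) hc
  · intro y h1 h2
    refine ⟨Sum.inr ⟨(y0 + M - y).toNat, by omega⟩, ?_, _, rfl⟩
    refine Prod.ext rfl ?_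
    show y0 + M - (((y0 + M - y).toNat : ℕ) : ℤ) = y
    omega
  · intro v hv
    exact not_image hE (F.u.row v hv) (Or.inl (F.u.ne v hv))

/-- **Above the row, strand paths** (`P` = `SP` of H56, `St` = the string). -/
theorem upSP {P : (Fin N ⊕ Fin M) × Dir → (Fin N ⊕ Fin M) × Dir → ℤ → Prop}
    (base : ∀ x, ¬ (∃ i : Fin M, (Nw.π x).1 = Sum.inr i) → NSp Nw x → P x (Nw.π x) (Nw.t x))
    (west : ∀ x y q t, Nw.π x = (q, .W) → (∃ i : Fin M, q = Sum.inr i) → NSp Nw x →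
      P (q, .E) y t → P x y (Nw.t x + 4 + t))
    (east : ∀ x y q t, Nw.π x = (q, .E) → (∃ i : Fin M, q = Sum.inr i) → NSp Nw x →
      P (q, .W) y t → P x y (Nw.t x - 4 + t)) {c : Fin N} (hc : c ∉ F.u.Ex) :
    P (Sum.inl c, .N) (Sum.inl (F.u.U c), .N) (-2 * dir c (F.u.U c) +
      4 * ((if c0 < F.u.U c then 1 else 0) - (if c0 < c then 1 else 0))) :=
  (up W ho hE R hc).elim base west east (by rintro ⟨i, hi⟩; cases hi)

/-- **Below the row.** -/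
theorem dn {c : Fin N} (hc : c ∉ F.d.Ex) :
    Nw.π (Sum.inl c, .S) = (Sum.inl (F.d.D c), .S) ∧ Nw.t (Sum.inl c, .S) = 2 * dir c (F.d.D c) ∧
      NSp Nw (Sum.inl c, .S) := by
  obtain ⟨h1, h2, n, h3⟩ := HalfD.dn_wire (F := F.d) (ptZ N M x0 y0 c0) W ho (r := Sum.inl)
    (fun c => rfl) (fun v hv => not_image hE (fun e => by have := hv.2; omega) (Or.inr hv.2.2))
    (In := F.In) (fun v hv => Or.inr (Or.inl hv)) (fun c => Or.inr (Or.inr (Or.inl ⟨c, rfl⟩))) hc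
  exact ⟨h1, h2, nsp W ho R h3⟩

omit hE

/-- neighbouring tiles -/
lemma adj {x x' : (Fin N ⊕ Fin M) × Dir}
    (h : UW (tcZ N M x0 y0 c0 x.1, x.2) = (tcZ N M x0 y0 c0 x'.1, x'.2)) :
    Nw.π x = x' ∧ Nw.t x = 0 ∧ NSp Nw x := by
  obtain ⟨h1, h2⟩ := adj_wire (ptZ N M x0 y0 c0) W ho h
  exact ⟨h1, h2, nsp W ho R (adj_WP h (F.In_tc _) (F.In_tc _))⟩

/-- **Along the row.** -/
theorem row {c c' : Fin N} (h : (c' : ℕ) = c + 1) :
    (Nw.π (Sum.inl c, .E) = (Sum.inl c', .W) ∧ Nw.t (Sum.inl c, .E) = 0 ∧ NSp Nw (Sum.inl c, .E)) ∧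
    (Nw.π (Sum.inl c', .W) = (Sum.inl c, .E) ∧ Nw.t (Sum.inl c', .W) = 0 ∧
      NSp Nw (Sum.inl c', .W)) := by
  refine ⟨adj W ho R ?_, adj W ho R ?_⟩
  · show (((x0 + ((c : ℕ) : ℤ)) + 1, y0), Dir.W) = ((x0 + ((c' : ℕ) : ℤ), y0), Dir.W)
    rw [h]; push_cast; rw [add_assoc]
  · show (((x0 + ((c' : ℕ) : ℤ)) - 1, y0), Dir.E) = ((x0 + ((c : ℕ) : ℤ), y0), Dir.E)
    rw [h]; push_cast; rw [← add_assoc, add_sub_cancel_right]

/-- **Along the string.** -/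
theorem str {i i' : Fin M} (h : (i' : ℕ) = i + 1) :
    (Nw.π (Sum.inr i, .S) = (Sum.inr i', .N) ∧ Nw.t (Sum.inr i, .S) = 0 ∧ NSp Nw (Sum.inr i, .S)) ∧
    (Nw.π (Sum.inr i', .N) = (Sum.inr i, .S) ∧ Nw.t (Sum.inr i', .N) = 0 ∧
      NSp Nw (Sum.inr i', .N)) := by
  refine ⟨adj W ho R ?_, adj W ho R ?_⟩
  · show ((x0 + ((c0 : ℕ) : ℤ), y0 + M - ((i : ℕ) : ℤ) - 1), Dir.N) =
      ((x0 + ((c0 : ℕ) : ℤ), y0 + M - ((i' : ℕ) : ℤ)), Dir.N)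
    rw [h]; push_cast; rw [sub_sub]
  · show ((x0 + ((c0 : ℕ) : ℤ), y0 + M - ((i' : ℕ) : ℤ) + 1), Dir.S) =
      ((x0 + ((c0 : ℕ) : ℤ), y0 + M - ((i : ℕ) : ℤ)), Dir.S)
    rw [h]; push_cast
    refine Prod.ext (Prod.ext rfl ?_) rfl
    simp only
    ring

/-- **The last tile of the string and the row.** -/
theorem str_last {i : Fin M} (h : (i : ℕ) + 1 = M) :
    (Nw.π (Sum.inr i, .S) = (Sum.inl c0, .N) ∧ Nw.t (Sum.inr i, .S) = 0 ∧ NSp Nw (Sum.inr i, .S)) ∧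
    (Nw.π (Sum.inl c0, .N) = (Sum.inr i, .S) ∧ Nw.t (Sum.inl c0, .N) = 0 ∧
      NSp Nw (Sum.inl c0, .N)) := by
  have hM : (M : ℤ) = ((i : ℕ) : ℤ) + 1 := by omega
  refine ⟨adj W ho R ?_, adj W ho R ?_⟩
  · show ((x0 + ((c0 : ℕ) : ℤ), y0 + M - ((i : ℕ) : ℤ) - 1), Dir.N) =
      ((x0 + ((c0 : ℕ) : ℤ), y0), Dir.N)
    rw [hM]
    refine Prod.ext (Prod.ext rfl ?_) rfl
    simp only
    ring
  · show ((x0 + ((c0 : ℕ) : ℤ), y0 + 1), Dir.S) =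
      ((x0 + ((c0 : ℕ) : ℤ), y0 + M - ((i : ℕ) : ℤ)), Dir.S)
    rw [hM]
    refine Prod.ext (Prod.ext rfl ?_) rfl
    simp only
    ring

end

end FrameZ

end Pool.Agent.H40.W
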