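import Mathlib
import Pool.Agent.H81.W.CoreZ
import Pool.Agent.Q1.M6b.Asm2

set_option autoImplicit false
set_option linter.unusedSectionVars false
set_option linter.unusedVariables false
open Finset

/-! # The sums over the coupons of a row with a string

`row_sumZ` : for every family of amplitudes with the relations of the windows (`WFam`) of a row with the
interface `RowZI` and the reduced nets `ZRow`, the sum over `m` free coupons of the amplitudes with one more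
coupon at `yc` is at most `D R ^ (2 m / 3 + 2 / 5)`. -/

namespace Pool.Agent.H40.W

open Pool.Agent.H75.Perc Pool.Agent.H75.TwoArm Pool.Agent.Q1 Pool.Agent.H81.G1
open Pool.Agent.H99.NC Pool.Agent.H81.NC
open Pool.Agent.H30.Mid (RS rl rp rcr cs)
open Pool.Agent.Q1.M6b.Gl (gE tr mem_tr)
open Pool.Agent.Q1.M6b.Gd
open Pool.Agent.Q1.M6b (dy mem_dy cells)
open Pool.Agent.H81.W

/-- **The sums over the coupons of a row with a string.** -/
theorem row_sumZ (hAP : AP Pool.Agent.Q1.M6c.PlaneK) (m g s A : ℕ) (K0 : ℤ) (hK0 : 1 ≤ K0) :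
    ∃ D : ℝ, 0 ≤ D ∧
    ∀ (N : ℕ) (xr y0 : ℤ) (k : ℕ) (yc : Fin N) (EL EU : Finset (ℤ × ℤ))
      (W' : Bool → Finset (ℤ × ℤ)) (R0 rr : ℕ) (Sw : Finset ℤ) (R : ℝ)
      (𝒜 : Finset (Fin N) → Finset (ℤ × ℤ) → ℂ) (Wr : Finset (ℤ × ℤ) → Bool → Fin N → Fin N → Prop),
      WFam EL EU N xr y0 yc 𝒜 Wr → RowZI N xr y0 k EL EU W' K0 s R0 Sw →
      (∀ e ∈ gE EL EU (1, -1), (e.1 + e.2) % 2 = 1) → (yc : ℕ) = k →
      (∀ T : Finset (Fin N), yc ∈ T → T.card ≤ m + 1 → ∀ ζ ⊆ gE EL EU (1, -1),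
        𝒜 T ζ ≠ 0 → ∃ κ, Nonempty (ZRow xr y0 yc (ζ ∪ W' κ) (Wr ζ) g rr T ‖𝒜 T ζ‖)) →
      1 ≤ R → ((N + 1 : ℕ) : ℝ) ≤ A * R → 2 ≤ R0 → R0 ≤ rr → (R0 : ℝ) ≤ A * R → N ≤ A * R0 →
      ‖∑ t ∈ powersetCard m (Finset.Ico (-(k : ℤ)) ((N : ℤ) - k)),
        Ec (fun _ => (1 / 2 : ℂ)) (gE EL EU (1, -1)) (AmZ 𝒜 yc (cs N k t))‖ ≤
        D * R ^ ((2 / 3 : ℝ) * m + 2 / 5) := by
  obtain ⟨b, hb, C, hC, hg1⟩ := g1_final hAP
  obtain ⟨Cx, hCx, hgx⟩ := gZ_root g s m A (1 / 160) (by norm_num)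
  have hC0 : 0 ≤ C := by linarith
  obtain ⟨D, hD⟩ := hg1 m (K0 * (4 * b + 8) + 8 * b + 33) K0 (A : ℝ)
    (C ^ (2 * m)) (Cx * (A : ℝ) ^ (1 / 160 : ℝ)) (by positivity) (by positivity)
    hK0 (by nlinarith)
  refine ⟨max D 0, le_max_right _ _, ?_⟩
  intro N xr y0 k yc EL EU W' R0 rr Sw R 𝒜 Wr H I hodd hyc hrow hR hNA hR02 hrr hR0A hNR0
  have hRp : (0 : ℝ) < R := by linarith
  have hkN : k ≤ N := by rw [← hyc]; exact yc.2.le
  have key := hD (gE EL EU (1, -1)) true y0 (xr + k - y0 + 1) k (N - k) N R I.geo hkN (by omega) hR hNA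
    (fun _ => C ^ m)
    (fun ω => gZ N xr y0 (gE EL EU (1, -1)) W' g s m R0 ω)
    (fun ω _ => by positivity) (fun ω _ => gZ_nonneg ..) ?_ ?_
    (fun t ω => AmZ 𝒜 yc (cs N k t) ω) ?_
  · have e1 : ((N : ℤ) - (k : ℤ)) = ((N - k : ℕ) : ℤ) := by omega
    rw [e1]
    exact key.trans (mul_le_mul_of_nonneg_right (le_max_left _ _) (by positivity))
  · have h1 : (1 : ℝ) ≤ R ^ (25 / 32 : ℝ) := Real.one_le_rpow hR (by norm_num)
    have h2 : Ex (cp (1 / 2)) (gE EL EU (1, -1)) (fun _ => (C ^ m) ^ 2) = C ^ (2 * m) := by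
      rw [Ex_const, ← pow_mul, mul_comm]
    rw [h2]
    nlinarith [show (0 : ℝ) ≤ C ^ (2 * m) by positivity]
  · have h5 := hgx N xr y0 (gE EL EU (1, -1)) W' R0 ((A : ℝ) * R) hodd hR02 hR0A hNR0
    rw [Real.mul_rpow (by positivity) hRp.le, ← mul_assoc] at h5
    exact h5
  · intro S p' hp' k₁ hk₁ k₂ hk₂ L hL y' hy' ω hω hS
    have hpm := mem_antidiagonal.1 hp'
    obtain ⟨A', hh, hA', hn⟩ := data_rowZ H I hyc (by rw [hpm]; exact hrow) hb hK0 (by nlinarith)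
      hkN hR02 hrr hk₁ hk₂ hL hy' hω hS
    refine ⟨A', hh, hA', ?_⟩
    rw [hpm] at hn
    calc ‖A'‖ * C ^ m ≤ _ * C ^ m := mul_le_mul_of_nonneg_right hn (by positivity)
      _ = _ := by ring

end Pool.Agent.H40.W
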