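import Mathlib
import Pool.Agent.H30.W.EmZ
import Pool.Agent.H40.W.RSumZ

set_option autoImplicit false
set_option linter.unusedSectionVars false
open Finset

/-! # The frozen bound of a row with a string and one more tile

`ZRow.mono` : the amplitude of `ZRow` may be decreased. `AmpZ_AmZ` : the amplitudes `AmpZ` are those of
`row_sumZ`. `em_le` : the amplitude with one more tile with the weights `1/2, 1/2` is at most that of one of the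
two frozen environments. `fb_row`, `fb_rowE` : the frozen bound. -/

namespace Pool.Agent.H40.W

open Pool.Agent.H75.Perc Pool.Agent.H75.TwoArm Pool.Agent.Q1 Pool.Agent.H81.G1
open Pool.Agent.H99.NC Pool.Agent.H81.NC
open Pool.Agent.H30.Mid (RS rl rp rcr ug cA cB)
open Pool.Agent.Q1.M6b.Gl (gE tr mem_tr)
open Pool.Agent.Q1.M6b.Gd
open Pool.Agent.H81.W
open Pool.Agent.H30.W

variable {N M : ℕ} {X : Env} {x0 y0 : ℤ} {EL EU : Finset (ℤ × ℤ)}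

/-- the amplitude of `ZRow` may be decreased -/
def zrow_mono {c0 : Fin N} {w' : Finset (ℤ × ℤ)} {Wr : Bool → Fin N → Fin N → Prop} {g rr : ℕ}
    {S : Finset (Fin N)} {r r' : ℝ} (Q : ZRow x0 y0 c0 w' Wr g rr S r') (h : r ≤ r') :
    ZRow x0 y0 c0 w' Wr g rr S r where
  X := Q.X
  U := Q.U
  D := Q.D
  G := Q.G
  oU := Q.oU
  oD := Q.oD
  card := Q.card
  rm := Q.rm
  mE := Q.mE
  mN := Q.mN
  mS := Q.mS
  gD := Q.gD
  wU := Q.wU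
  wD := Q.wD
  far := Q.far
  up := Q.up
  dn := Q.dn
  bd := fun LN LS m Ex h1 h2 h3 => h.trans (Q.bd LN LS m Ex h1 h2 h3)

section fam

variable {κ' : Type*} [Fintype κ'] [DecidableEq κ']

/-- the amplitudes of a row with extra tiles, on glued configurations -/
noncomputable def AE (X : Env) (N : ℕ) (x0 y0 : ℤ) (l2 : κ' → ℤ × ℤ) (ct : ℤ × ℤ) (a2 b2 : κ' → ℂ)
    (EL EU : Finset (ℤ × ℤ)) (S : Finset (Fin N)) (ζ : Finset (ℤ × ℤ)) : ℂ :=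
  AG X (lbE N x0 y0 l2) ct (eA S (zt ^ (4 : ℤ)) a2) (eB S (zt ^ (-4 : ℤ)) b2) (ug EL EU (1, -1) ζ)

/-- the amplitudes of the expansion in the form of `row_sumZ` -/
lemma AmpZ_AmZ (l2 : κ' → ℤ × ℤ) (ct : ℤ × ℤ) (a2 b2 : κ' → ℂ) (k : Fin N) (s : Finset ℤ) :
    AmpZ X N x0 y0 l2 ct (zt ^ (4 : ℤ)) (zt ^ (-4 : ℤ)) a2 b2 EL EU (k : ℕ) s =
      AmZ (AE X N x0 y0 l2 ct a2 b2 EL EU) k (Pool.Agent.H30.Mid.cs N (k : ℕ) s) := by
  have h0 : k ∈ Pool.Agent.H30.Mid.cs N (k : ℕ) s ↔ (0 : ℤ) ∈ s := by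
    unfold Pool.Agent.H30.Mid.cs
    rw [mem_filter, sub_self]
    exact ⟨fun h => h.2, fun h => ⟨mem_univ _, h⟩⟩
  funext ω
  unfold AmpZ AmZ AmpE AE
  by_cases h : (0 : ℤ) ∈ s
  · rw [if_pos h, if_pos (h0.2 h)]
  · rw [if_neg h, if_neg (fun h' => h (h0.1 h')), cs_insert]

end fam

/-- **The frozen bound of a row with extra tiles.** -/
theorem fb_row (hAP : AP Pool.Agent.Q1.M6c.PlaneK) (m g s A : ℕ) (K0 : ℤ) (hK0 : 1 ≤ K0) :
    ∃ D : ℝ, 0 ≤ D ∧ ∀ {κ' : Type} [Fintype κ'] [DecidableEq κ'] (X : Env) (N : ℕ) (x0 y0 : ℤ)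
      (k : Fin N) (l2 : κ' → ℤ × ℤ) (ct : ℤ × ℤ) (a2 b2 : κ' → ℂ) (EL EU : Finset (ℤ × ℤ))
      (W' : Bool → Finset (ℤ × ℤ)) (R0 rr : ℕ) (Sw : Finset ℤ) (R : ℝ)
      (Wr : Finset (ℤ × ℤ) → Bool → Fin N → Fin N → Prop),
      LayE X N x0 y0 l2 EL EU →
      WFam EL EU N x0 y0 k (AE X N x0 y0 l2 ct a2 b2 EL EU) Wr →
      RowZI N x0 y0 (k : ℕ) EL EU W' K0 s R0 Sw →
      (∀ T : Finset (Fin N), k ∈ T → T.card ≤ m + 1 → ∀ ζ ⊆ gE EL EU (1, -1),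
        AE X N x0 y0 l2 ct a2 b2 EL EU T ζ ≠ 0 →
        ∃ κ, Nonempty (ZRow x0 y0 k (ζ ∪ W' κ) (Wr ζ) g rr T ‖AE X N x0 y0 l2 ct a2 b2 EL EU T ζ‖)) →
      1 ≤ R → ((N + 1 : ℕ) : ℝ) ≤ A * R → 2 ≤ R0 → R0 ≤ rr → (R0 : ℝ) ≤ A * R → N ≤ A * R0 →
      ‖∑ t ∈ powersetCard m (Finset.Ico (-((k : ℕ) : ℤ)) ((N : ℤ) - (k : ℕ))),
        Ec (fun _ => (1 / 2 : ℂ)) (gE EL EU (1, -1))
          (AmpZ X N x0 y0 l2 ct (zt ^ (4 : ℤ)) (zt ^ (-4 : ℤ)) a2 b2 EL EU (k : ℕ) t)‖ ≤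
        D * R ^ ((2 / 3 : ℝ) * m + 2 / 5) := by
  obtain ⟨D, hD0, hD⟩ := row_sumZ hAP m g s A K0 hK0
  refine ⟨D, hD0, ?_⟩
  intro κ' _ _ X N x0 y0 k l2 ct a2 b2 EL EU W' R0 rr Sw R Wr L H I hrow hR hNA hR02 hrr hR0A hNR0
  have hodd : ∀ e ∈ gE EL EU (1, -1), (e.1 + e.2) % 2 = 1 := by
    intro e he
    have h1 : ∀ e ∈ EL ∪ EU, (e.1 + e.2) % 2 = 1 := fun e he => by
      rw [← L.eq, mem_sdiff] at he
      exact X.odd e he.1
    unfold gE at he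
    rw [mem_union, mem_tr] at he
    rcases he with he | he
    · exact h1 e (mem_union_left _ he)
    · have := h1 _ (mem_union_right _ he)
      simp only [Prod.fst_sub, Prod.snd_sub] at this
      omega
  have key := hD N x0 y0 (k : ℕ) k EL EU W' R0 rr Sw R _ Wr H I hodd rfl hrow hR hNA hR02 hrr hR0A hNR0
  simp only [AmpZ_AmZ]
  exact key

/-- **One more tile with the weights `1/2, 1/2`**: one of the two frozen environments. -/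
theorem em_le {c0 : Fin N} {e : ℤ × ℤ} (L : LayE X N x0 y0 (lsE M x0 y0 c0 e) EL EU) (ct : ℤ × ℤ)
    (a2 b2 : Fin M → ℂ) (S : Finset (Fin N)) (ζ : Finset (ℤ × ℤ)) :
    ∃ κ, ‖AE X N x0 y0 (lsE M x0 y0 c0 e) ct (Sum.elim a2 fun _ => 1 / 2) (Sum.elim b2 fun _ => 1 / 2)
        EL EU S ζ‖ ≤ ‖AE (fz1 X e κ) N x0 y0 (lsZ M x0 y0 c0) ct a2 b2 EL EU S ζ‖ := by
  set ω := ug EL EU (1, -1) ζ with hω
  set A1 := eA S (zt ^ (4 : ℤ)) a2 with hA1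
  set B1 := eB S (zt ^ (-4 : ℤ)) b2 with hB1
  have hF : Fam X (Sum.elim (lbE N x0 y0 (lsZ M x0 y0 c0)) (fun _ : Unit => e)) := by
    refine ⟨?_, ?_⟩
    · intro i j hij
      have h1 := L.fam.inj
      rcases i with (i | i) | i <;> rcases j with (j | j) | j
      · have := h1 (a₁ := .inl i) (a₂ := .inl j) hij
        simpa using this
      · have := h1 (a₁ := .inl i) (a₂ := .inr (.inl j)) hij
        simp at this
      · have := h1 (a₁ := .inl i) (a₂ := .inr (.inr ())) hij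
        simp at this
      · have := h1 (a₁ := .inr (.inl i)) (a₂ := .inl j) hij
        simp at this
      · have := h1 (a₁ := .inr (.inl i)) (a₂ := .inr (.inl j)) hij
        simpa using this
      · have := h1 (a₁ := .inr (.inl i)) (a₂ := .inr (.inr ())) hij
        simp at this
      · have := h1 (a₁ := .inr (.inr ())) (a₂ := .inl j) hij
        simp at this
      · have := h1 (a₁ := .inr (.inr ())) (a₂ := .inr (.inl j)) hij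
        simp at this
      · rfl
    · intro i
      rcases i with (i | i) | i
      · exact L.fam.mem (.inl i)
      · exact L.fam.mem (.inr (.inl i))
      · exact L.fam.mem (.inr (.inr ()))
  have h1 := AG_em hF ct A1 B1 ω
  have h2 : AG X (lbE N x0 y0 (lsE M x0 y0 c0 e)) ct
      (eA S (zt ^ (4 : ℤ)) (Sum.elim a2 fun _ => 1 / 2))
      (eB S (zt ^ (-4 : ℤ)) (Sum.elim b2 fun _ => 1 / 2)) ω =
      AG X (Sum.elim (lbE N x0 y0 (lsZ M x0 y0 c0)) (fun _ : Unit => e)) ct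
        (Sum.elim A1 fun _ => 1 / 2) (Sum.elim B1 fun _ => 1 / 2) ω := by
    rw [← AG_equiv (Equiv.sumAssoc (Fin N) (Fin M) Unit) ct _ _ L.fam ω]
    congr 1
    · funext i
      rcases i with (i | i) | i <;> rfl
    · funext i
      rcases i with (i | i) | i <;> rfl
    · funext i
      rcases i with (i | i) | i <;> rfl
  unfold AE
  rw [h2, h1]
  set u := AG (fz1 X e true) (lbE N x0 y0 (lsZ M x0 y0 c0)) ct A1 B1 ω with hu
  set v := AG (fz1 X e false) (lbE N x0 y0 (lsZ M x0 y0 c0)) ct A1 B1 ω with hv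
  have h3 : ‖1 / 2 * (u + v)‖ ≤ 1 / 2 * (‖u‖ + ‖v‖) := by
    rw [norm_mul]
    have h4 : ‖(1 / 2 : ℂ)‖ = 1 / 2 := by norm_num
    rw [h4]
    exact mul_le_mul_of_nonneg_left (norm_add_le _ _) (by norm_num)
  rcases le_total ‖u‖ ‖v‖ with h | h
  · exact ⟨false, h3.trans (by change _ ≤ ‖v‖; linarith)⟩
  · exact ⟨true, h3.trans (by change _ ≤ ‖u‖; linarith)⟩

/-- **The frozen bound of a row with a string and one more tile.** -/
theorem fb_rowE (hAP : AP Pool.Agent.Q1.M6c.PlaneK) (m g s A : ℕ) (K0 : ℤ) (hK0 : 1 ≤ K0) :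
    ∃ D : ℝ, 0 ≤ D ∧ ∀ (X : Env) (N M : ℕ) (x0 y0 : ℤ)
      (k : Fin N) (e : ℤ × ℤ) (ct : ℤ × ℤ) (a2 b2 : Fin M → ℂ) (EL EU : Finset (ℤ × ℤ))
      (W' : Bool → Finset (ℤ × ℤ)) (R0 rr : ℕ) (Sw : Finset ℤ) (R : ℝ)
      (Wr : Finset (ℤ × ℤ) → Bool → Fin N → Fin N → Prop),
      LayE X N x0 y0 (lsE M x0 y0 k e) EL EU →
      WFam EL EU N x0 y0 k (AE X N x0 y0 (lsE M x0 y0 k e) ct (Sum.elim a2 fun _ => 1 / 2)
        (Sum.elim b2 fun _ => 1 / 2) EL EU) Wr →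
      RowZI N x0 y0 (k : ℕ) EL EU W' K0 s R0 Sw →
      (∀ κ, ∀ T : Finset (Fin N), k ∈ T → T.card ≤ m + 1 → ∀ ζ ⊆ gE EL EU (1, -1),
        AE (fz1 X e κ) N x0 y0 (lsZ M x0 y0 k) ct a2 b2 EL EU T ζ ≠ 0 →
        Nonempty (ZRow x0 y0 k (ζ ∪ W' κ) (Wr ζ) g rr T
          ‖AE (fz1 X e κ) N x0 y0 (lsZ M x0 y0 k) ct a2 b2 EL EU T ζ‖)) →
      1 ≤ R → ((N + 1 : ℕ) : ℝ) ≤ A * R → 2 ≤ R0 → R0 ≤ rr → (R0 : ℝ) ≤ A * R → N ≤ A * R0 →
      ‖∑ t ∈ powersetCard m (Finset.Ico (-((k : ℕ) : ℤ)) ((N : ℤ) - (k : ℕ))),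
        Ec (fun _ => (1 / 2 : ℂ)) (gE EL EU (1, -1))
          (AmpZ X N x0 y0 (lsE M x0 y0 k e) ct (zt ^ (4 : ℤ)) (zt ^ (-4 : ℤ))
            (Sum.elim a2 fun _ => 1 / 2) (Sum.elim b2 fun _ => 1 / 2) EL EU (k : ℕ) t)‖ ≤
        D * R ^ ((2 / 3 : ℝ) * m + 2 / 5) := by
  obtain ⟨D, hD0, hD⟩ := fb_row hAP m g s A K0 hK0
  refine ⟨D, hD0, ?_⟩
  intro X N M x0 y0 k e ct a2 b2 EL EU W' R0 rr Sw R Wr L H I hrow hR hNA hR02 hrr hR0A hNR0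
  refine hD X N x0 y0 k (lsE M x0 y0 k e) ct _ _ EL EU W' R0 rr Sw R Wr L H I ?_ hR hNA hR02 hrr
    hR0A hNR0
  intro T hT hTm ζ hζ hne
  obtain ⟨κ, hκ⟩ := em_le L ct a2 b2 T ζ
  have h1 : AE (fz1 X e κ) N x0 y0 (lsZ M x0 y0 k) ct a2 b2 EL EU T ζ ≠ 0 := by
    intro h0
    rw [h0, norm_zero] at hκ
    exact hne (norm_le_zero_iff.1 hκ)
  obtain ⟨Q⟩ := hrow κ T hT hTm ζ hζ h1
  exact ⟨κ, ⟨zrow_mono Q hκ⟩⟩

end Pool.Agent.H40.W
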