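import Mathlib
import Pool.Agent.H30.W.Slit
import Pool.Agent.H30.W.EmZ1
import Pool.Agent.H40.W.FBz

set_option autoImplicit false
set_option linter.unusedSectionVars false
open Finset

/-! # The frozen bound of a slit in a window

`AE_fz1`, `AE_em` : the amplitudes of the environment in which everything except the row, the string and the
labels near the row is frozen; the tile `em` is frozen too, or it is one more tile with constant weights.
`fb_slit` : the frozen bound from the relations of the windows (`WFam`) and the reduced nets (`ZRow`). -/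

namespace Pool.Agent.H40.W

open Pool.Agent.H75.Perc Pool.Agent.H75.TwoArm Pool.Agent.Q1 Pool.Agent.H81.G1
open Pool.Agent.H99.NC
open Pool.Agent.H30.Mid (rl ug RS mem_RS)
open Pool.Agent.Q1.M6b.Gl (gE tr mem_tr)
open Pool.Agent.Q1.M6b.Gd
open Pool.Agent.H81.W
open Pool.Agent.H30.W
open Pool.Agent.H54.W (HWin)

variable {D : HWin} {S : Slit D} {X : Env} {W B t : Finset (ℤ × ℤ)} {em : ℤ × ℤ}

/-- the labels which stay random, without `em` -/
noncomputable def EFr (S : Slit D) (B : Finset (ℤ × ℤ)) : Finset (ℤ × ℤ) :=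
  ELz S B ∪ EUz S B ∪ (RS S.N S.x1 S.y0 ∪ XS (lsZ S.M S.x1 S.y0 S.c0))

lemma EFz_eq (S : Slit D) (B : Finset (ℤ × ℤ)) (em : ℤ × ℤ) : EFz S B em = insert em (EFr S B) := by
  unfold EFz EFr
  rw [XS_l2z]
  ext x
  simp only [mem_union, mem_insert, mem_singleton]
  tauto

lemma em_EFr (hE : SlitEnv S X W B em) : em ∉ EFr S B := by
  have h1 := hE.emR
  have h2 := hE.emB
  unfold RZ at h1
  unfold EFr
  rw [mem_union]
  rintro (h | h)
  · exact h2 h
  · exact h1 h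

lemma EFr_sub (hE : SlitEnv S X W B em) : EFr S B ⊆ X.E := by
  intro e he
  exact hE.sub (by rw [EFz_eq]; exact mem_insert_of_mem he)

/-- the row and the string -/
lemma fam_slit (hE : SlitEnv S X W B em) : Fam X (lbE S.N S.x1 S.y0 (lsZ S.M S.x1 S.y0 S.c0)) := by
  have h := (hE.lay ∅).fam
  refine ⟨?_, ?_⟩
  · intro i j hij
    have h1 := h.inj
    rcases i with i | i <;> rcases j with j | j
    · have := h1 (a₁ := .inl i) (a₂ := .inl j) hij
      simpa using this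
    · have := h1 (a₁ := .inl i) (a₂ := .inr (.inl j)) hij
      simp at this
    · have := h1 (a₁ := .inr (.inl i)) (a₂ := .inl j) hij
      simp at this
    · have := h1 (a₁ := .inr (.inl i)) (a₂ := .inr (.inl j)) hij
      simpa using this
  · intro i
    refine EFr_sub hE ?_
    unfold EFr
    rw [← image_lbE]
    exact mem_union_right _ (mem_image_of_mem _ (mem_univ i))

/-- **The amplitudes**: `em` is frozen. -/
theorem AE_fz1 (hE : SlitEnv S X W B em) (ct : ℤ × ℤ) (a2 b2 : Fin S.M → ℂ) (t : Finset (ℤ × ℤ))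
    (T : Finset (Fin S.N)) (ζ : Finset (ℤ × ℤ)) :
    AE (X.freeze (EFr S B) t) S.N S.x1 S.y0 (lsZ S.M S.x1 S.y0 S.c0) ct a2 b2 (ELz S B) (EUz S B)
        T ζ =
      AE (fz1 (XFz X S B em t) em (decide (em ∈ t))) S.N S.x1 S.y0 (lsZ S.M S.x1 S.y0 S.c0) ct a2 b2
        (ELz S B) (EUz S B) T ζ := by
  unfold AE XFz
  rw [EFz_eq]
  refine (AG_frz1 (fam_slit hE) ?_ (em_EFr hE) hE.emE ct _ _ _).symm
  unfold EFr
  rw [← image_lbE]
  exact subset_union_right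

/-- **The amplitudes**: `em` is one more tile. -/
theorem AE_em {N M : ℕ} {x0 y0 : ℤ} {c0 : Fin N} {EL EU : Finset (ℤ × ℤ)} {e : ℤ × ℤ}
    (L : LayE X N x0 y0 (lsE M x0 y0 c0 e) EL EU) (κ : Bool) (ct : ℤ × ℤ) (a2 b2 : Fin M → ℂ)
    (T : Finset (Fin N)) (ζ : Finset (ℤ × ℤ)) :
    AE (fz1 X e κ) N x0 y0 (lsZ M x0 y0 c0) ct a2 b2 EL EU T ζ =
      AE X N x0 y0 (lsE M x0 y0 c0 e) ct (Sum.elim a2 fun _ => emA e κ)
        (Sum.elim b2 fun _ => emB e κ) EL EU T ζ := by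
  have hF : Fam X (Sum.elim (lbE N x0 y0 (lsZ M x0 y0 c0)) (fun _ : Unit => e)) := by
    refine ⟨?_, ?_⟩
    · intro i j hij
      have h1 := L.fam.inj
      rcases i with (i | i) | i <;> rcases j with (j | j) | j
      · have := h1 (a₁ := .inl i) (a₂ := .inl j) hij
        simpa using this
      · have := h1 (a₁ := .inl i) (a₂ := .inr (.inl j)) hij
        simp at this
      · have := h1 (a₁ := .inl i) (a₂ := .inr (.inr ())) hij
        simp at this
      · have := h1 (a₁ := .inr (.inl i)) (a₂ := .inl j) hij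
        simp at this
      · have := h1 (a₁ := .inr (.inl i)) (a₂ := .inr (.inl j)) hij
        simpa using this
      · have := h1 (a₁ := .inr (.inl i)) (a₂ := .inr (.inr ())) hij
        simp at this
      · have := h1 (a₁ := .inr (.inr ())) (a₂ := .inl j) hij
        simp at this
      · have := h1 (a₁ := .inr (.inr ())) (a₂ := .inr (.inl j)) hij
        simp at this
      · rfl
    · intro i
      rcases i with (i | i) | i
      · exact L.fam.mem (.inl i)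
      · exact L.fam.mem (.inr (.inl i))
      · exact L.fam.mem (.inr (.inr ()))
  unfold AE
  rw [AG_em1 hF κ ct]
  rw [← AG_equiv (Equiv.sumAssoc (Fin N) (Fin M) Unit) ct _ _ L.fam (ug EL EU (1, -1) ζ)]
  congr 1
  · funext i
    rcases i with (i | i) | i <;> rfl
  · funext i
    rcases i with (i | i) | i <;> rfl
  · funext i
    rcases i with (i | i) | i <;> rfl

/-- **The frozen bound of a slit**: all labels except the row, the string and the labels near the row are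
frozen in the state `t`. -/
theorem fb_slit (hAP : AP Pool.Agent.Q1.M6c.PlaneK) (m g A : ℕ) (K0 : ℤ) (hK0 : 6 ≤ K0) :
    ∃ Cf : ℝ, 0 ≤ Cf ∧ ∀ {D : HWin} (S : Slit D) (X : Env) (W B : Finset (ℤ × ℤ)) (em : ℤ × ℤ)
      (t : Finset (ℤ × ℤ)) (ct : ℤ × ℤ) (a2 b2 : Fin S.M → ℂ) (R0 rr : ℕ) (R : ℝ)
      (Wr : Finset (ℤ × ℤ) → Bool → Fin S.N → Fin S.N → Prop),
      SlitEnv S X W B em → SepZ B S.N S.x1 S.y0 S.k → SepZ B S.N S.x1 (S.y0 + 1) S.k →
      WFam (ELz S B) (EUz S B) S.N S.x1 S.y0 S.c0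
        (AE (XFz X S B em t) S.N S.x1 S.y0 (l2z S em) ct
          (Sum.elim a2 fun _ => emA em (decide (em ∈ t)))
          (Sum.elim b2 fun _ => emB em (decide (em ∈ t))) (ELz S B) (EUz S B)) Wr →
      (∀ T : Finset (Fin S.N), S.c0 ∈ T → T.card ≤ m + 1 →
        ∀ ζ ⊆ gE (ELz S B) (EUz S B) (1, -1),
        AE (fz1 (XFz X S B em t) em (decide (em ∈ t))) S.N S.x1 S.y0 (lsZ S.M S.x1 S.y0 S.c0) ct
          a2 b2 (ELz S B) (EUz S B) T ζ ≠ 0 →
        Nonempty (ZRow S.x1 S.y0 S.c0 (ζ ∪ WGz S X W B em t (decide (em ∈ t))) (Wr ζ) g rr T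
          ‖AE (fz1 (XFz X S B em t) em (decide (em ∈ t))) S.N S.x1 S.y0
            (lsZ S.M S.x1 S.y0 S.c0) ct a2 b2 (ELz S B) (EUz S B) T ζ‖)) →
      1 ≤ R → ((S.N + 1 : ℕ) : ℝ) ≤ A * R → 2 ≤ R0 → R0 ≤ rr → (R0 : ℤ) ≤ S.r →
      (S.N : ℤ) < K0 * (S.r + 1) → (R0 : ℝ) ≤ A * R → S.N ≤ A * R0 →
      ‖∑ s ∈ powersetCard m (Finset.Ico (-(S.k : ℤ)) ((S.N : ℤ) - S.k)),
        Ec (fun _ => (1 / 2 : ℂ)) (gE (ELz S B) (EUz S B) (1, -1))
          (AmpZ (X.freeze (ELz S B ∪ EUz S B ∪ (RS S.N S.x1 S.y0 ∪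
            XS (lsZ S.M S.x1 S.y0 S.c0))) t) S.N S.x1 S.y0 (lsZ S.M S.x1 S.y0 S.c0) ct
            (zt ^ (4 : ℤ)) (zt ^ (-4 : ℤ)) a2 b2 (ELz S B) (EUz S B) S.k s)‖ ≤
        Cf * R ^ ((2 / 3 : ℝ) * m + 2 / 5) := by
  obtain ⟨Cf, hC0, hC⟩ := row_sumZ hAP m g 12 A K0 (by omega)
  refine ⟨Cf, hC0, ?_⟩
  intro D S X W B em t ct a2 b2 R0 rr R Wr hE hB1 hB2 hW hrow h1 h2 h3 h4 h5 h6 h7 h8
  have e1 : (AE (X.freeze (EFr S B) t) S.N S.x1 S.y0 (lsZ S.M S.x1 S.y0 S.c0) ct a2 b2 (ELz S B)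
      (EUz S B)) = AE (XFz X S B em t) S.N S.x1 S.y0 (l2z S em) ct
          (Sum.elim a2 fun _ => emA em (decide (em ∈ t)))
          (Sum.elim b2 fun _ => emB em (decide (em ∈ t))) (ELz S B) (EUz S B) := by
    funext T ζ
    rw [AE_fz1 hE, AE_em (hE.lay t)]
  have hodd : ∀ e ∈ gE (ELz S B) (EUz S B) (1, -1), (e.1 + e.2) % 2 = 1 := fun e he =>
    gE_oddE (hE.renv t true).lay he
  have key := hC S.N S.x1 S.y0 S.k S.c0 (ELz S B) (EUz S B) (WGz S X W B em t) R0 rr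
    (SwZ S.N S.k S.x1 S.y0) R
    (AE (X.freeze (EFr S B) t) S.N S.x1 S.y0 (lsZ S.M S.x1 S.y0 S.c0) ct a2 b2 (ELz S B) (EUz S B))
    Wr (by rw [e1]; exact hW) (hE.rowZI hB1 hB2 hK0 h6 h5 t) hodd S.c0_val ?_ h1 h2 h3 h4 h7 h8
  · have e2 : ∀ s : Finset ℤ, AmpZ (X.freeze (EFr S B) t) S.N S.x1 S.y0 (lsZ S.M S.x1 S.y0 S.c0) ct
        (zt ^ (4 : ℤ)) (zt ^ (-4 : ℤ)) a2 b2 (ELz S B) (EUz S B) S.k s =
        AmZ (AE (X.freeze (EFr S B) t) S.N S.x1 S.y0 (lsZ S.M S.x1 S.y0 S.c0) ct a2 b2 (ELz S B)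
          (EUz S B)) S.c0 (Pool.Agent.H30.Mid.cs S.N S.k s) := fun s => AmpZ_AmZ _ _ _ _ S.c0 s
    unfold EFr at e2
    simp only [e2]
    exact key
  · intro T hT hTm ζ hζ hne
    rw [AE_fz1 hE] at hne ⊢
    exact ⟨_, hrow T hT hTm ζ hζ hne⟩

end Pool.Agent.H40.W
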