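import Mathlib
import Pool.Agent.H76.W.AsmX
import Pool.Agent.H40.W.FBw

set_option autoImplicit false
set_option linter.unusedSectionVars false
open Finset

/-! # The interface `FBX` for a slit

`SlitEnv.mono` : more boxes. `fbX` : the frozen bound `FBX` of the Taylor expansion for a slit. -/

namespace Pool.Agent.H40.W

open Pool.Agent.H75.Perc Pool.Agent.H75.TwoArm Pool.Agent.Q1 Pool.Agent.H81.G1
open Pool.Agent.H99.NC
open Pool.Agent.H30.Mid (rl ug RS mem_RS)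
open Pool.Agent.Q1.M6b.Gl (gE tr mem_tr)
open Pool.Agent.Q1.M6b.Gd
open Pool.Agent.H81.W
open Pool.Agent.H30.W
open Pool.Agent.H54.W (HWin)
open Pool.Agent.H76.W (FBX)
open Pool.Agent.H46.Sp (TSys)

variable {D : HWin} {S : Slit D} {X : Env} {W B B' t : Finset (ℤ × ℤ)} {em : ℤ × ℤ}

lemma ELz_sdiff (S : Slit D) (B : Finset (ℤ × ℤ)) : ELz S ∅ \ B = ELz S B := by
  unfold ELz
  rw [sdiff_empty]

lemma EUz_sdiff (S : Slit D) (B : Finset (ℤ × ℤ)) : EUz S ∅ \ B = EUz S B := by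
  unfold EUz
  rw [sdiff_empty]

/-- more boxes -/
theorem slitEnv_mono (R : SlitEnv S X W ∅ em) (B : Finset (ℤ × ℤ)) : SlitEnv S X W B em where
  po := R.po
  low := R.low
  upp := R.upp
  row := R.row
  ex := R.ex
  ext := R.ext
  root := R.root
  emE := R.emE
  emR := R.emR
  emB := by
    intro h
    apply R.emB
    rcases mem_union.1 h with h | h
    · rw [← ELz_sdiff] at h
      exact mem_union_left _ (mem_sdiff.1 h).1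
    · rw [← EUz_sdiff] at h
      exact mem_union_right _ (mem_sdiff.1 h).1

/-- the inputs of the frozen bound of a slit, for the boxes `B` and the frozen state `t` -/
structure FBIn {D : HWin} (S : Slit D) (X : Env) (W : Finset (ℤ × ℤ)) (em ct : ℤ × ℤ)
    (a2 b2 : Fin S.M → ℂ) (m g rr : ℕ) (B t : Finset (ℤ × ℤ)) where
  Wr : Finset (ℤ × ℤ) → Bool → Fin S.N → Fin S.N → Prop
  fam : WFam (ELz S B) (EUz S B) S.N S.x1 S.y0 S.c0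
    (AE (XFz X S B em t) S.N S.x1 S.y0 (l2z S em) ct
      (Sum.elim a2 fun _ => emA em (decide (em ∈ t)))
      (Sum.elim b2 fun _ => emB em (decide (em ∈ t))) (ELz S B) (EUz S B)) Wr
  row : ∀ T : Finset (Fin S.N), S.c0 ∈ T → T.card ≤ m + 1 →
    ∀ ζ ⊆ gE (ELz S B) (EUz S B) (1, -1),
    AE (fz1 (XFz X S B em t) em (decide (em ∈ t))) S.N S.x1 S.y0 (lsZ S.M S.x1 S.y0 S.c0) ct
      a2 b2 (ELz S B) (EUz S B) T ζ ≠ 0 →
    Nonempty (ZRow S.x1 S.y0 S.c0 (ζ ∪ WGz S X W B em t (decide (em ∈ t))) (Wr ζ) g rr T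
      ‖AE (fz1 (XFz X S B em t) em (decide (em ∈ t))) S.N S.x1 S.y0
        (lsZ S.M S.x1 S.y0 S.c0) ct a2 b2 (ELz S B) (EUz S B) T ζ‖)

/-- **The frozen bound `FBX` of a slit.** -/
theorem fbX (hAP : AP Pool.Agent.Q1.M6c.PlaneK) (m g A : ℕ) (K0 : ℤ) (hK0 : 6 ≤ K0) :
    ∃ Cf : ℝ, 0 ≤ Cf ∧ ∀ {D : HWin} (S : Slit D) (X : Env) (W : Finset (ℤ × ℤ)) (em : ℤ × ℤ)
      (ct : ℤ × ℤ) (a2 b2 : Fin S.M → ℂ) (R0 rr : ℕ) (R : ℝ), SlitEnv S X W ∅ em →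
      ∀ {κ' : Type} [Fintype κ'] [DecidableEq κ'] [Nonempty κ'] (Sy : TSys κ')
      (C Bk : Finset (ℤ × ℤ)) (K : ℤ) (l : ℕ),
      (∀ v ∈ powersetCard l Sy.Ti, SepZ (v.biUnion (Sy.Bt K v)) S.N S.x1 S.y0 S.k ∧
        SepZ (v.biUnion (Sy.Bt K v)) S.N S.x1 (S.y0 + 1) S.k) →
      (∀ v ∈ powersetCard l Sy.Ti, ∀ t : Finset (ℤ × ℤ),
        Nonempty (FBIn S X W em ct a2 b2 m g rr (v.biUnion (Sy.Bt K v)) t)) →
      1 ≤ R → ((S.N + 1 : ℕ) : ℝ) ≤ A * R → 2 ≤ R0 → R0 ≤ rr → (R0 : ℤ) ≤ S.r →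
      (S.N : ℤ) < K0 * (S.r + 1) → (R0 : ℝ) ≤ A * R → S.N ≤ A * R0 →
      FBX X Sy C Bk S.N S.x1 S.y0 (lsZ S.M S.x1 S.y0 S.c0) ct a2 b2 (ELz S ∅) (EUz S ∅) S.k K m l
        (Cf * R ^ ((2 / 3 : ℝ) * m + 2 / 5)) := by
  obtain ⟨Cf, hC0, hC⟩ := fb_slit hAP m g A K0 hK0
  refine ⟨Cf, hC0, ?_⟩
  intro D S X W em ct a2 b2 R0 rr R hE κ' _ _ _ Sy C Bk K l hsep hin h1 h2 h3 h4 h5 h6 h7 h8
  intro σ _ v hv T _ ξ _
  rw [ELz_sdiff, EUz_sdiff]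
  obtain ⟨F⟩ := hin v hv (ξ ∪ Sy.st T ∪ σ)
  exact hC S X W _ em (ξ ∪ Sy.st T ∪ σ) ct a2 b2 R0 rr R F.Wr (slitEnv_mono hE _) (hsep v hv).1
    (hsep v hv).2 F.fam F.row h1 h2 h3 h4 h5 h6 h7 h8

end Pool.Agent.H40.W
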