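import Mathlib
import Pool.Agent.H40.W.FrmZ
import Pool.Agent.H56.W.SP

set_option autoImplicit false
open Finset

/-! # The wires of the frame as straight paths `SP` of H56

`St` : the tiles of the string (`Sum.inr`). `up_SP`, `dn_SP`, `row_SP`. -/

namespace Pool.Agent.H40.W

open Pool.Agent.H75.Perc Pool.Agent.H75.TwoArm Pool.Agent.Q1 Pool.Agent.H81.G1
open Pool.Agent.H30.Mid
open Pool.Agent.H30.W (gp gcr lbE)
open Pool.Agent.H69.M6b (lbt lbt_inj lbt_odd pr0 PR TD tt)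
open Pool.Agent.Q1.M6b.Meander (dir dir_lt dir_gt)
open Pool.Agent.H56.W (SP Spc)

variable {N M : ℕ}

/-- tiles of the string -/
def StZ {N M : ℕ} (k : Fin N ⊕ Fin M) : Prop := ∃ i : Fin M, k = Sum.inr i

lemma NSp.spc {ι : Type*} {Nw : Net ι} {x : ι × Dir} (h : NSp Nw x) : ¬ Spc Nw x := by
  rintro (h' | h' | h' | h')
  · exact h.1 h'
  · exact h.2.1 h'
  · exact h.2.2.1 h'
  · exact h.2.2.2 h'

lemma not_StZ (c : Fin N) : ¬ StZ (Sum.inl c : Fin N ⊕ Fin M) := by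
  rintro ⟨i, hi⟩
  cases hi

namespace FrameZ

variable {L : Finset (ℤ × ℤ)} {c0 : Fin N} {x0 y0 : ℤ} {F : FrameZ L M c0 x0 y0}
variable {X2 : Env} {Nw : Net (Fin N ⊕ Fin M)} {n0 : ℕ} {ct : ℤ × ℤ} {n1 : ℕ}
variable (W : Wired X2 (lbE N x0 y0 (lsZ M x0 y0 c0)) (gp (lbE N x0 y0 (lsZ M x0 y0 c0)))
    (gcr (lbE N x0 y0 (lsZ M x0 y0 c0))) Nw n0) (ho : OutL X2 L)
  (hE : X2.E = univ.image (lbE N x0 y0 (lsZ M x0 y0 c0)))
  (R : OutR X2 (gcr (lbE N x0 y0 (lsZ M x0 y0 c0))) Nw F.In ct n1)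

include W ho hE R

/-- **Above the row.** -/
theorem up_SP {c : Fin N} (hc : c ∉ F.u.Ex) : SP Nw StZ (Sum.inl c, .N) (Sum.inl (F.u.U c), .N)
    (-2 * dir c (F.u.U c) + 4 * ((if c0 < F.u.U c then 1 else 0) - (if c0 < c then 1 else 0))) :=
  upSP W ho hE R (P := SP Nw StZ) (fun _ h1 h2 => SP.base h1 h2.spc)
    (fun _ _ _ _ h1 h2 h3 h4 => SP.west h1 h2 h3.spc h4)
    (fun _ _ _ _ h1 h2 h3 h4 => SP.east h1 h2 h3.spc h4) hc

/-- **Below the row.** -/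
theorem dn_SP {c : Fin N} (hc : c ∉ F.d.Ex) : SP Nw StZ (Sum.inl c, .S) (Sum.inl (F.d.D c), .S)
    (2 * dir c (F.d.D c)) := by
  obtain ⟨h1, h2, h3⟩ := dn W ho hE R hc
  have h := SP.base (X := Nw) (Q := StZ) (x := (Sum.inl c, Dir.S)) (by rw [h1]; exact not_StZ _) h3.spc
  rwa [h1, h2] at h

omit hE

/-- **Along the row.** -/
theorem row_SP {c c' : Fin N} (h : (c' : ℕ) = c + 1) :
    SP Nw StZ (Sum.inl c, .E) (Sum.inl c', .W) 0 ∧ SP Nw StZ (Sum.inl c', .W) (Sum.inl c, .E) 0 := by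
  obtain ⟨⟨h1, h2, h3⟩, g1, g2, g3⟩ := row W ho R h
  constructor
  · have h := SP.base (X := Nw) (Q := StZ) (x := (Sum.inl c, Dir.E)) (by rw [h1]; exact not_StZ _)
      h3.spc
    rwa [h1, h2] at h
  · have h := SP.base (X := Nw) (Q := StZ) (x := (Sum.inl c', Dir.W)) (by rw [g1]; exact not_StZ _)
      g3.spc
    rwa [g1, g2] at h

end FrameZ

end Pool.Agent.H40.W
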