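import Mathlib
import Pool.Agent.H81.W.FzS
import Pool.Agent.H40.W.FBx

set_option autoImplicit false
set_option linter.unusedSectionVars false
open Finset

/-! # The interface `FBX` for a slit, with the reduced nets

`zrow_g` : more exceptional columns. `fbX_slit` : the frozen bound `FBX` of a slit from the relations of the
windows (`WFam`). -/

namespace Pool.Agent.H40.W

open Pool.Agent.H75.Perc Pool.Agent.H75.TwoArm Pool.Agent.Q1 Pool.Agent.H81.G1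
open Pool.Agent.H99.NC
open Pool.Agent.H30.Mid (rl ug RS mem_RS)
open Pool.Agent.Q1.M6b.Gl (gE tr mem_tr)
open Pool.Agent.Q1.M6b.Gd
open Pool.Agent.H69.M6b (lbt)
open Pool.Agent.H81.W
open Pool.Agent.H30.W
open Pool.Agent.H54.W (HWin)
open Pool.Agent.H76.W (FBX)
open Pool.Agent.H46.Sp (TSys)

/-- more exceptional columns -/
def zrow_g {N : ℕ} {x0 y0 : ℤ} {c0 : Fin N} {w' : Finset (ℤ × ℤ)} {Wr : Bool → Fin N → Fin N → Prop}
    {g g' rr : ℕ} {S : Finset (Fin N)} {r : ℝ} (Q : ZRow x0 y0 c0 w' Wr g rr S r) (h : g ≤ g') :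
    ZRow x0 y0 c0 w' Wr g' rr S r where
  X := Q.X
  U := Q.U
  D := Q.D
  G := Q.G
  oU := Q.oU
  oD := Q.oD
  card := Q.card.trans h
  rm := Q.rm
  mE := Q.mE
  mN := Q.mN
  mS := Q.mS
  gD := Q.gD
  wU := Q.wU
  wD := Q.wD
  far := Q.far
  up := Q.up
  dn := Q.dn
  bd := Q.bd

variable {D : HWin} {S : Slit D} {X : Env} {W B t : Finset (ℤ × ℤ)} {em ct : ℤ × ℤ} {J : Finset ℤ}

/-- the relations of the windows of a slit for the boxes `B` and the frozen state `t` -/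
def FamS (S : Slit D) (X : Env) (em ct : ℤ × ℤ) (B t : Finset (ℤ × ℤ)) : Prop :=
  WFam (ELz S B) (EUz S B) S.N S.x1 S.y0 S.c0
    (AE (XFz X S B em t) S.N S.x1 S.y0 (l2z S em) ct
      (Sum.elim (fun _ => zt ^ (4 : ℤ)) fun _ => emA em (decide (em ∈ t)))
      (Sum.elim (fun _ => zt ^ (-4 : ℤ)) fun _ => emB em (decide (em ∈ t))) (ELz S B) (EUz S B))
    (WrZ S.x1 S.y0 (ELz S B) (EUz S B))

/-- the inputs of the frozen bound -/
def fbIn_slit (R : SlitEnv S X W B em) (hJ : Jmp D J) (hroot : RootS X (zq S.M S.x1 S.y0 S.c0))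
    (htgt : ∀ x y, plab ct = lbt x y → ¬ D.InZ x y) {s : ℕ} (hs : J.card ≤ s)
    (hF : FamS S X em ct B t) (m : ℕ) : FBIn S X W em ct (fun _ => zt ^ (4 : ℤ))
      (fun _ => zt ^ (-4 : ℤ)) m (6 * s + 55) S.r.toNat B t where
  Wr := WrZ S.x1 S.y0 (ELz S B) (EUz S B)
  fam := hF
  row := by
    intro T hT _ ζ hζ hne
    obtain ⟨Q⟩ := zrow_slit R hJ hroot htgt t (decide (em ∈ t)) hζ hT hne
    exact ⟨zrow_g Q (by omega)⟩

/-- **The frozen bound `FBX` of a slit.** -/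
theorem fbX_slit (hAP : AP Pool.Agent.Q1.M6c.PlaneK) (m s A : ℕ) (K0 : ℤ) (hK0 : 6 ≤ K0) :
    ∃ Cf : ℝ, 0 ≤ Cf ∧ ∀ {D : HWin} (S : Slit D) (X : Env) (W : Finset (ℤ × ℤ)) (em ct : ℤ × ℤ)
      (J : Finset ℤ) (R : ℝ), SlitEnv S X W ∅ em → Jmp D J → J.card ≤ s →
      RootS X (zq S.M S.x1 S.y0 S.c0) → (∀ x y, plab ct = lbt x y → ¬ D.InZ x y) →
      (∀ B t : Finset (ℤ × ℤ), FamS S X em ct B t) →
      ∀ {κ' : Type} [Fintype κ'] [DecidableEq κ'] [Nonempty κ'] (Sy : TSys κ')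
      (C Bk : Finset (ℤ × ℤ)) (K : ℤ) (l : ℕ),
      (∀ v ∈ powersetCard l Sy.Ti, SepZ (v.biUnion (Sy.Bt K v)) S.N S.x1 S.y0 S.k ∧
        SepZ (v.biUnion (Sy.Bt K v)) S.N S.x1 (S.y0 + 1) S.k) →
      1 ≤ R → ((S.N + 1 : ℕ) : ℝ) ≤ A * R → (S.r : ℝ) ≤ A * R → (S.N : ℤ) ≤ A * S.r →
      (S.N : ℤ) < K0 * (S.r + 1) →
      FBX X Sy C Bk S.N S.x1 S.y0 (lsZ S.M S.x1 S.y0 S.c0) ct (fun _ => zt ^ (4 : ℤ))
        (fun _ => zt ^ (-4 : ℤ)) (ELz S ∅) (EUz S ∅) S.k K m l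
        (Cf * R ^ ((2 / 3 : ℝ) * m + 2 / 5)) := by
  obtain ⟨Cf, hC0, hC⟩ := fbX hAP m (6 * s + 55) A K0 hK0
  refine ⟨Cf, hC0, ?_⟩
  intro D S X W em ct J R hE hJ hs hroot htgt hF κ' _ _ _ Sy C Bk K l hsep h1 h2 h3 h4 h5
  have r2 := S.r2
  have e1 : ((S.r.toNat : ℕ) : ℤ) = S.r := by omega
  refine hC S X W em ct _ _ S.r.toNat S.r.toNat R hE Sy C Bk K l hsep (fun v _ t =>
    ⟨fbIn_slit (slitEnv_mono hE _) hJ hroot htgt hs (hF _ t) m⟩) h1 h2 (by omega) le_rfl (by omega) h5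
    ?_ ?_
  · have e2 : ((S.r.toNat : ℕ) : ℝ) = S.r := by exact_mod_cast e1
    rw [e2]; exact h3
  · have e3 : ((S.N : ℕ) : ℤ) ≤ ((A * S.r.toNat : ℕ) : ℤ) := by
      push_cast; rw [e1]; exact h4
    exact_mod_cast e3

end Pool.Agent.H40.W
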