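import Mathlib
import Pool.Agent.H40.Sp.CnrW
import Pool.Agent.H15.W.C.Base

set_option autoImplicit false
open Finset

/-! # A marked corner of a window, abstract functional

Toggles of the ties of lower classes (`CnrW.shV`) and classes below permanently tied classes
(`CnrW.irrV`) for a functional `V` with `VTog`, `VTogX`. -/

namespace Pool.Agent.H40.Sp

open Pool.Agent.H75.Perc Pool.Agent.H75.TwoArm Pool.Agent.H75.Four Pool.Agent.H69.Q1
open Pool.Agent.Q1 Pool.Agent.H25.Q1.Add Pool.Agent.H99.NC Pool.Agent.H49.Perc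
open Pool.Agent.H20.Q1 (Eh CS hf)
open Pool.Agent.H39.Q1 hiding hide_LL hide_LF hide_FL hide_FF
open Pool.Agent.H15.W

variable {ι : Type*} [DecidableEq ι]
  {X : Env} {W Bb B TT Tn ω ω' θ P k k1 k2 G : Finset (ℤ × ℤ)}
  {fm : ℤ × ℤ → ι} {co : ι → Bool} {Wl La Λ : ι → Finset (ℤ × ℤ)}
  {b o : ℤ × ℤ → ℤ × ℤ} {V : Finset (ℤ × ℤ) → Finset (ℤ × ℤ) → ℂ} {s : ℤ × ℤ → ℂ}
  {e e0 f x y g g1 g2 t u : ℤ × ℤ} {i : ι}
  {L : Finset (ℤ × ℤ)} {iL iF : ι} {κ : Cht} {h Um Vm D : ℤ}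

/-- the ties of a free class may be tied -/
lemma toggle_freeV (h : Multi X W Bb B TT fm co Wl La b o)
    (hT : VTog V W B TT fm co Wl La b o) (hω : ω ⊆ B) {e2 : ℤ × ℤ} (he2 : e2 ∈ TT)
    (hf : fre W TT fm co Wl La b o ω e2) (hP : P ⊆ TT) :
    ∀ S ⊆ cls TT fm co La b ω e2, V ω (S ∪ P) = V ω P := by
  intro S
  induction S using Finset.induction_on with
  | empty => intro _; rw [empty_union]
  | insert x S hx ih =>
    intro hS
    have h1 : S ⊆ cls TT fm co La b ω e2 := (subset_insert _ _).trans hS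
    have h2 : x ∈ cls TT fm co La b ω e2 := hS (mem_insert_self _ _)
    rw [insert_union, ← ih h1]
    by_cases hxP : x ∈ S ∪ P
    · rw [insert_eq_of_mem hxP]
    · symm
      exact hT ω hω _ (union_subset (h1.trans cls_sub) hP) x (cls_sub h2) hxP
        (Or.inl (h.fre_cls he2 hf h2))

namespace CnrW

/-- (1) -/
theorem toggle_LLV (hM : Multi X W Bb B TT fm co Wl La b o)
    (hC : CnrW W Bb B TT Tn fm co Wl La Λ b o L iL iF κ h Um Vm D)
    (hT : VTogX V W Bb B TT fm co Wl Λ b) (hω : ω ⊆ B) (hP : P ⊆ TT)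
    (he : e ∈ TT) (hei : fm e = iL) (heP : e ∉ P) (he0 : e0 ∈ Tn) (h0i : fm e0 = iL)
    (hee : Co (HS (co iL) (La iL) ω) (b e0) (b e)) (hf : f ∈ P) (hfn : f ∈ Tn)
    (hfi : fm f = iL) (hV : κ.V (nd (co iL) (b e0)) < κ.V (nd (co iL) (b f)))
    (ht : Co (HS (co iL) L ω) (b f) t) (htV : κ.V (nd (co iL) t) = 0) :
    V ω P = V ω (insert e P) := by
  refine hT iL (fun _ => hC.dL) ω hω P hP e he hei heP fun ω' hω' => ?_
  by_contra hcon
  rw [not_or] at hcon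
  obtain ⟨h1, h2⟩ := hcon
  obtain ⟨t1, t2, t3, t4, -, -⟩ := hC.tL e0 he0 h0i
  obtain ⟨-, -, s3, s4, -, -⟩ := hC.tL f hfn hfi
  obtain ⟨m0, -, -⟩ := hC.tLm e0 he0 h0i
  obtain ⟨m1, -, -⟩ := hC.tLm f hfn hfi
  have hVD := hC.VD
  have hUm := hC.Um0
  have hUD := hC.UD
  unfold Conf at h1
  push Not at h1
  obtain ⟨x, y, h3, h4, h5, h6⟩ := h1
  have hee' := cla (P := P) hM hω' hC.LaL hee
  obtain ⟨x', q, g1, g2, g3, g4⟩ := hC.exitL hM hω hω' he hei (by omega) hee' h3 h4 h5 h6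
  obtain ⟨w, k1, k2⟩ := Cht.hide_LL hC.hh hC.H1
    (fun x y k3 k4 => by have := NL_H (κ := κ) x y k3 k4; omega) hC.Um0 t3 t4 s3 hV m1 ht htV
    g1 g2 g3 g4
  refine h2 ⟨f, hf, hfi, hP hf, ?_⟩
  exact hee'.symm.trans ((NL_co k2).trans (hC.mono hM hω' hC.LΛL k1).symm)

/-- (2) -/
theorem toggle_LFV (hM : Multi X W Bb B TT fm co Wl La b o)
    (hC : CnrW W Bb B TT Tn fm co Wl La Λ b o L iL iF κ h Um Vm D)
    (hT : VTogX V W Bb B TT fm co Wl Λ b) (hω : ω ⊆ B) (hP : P ⊆ TT)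
    (he : e ∈ TT) (hei : fm e = iL) (heP : e ∉ P) (he0 : e0 ∈ Tn) (h0i : fm e0 = iL)
    (hee : Co (HS (co iL) (La iL) ω) (b e0) (b e)) (hf : f ∈ P) (hfn : f ∈ Tn)
    (hfi : fm f = iF)
    (hg : Co (HS (co iF) L ω) (b f) g) (hgU : κ.U (nd (co iF) g) = 0)
    (hV : κ.V (nd (co iL) (b e0)) < κ.V (nd (co iF) g)) :
    V ω P = V ω (insert e P) := by
  refine hT iL (fun _ => hC.dL) ω hω P hP e he hei heP fun ω' hω' => ?_
  left
  intro x y h3 h4 h5
  by_contra h6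
  obtain ⟨t1, t2, t3, t4, -, -⟩ := hC.tL e0 he0 h0i
  obtain ⟨m0, -, -⟩ := hC.tLm e0 he0 h0i
  obtain ⟨r1, r2, r3, r4, r5⟩ := hC.tF f hfn hfi
  obtain ⟨m1, m2, m3⟩ := hC.tFm f hfn hfi
  have hVD := hC.VD
  have hUm := hC.Um0
  have hUD := hC.UD
  have hee' := cla (P := P) hM hω' hC.LaL hee
  obtain ⟨x', q, g1, g2, g3, g4⟩ := hC.exitL hM hω hω' he hei (by omega) hee' h3 h4 h5 h6
  exact Cht.hide_LF hC.hh hC.neq hC.H1
    (fun x y k3 k4 => by have := NL_H (κ := κ) x y k3 k4; omega)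
    (hC.opp hM hω' hC.neq) hC.Vm0 t3 t4 hgU hV hg.symm r3 m1 r1 r2 r4 m2 r5 m3
    (tied_not' hM hC.neq hω hω' (hP hf) hfi hf (filter_subset _ _)) g1 g2 g3 g4

/-- (3) -/
theorem toggle_FLV (hM : Multi X W Bb B TT fm co Wl La b o)
    (hC : CnrW W Bb B TT Tn fm co Wl La Λ b o L iL iF κ h Um Vm D)
    (hT : VTogX V W Bb B TT fm co Wl Λ b) (hω : ω ⊆ B) (hP : P ⊆ TT)
    (he : e ∈ TT) (hei : fm e = iF) (heP : e ∉ P)
    (hee : Co (HS (co iF) (La iF) ω) (b e0) (b e)) (hf : f ∈ P) (hfn : f ∈ Tn)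
    (hfi : fm f = iL)
    (hg : Co (HS (co iF) L ω) (b e0) g) (hgU : κ.U (nd (co iF) g) = 0)
    (hgV : 1 ≤ κ.V (nd (co iF) g))
    (hV : κ.V (nd (co iF) g) < κ.V (nd (co iL) (b f)))
    (ht : Co (HS (co iL) L ω) (b f) t) (htV : κ.V (nd (co iL) t) = 0) :
    V ω P = V ω (insert e P) := by
  refine hT iF (fun _ => hC.dF) ω hω P hP e he hei heP fun ω' hω' => ?_
  left
  intro x y h3 h4 h5
  by_contra h6
  obtain ⟨s1, s2, s3, s4, s5, s6⟩ := hC.tL f hfn hfi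
  obtain ⟨m1, m2, m3⟩ := hC.tLm f hfn hfi
  have hVD := hC.VD
  have hUm := hC.Um0
  have hUD := hC.UD
  have hee' := cla (P := P) hM hω' hC.LaF hee
  have hge := (hC.mono (P := P) hM hω' hC.LΛF hg).symm.trans hee'
  obtain ⟨x', q, g1, g2, g3, g4⟩ := hC.exitF hM hω hω' he hei (by omega) hge h3 h4 h5 h6
  exact Cht.hide_FL hC.hh (Ne.symm hC.neq) hC.H1
    (fun x y k3 k4 => by have := NL_H (κ := κ) x y k3 k4; omega)
    (hC.opp hM hω' (Ne.symm hC.neq)) hC.Um0 hgU hgV s3 hV m1 ht htV s1 s2 s5 m2 s6 m3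
    (tied_not' hM (Ne.symm hC.neq) hω hω' (hP hf) hfi hf (filter_subset _ _)) g1 g2 g3 g4

/-- (4) -/
theorem toggle_FFV (hM : Multi X W Bb B TT fm co Wl La b o)
    (hC : CnrW W Bb B TT Tn fm co Wl La Λ b o L iL iF κ h Um Vm D)
    (hT : VTogX V W Bb B TT fm co Wl Λ b) (hω : ω ⊆ B) (hP : P ⊆ TT)
    (he : e ∈ TT) (hei : fm e = iF) (heP : e ∉ P) (he0 : e0 ∈ Tn) (h0i : fm e0 = iF)
    (hee : Co (HS (co iF) (La iF) ω) (b e0) (b e)) (hf : f ∈ P) (hfn : f ∈ Tn)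
    (hfi : fm f = iF)
    (hg : Co (HS (co iF) L ω) (b e0) g) (hgU : κ.U (nd (co iF) g) = 0)
    (hgV : 1 ≤ κ.V (nd (co iF) g))
    (ht : Co (HS (co iF) L ω) (b f) t) (htU : κ.U (nd (co iF) t) = 0)
    (hV : κ.V (nd (co iF) g) ≤ κ.V (nd (co iF) t)) :
    V ω P = V ω (insert e P) := by
  refine hT iF (fun _ => hC.dF) ω hω P hP e he hei heP fun ω' hω' => ?_
  by_contra hcon
  rw [not_or] at hcon
  obtain ⟨h1, h2⟩ := hcon
  obtain ⟨r1, r2, r3, r4, r5⟩ := hC.tF e0 he0 h0i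
  obtain ⟨r1', r2', r3', r4', r5'⟩ := hC.tF f hfn hfi
  obtain ⟨m1, -, -⟩ := hC.tFm f hfn hfi
  have hVD := hC.VD
  have hUm := hC.Um0
  have hUD := hC.UD
  have mo : ∀ {p q}, Co (HS (co iF) L ω) p q →
      Co (HS (co iF) (Λ iF) (GS W TT fm co Wl iF P ω ω')) p q := fun h8 =>
    hC.mono hM hω' hC.LΛF h8
  have hee' := cla (P := P) hM hω' hC.LaF hee
  have hge := (mo hg).symm.trans hee'
  apply h2
  refine ⟨f, hf, hfi, hP hf, ?_⟩
  rcases eq_or_lt_of_le hV with h8 | h8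
  · have : g = t := nd_inj (c := co iF) (κ.inj (hgU.trans htU.symm) h8)
    subst this
    exact hge.symm.trans (mo ht.symm)
  · unfold Conf at h1
    push Not at h1
    obtain ⟨x, y, h3, h4, h5, h6⟩ := h1
    have hgD : κ.V (nd (co iF) g) ≤ D := by
      rcases hC.node hg with h9 | h9
      · rw [h9] at hgV; omega
      · omega
    obtain ⟨x', q, g1, g2, g3, g4⟩ := hC.exitF hM hω hω' he hei (by omega) hge h3 h4 h5 h6
    obtain ⟨w, k1, k2⟩ := Cht.hide_FF hC.hh hC.H1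
      (fun x y k3 k4 => by have := NL_H (κ := κ) x y k3 k4; omega)
      hC.Vm0 hgU hgV htU h8 ht.symm r3' m1 g1 g2 g3 g4
    exact hge.symm.trans ((NL_co k2).trans ((mo k1).symm.trans (mo ht.symm)))

/-- **One toggle of a tie of a lower class.** -/
theorem toggleV (hM : Multi X W Bb B TT fm co Wl La b o)
    (hC : CnrW W Bb B TT Tn fm co Wl La Λ b o L iL iF κ h Um Vm D)
    (hT : VTogX V W Bb B TT fm co Wl Λ b) (hω : ω ⊆ B) (hP : P ⊆ TT) {e1 e2 : ℤ × ℤ}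
    (hc1 : (hW Tn fm co b L iL iF κ ω (cls TT fm co La b ω e1)).Nonempty)
    (hc2 : (hW Tn fm co b L iL iF κ ω (cls TT fm co La b ω e2)).Nonempty)
    (hne : cls TT fm co La b ω e1 ≠ cls TT fm co La b ω e2)
    (hrk : rkW Tn fm co b L iL iF κ ω (cls TT fm co La b ω e1) ≤
      rkW Tn fm co b L iL iF κ ω (cls TT fm co La b ω e2))
    (hP2 : cls TT fm co La b ω e2 ⊆ P) (he : e ∈ cls TT fm co La b ω e1) (heP : e ∉ P) :
    V ω P = V ω (insert e P) := by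
  have heT : e ∈ TT := cls_sub he
  obtain ⟨v, hv⟩ := hc1
  have hvr : v ≤ rkW Tn fm co b L iL iF κ ω (cls TT fm co La b ω e2) := (hC.le_rk hv).trans hrk
  obtain ⟨f, hf, hfn, hfc⟩ := hC.rk_mem hc2
  obtain ⟨e0, he0, he0n, hv⟩ := hv
  have hfP : f ∈ P := hP2 hf
  obtain ⟨hfe, hee⟩ := cls_co he0 he
  have hce0 : cls TT fm co La b ω e0 = cls TT fm co La b ω e1 := cls_eq_of he0
  have hcf : cls TT fm co La b ω f = cls TT fm co La b ω e2 := cls_eq_of hf
  rcases hv with ⟨h2, -, hv⟩ | ⟨h2, g, h3, h4, h5, hv⟩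
  · -- `e0` at the left wall
    have hU := (hC.tL e0 he0n h2).2.2.1
    rw [h2] at hfe hee
    rcases hfc with ⟨g1, ⟨t2, k3, k4⟩, g2⟩ | ⟨g1, g, g3, g4, g5, g6⟩
    · -- `f` at the left wall
      have hU2 := (hC.tL f hfn g1).2.2.1
      refine hC.toggle_LLV hM hT hω hP heT hfe heP he0n h2 hee hfP hfn g1 ?_ k3 k4
      refine lt_of_le_of_ne (by omega) fun h8 => hne ?_
      have h9 : b e0 = b f := nd_inj (c := co iL) (κ.inj (hU.trans hU2.symm) h8)
      have h10 : f ∈ cls TT fm co La b ω e0 :=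
        mem_cls.2 ⟨⟨cls_sub hf, g1.trans h2.symm⟩, by rw [h9]; exact Co.refl _ _⟩
      rw [← hce0, ← hcf, (cls_eq_of h10)]
    · -- `f` at the floor
      refine hC.toggle_LFV hM hT hω hP heT hfe heP he0n h2 hee hfP hfn g1 g3 g4 ?_
      have := hC.parity hU g4
      omega
  · -- `e0` at the floor
    rw [h2] at hfe hee
    rcases hfc with ⟨g1, ⟨t2, k3, k4⟩, g2⟩ | ⟨g1, g', g3, g4, g5, g6⟩
    · have hU2 := (hC.tL f hfn g1).2.2.1
      refine hC.toggle_FLV hM hT hω hP heT hfe heP hee hfP hfn g1 h3 h4 h5 ?_ k3 k4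
      have := hC.parity hU2 h4
      omega
    · exact hC.toggle_FFV hM hT hω hP heT hfe heP he0n h2 hee hfP hfn g1 h3 h4 h5 g3 g4 (by omega)

/-- toggling all ties of a lower class -/
theorem toggle_setV (hM : Multi X W Bb B TT fm co Wl La b o)
    (hC : CnrW W Bb B TT Tn fm co Wl La Λ b o L iL iF κ h Um Vm D)
    (hT : VTogX V W Bb B TT fm co Wl Λ b) (hω : ω ⊆ B) (hP : P ⊆ TT) {e1 e2 : ℤ × ℤ}
    (hc1 : (hW Tn fm co b L iL iF κ ω (cls TT fm co La b ω e1)).Nonempty)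
    (hc2 : (hW Tn fm co b L iL iF κ ω (cls TT fm co La b ω e2)).Nonempty)
    (hne : cls TT fm co La b ω e1 ≠ cls TT fm co La b ω e2)
    (hrk : rkW Tn fm co b L iL iF κ ω (cls TT fm co La b ω e1) ≤
      rkW Tn fm co b L iL iF κ ω (cls TT fm co La b ω e2))
    (hP2 : cls TT fm co La b ω e2 ⊆ P) :
    ∀ S ⊆ cls TT fm co La b ω e1, Disjoint S P →
      V ω (S ∪ P) = V ω P := by
  intro S
  induction S using Finset.induction_on with
  | empty => intro _ _; rw [empty_union]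
  | insert x S hx ih =>
    intro hS hd
    have h1 : S ⊆ cls TT fm co La b ω e1 := (subset_insert _ _).trans hS
    have h2 : x ∈ cls TT fm co La b ω e1 := hS (mem_insert_self _ _)
    rw [insert_union, ← ih h1 (hd.mono_left (subset_insert _ _))]
    symm
    refine hC.toggleV hM hT hω (union_subset (h1.trans cls_sub) hP) hc1 hc2 hne hrk
      (hP2.trans subset_union_right) h2 ?_
    rw [mem_union, not_or]
    exact ⟨hx, disjoint_left.1 hd (mem_insert_self _ _)⟩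

/-- **Hiding lemma for classes.** -/
theorem shV (hM : Multi X W Bb B TT fm co Wl La b o)
    (hC : CnrW W Bb B TT Tn fm co Wl La Λ b o L iL iF κ h Um Vm D)
    (hT : VTogX V W Bb B TT fm co Wl Λ b) (hω : ω ⊆ B)
    {A : Finset (Finset (ℤ × ℤ))} {i j : Finset (ℤ × ℤ)}
    (hi : i ∈ CMW W TT Tn fm co Wl La b o L iL iF κ ω)
    (hj : j ∈ CMW W TT Tn fm co Wl La b o L iL iF κ ω) (hjA : j ∉ A) (hij : i ≠ j)
    (hrk : rkW Tn fm co b L iL iF κ ω i ≤ rkW Tn fm co b L iL iF κ ω j) :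
    V ω (unc TT fm co La b ω (insert i A)) =
      V ω (unc TT fm co La b ω A) := by
  classical
  obtain ⟨hi1, hc1⟩ := mem_CMW.1 hi
  obtain ⟨hj1, hc2⟩ := mem_CMW.1 hj
  obtain ⟨e1, he1, rfl⟩ := mem_image.1 hi1
  obtain ⟨e2, he2, rfl⟩ := mem_image.1 hj1
  set P := unc TT fm co La b ω (insert (cls TT fm co La b ω e1) A) with hP
  have hPT : P ⊆ TT := filter_subset _ _
  have hP2 : cls TT fm co La b ω e2 ⊆ P := by
    intro e he
    rw [hP]
    unfold unc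
    rw [mem_filter, mem_insert, not_or, cls_eq_of he]
    exact ⟨cls_sub he, Ne.symm hij, hjA⟩
  have key := hC.toggle_setV hM hT hω hPT hc1 hc2 hij hrk hP2
    ((cls TT fm co La b ω e1) \ P ∩ unc TT fm co La b ω A)
    (inter_subset_left.trans sdiff_subset)
    (disjoint_left.2 fun l h1 h2 => (mem_sdiff.1 (mem_inter.1 h1).1).2 h2)
  rw [← key]
  congr 1
  ext l
  rw [mem_union, mem_inter, mem_sdiff, hP]
  unfold unc
  simp only [mem_filter, mem_insert, not_or]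
  constructor
  · rintro (⟨-, h1⟩ | ⟨h1, h2, h3⟩)
    · exact h1
    · exact ⟨h1, h3⟩
  · rintro ⟨h1, h2⟩
    by_cases h3 : cls TT fm co La b ω l = cls TT fm co La b ω e1
    · left
      refine ⟨⟨?_, fun h4 => h4.2.1 h3⟩, h1, h2⟩
      rw [← h3]; exact self_cls h1
    · right; exact ⟨h1, h3, h2⟩

/-- **A class below a permanently tied class has no influence.** -/
theorem irrV (hM : Multi X W Bb B TT fm co Wl La b o)
    (hC : CnrW W Bb B TT Tn fm co Wl La Λ b o L iL iF κ h Um Vm D)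
    (hT : VTog V W B TT fm co Wl La b o) (hT' : VTogX V W Bb B TT fm co Wl Λ b)
    (hω : ω ⊆ B) {A : Finset (Finset (ℤ × ℤ))} {i : Finset (ℤ × ℤ)} {e2 : ℤ × ℤ}
    (hi : i ∈ CMW W TT Tn fm co Wl La b o L iL iF κ ω) (he2T : e2 ∈ TT)
    (hc2 : (hW Tn fm co b L iL iF κ ω (cls TT fm co La b ω e2)).Nonempty)
    (hf2 : fre W TT fm co Wl La b o ω e2) (hij : i ≠ cls TT fm co La b ω e2)
    (hrk : rkW Tn fm co b L iL iF κ ω i ≤ rkW Tn fm co b L iL iF κ ω (cls TT fm co La b ω e2)) :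
    V ω (unc TT fm co La b ω (insert i A)) =
      V ω (unc TT fm co La b ω A) := by
  classical
  obtain ⟨hi1, hc1⟩ := mem_CMW.1 hi
  obtain ⟨e1, he1, rfl⟩ := mem_image.1 hi1
  have hd : Disjoint (cls TT fm co La b ω e1) (cls TT fm co La b ω e2) := by
    rw [disjoint_left]
    intro l h1 h2
    exact hij ((cls_eq_of h1).symm.trans (cls_eq_of h2))
  set P := unc TT fm co La b ω (insert (cls TT fm co La b ω e1) A) with hP
  have hPT : P ⊆ TT := filter_subset _ _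
  set S := (cls TT fm co La b ω e1) \ P ∩ unc TT fm co La b ω A with hS
  have hSP : S ∪ P = unc TT fm co La b ω A := by
    ext l
    rw [hS, mem_union, mem_inter, mem_sdiff, hP]
    unfold unc
    simp only [mem_filter, mem_insert, not_or]
    constructor
    · rintro (⟨-, h1⟩ | ⟨h1, h2, h3⟩)
      · exact h1
      · exact ⟨h1, h3⟩
    · rintro ⟨h1, h2⟩
      by_cases h3 : cls TT fm co La b ω l = cls TT fm co La b ω e1
      · left
        refine ⟨⟨?_, fun h4 => h4.2.1 h3⟩, h1, h2⟩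
        rw [← h3]; exact self_cls h1
      · right; exact ⟨h1, h3, h2⟩
  have key := hC.toggle_setV hM hT' hω (P := cls TT fm co La b ω e2 ∪ P)
    (union_subset cls_sub hPT) hc1 hc2 hij hrk subset_union_left S
    (inter_subset_left.trans sdiff_subset)
    (disjoint_left.2 fun l h1 h2 => by
      have h3 := mem_sdiff.1 (mem_inter.1 h1).1
      rcases mem_union.1 h2 with h4 | h4
      · exact disjoint_left.1 hd h3.1 h4
      · exact h3.2 h4)
  have k1 := toggle_freeV hM hT hω he2T hf2 (P := P) hPT _ (Subset.refl _)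
  have k2 := toggle_freeV hM hT hω he2T hf2 (P := S ∪ P)
    (by rw [hSP]; exact filter_subset _ _) _ (Subset.refl _)
  rw [← hSP, ← k2, ← k1, ← key, union_left_comm]

end CnrW

end Pool.Agent.H40.Sp
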