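import Mathlib
import Pool.Agent.H40.Sp.CnrG
import Pool.Agent.H40.W.CnrV

set_option autoImplicit false
open Finset

/-! # Macroscopic classes of a window, abstract functional -/

namespace Pool.Agent.H40.Sp

open Pool.Agent.H75.Perc Pool.Agent.H75.TwoArm Pool.Agent.H75.Four Pool.Agent.H69.Q1
open Pool.Agent.Q1 Pool.Agent.H25.Q1.Add Pool.Agent.H99.NC Pool.Agent.H49.Perc
open Pool.Agent.H20.Q1 (Eh CS hf)
open Pool.Agent.H39.Q1 hiding hide_LL hide_LF hide_FL hide_FF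
open Pool.Agent.H39.R45 (UM mem_UM UM_mono img_disj cls_of_mem Uc mem_Uc Uc_mono)
open Pool.Agent.H15.W

variable {ι : Type*} [DecidableEq ι]
  {X : Env} {W Bb B TT Tn ω ω' θ P k k' k1 k2 n m m' : Finset (ℤ × ℤ)}
  {fm : ℤ × ℤ → ι} {co : ι → Bool} {Wl La Λ : ι → Finset (ℤ × ℤ)}
  {b o : ℤ × ℤ → ℤ × ℤ} {V : Finset (ℤ × ℤ) → Finset (ℤ × ℤ) → ℂ} {s : ℤ × ℤ → ℂ}
  {e e0 f x y g g1 g2 t u : ℤ × ℤ} {i : ι}
  {L : Finset (ℤ × ℤ)} {iL iF : ι} {κ : Cht} {h ρ Um Vm D : ℤ}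

/-- classes without influence -/
noncomputable def IMV (V : Finset (ℤ × ℤ) → Finset (ℤ × ℤ) → ℂ) (W TT : Finset (ℤ × ℤ))
    (fm : ℤ × ℤ → ι) (co : ι → Bool) (Wl La : ι → Finset (ℤ × ℤ)) (b o : ℤ × ℤ → ℤ × ℤ)
    (ω : Finset (ℤ × ℤ)) : Finset (Finset (ℤ × ℤ)) :=
  Ir (JM W TT fm co Wl La b o ω) (fun A => V ω (unc TT fm co La b ω A))

/-- a class below a class without influence has no influence -/
lemma CnrW.downV (hM : Multi X W Bb B TT fm co Wl La b o)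
    (hC : CnrW W Bb B TT Tn fm co Wl La Λ b o L iL iF κ h Um Vm D)
    (hT' : VTogX V W Bb B TT fm co Wl Λ b) (hω : ω ⊆ B)
    (hk : k ∈ CMW W TT Tn fm co Wl La b o L iL iF κ ω)
    (hk' : k' ∈ CMW W TT Tn fm co Wl La b o L iL iF κ ω)
    (hI : k' ∈ IMV V W TT fm co Wl La b o ω) (hne : k ≠ k')
    (hrk : rkW Tn fm co b L iL iF κ ω k ≤ rkW Tn fm co b L iL iF κ ω k') :
    k ∈ IMV V W TT fm co Wl La b o ω :=
  Ir_down (CMW_sub hk) hI fun _ _ _ hA => hC.shV hM hT' hω hk hk' hA hne hrk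

/-- a class of a tie near the corner with a higher touching point is in the chain -/
lemma CnrW.higherV (hM : Multi X W Bb B TT fm co Wl La b o)
    (hC : CnrW W Bb B TT Tn fm co Wl La Λ b o L iL iF κ h Um Vm D)
    (hT : VTog V W B TT fm co Wl La b o) (hT' : VTogX V W Bb B TT fm co Wl Λ b)
    (hω : ω ⊆ B)
    (hk : k ∈ CMW W TT Tn fm co Wl La b o L iL iF κ ω \ IMV V W TT fm co Wl La b o ω)
    (hf : f ∈ Tn) {v : ℤ} (hv : v ∈ hW Tn fm co b L iL iF κ ω (cls TT fm co La b ω f))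
    (hlt : rkW Tn fm co b L iL iF κ ω k < v) :
    cls TT fm co La b ω f ∈ CMW W TT Tn fm co Wl La b o L iL iF κ ω \
      IMV V W TT fm co Wl La b o ω ∧
    rkW Tn fm co b L iL iF κ ω k < rkW Tn fm co b L iL iF κ ω (cls TT fm co La b ω f) := by
  classical
  obtain ⟨hkC, hkI⟩ := mem_sdiff.1 hk
  have hfT := hC.tn hf
  have hlt' : rkW Tn fm co b L iL iF κ ω k < rkW Tn fm co b L iL iF κ ω
      (cls TT fm co La b ω f) := lt_of_lt_of_le hlt (hC.le_rk hv)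
  have hne : k ≠ cls TT fm co La b ω f := fun h1 => by
    rw [← h1] at hlt'; exact lt_irrefl _ hlt'
  refine ⟨?_, hlt'⟩
  by_cases hf' : fre W TT fm co Wl La b o ω f
  · refine absurd (mem_Ir.2 ⟨CMW_sub hkC, fun A _ _ => ?_⟩) hkI
    exact hC.irrV hM hT hT' hω hkC hfT ⟨v, hv⟩ hf' hne hlt'.le
  · have hJ' : cls TT fm co La b ω f ∈ JM W TT fm co Wl La b o ω :=
      mem_image_of_mem _ (mem_filter.2 ⟨hfT, hf'⟩)
    have hC' : cls TT fm co La b ω f ∈ CMW W TT Tn fm co Wl La b o L iL iF κ ω :=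
      CnrW.mem_CMW.2 ⟨hJ', ⟨v, hv⟩⟩
    refine mem_sdiff.2 ⟨hC', fun hI' => hkI ?_⟩
    exact hC.downV hM hT' hω hkC hC' hI' hne hlt'.le

namespace CnrN

/-- **A class of the chain has size at least `ρ` or there is a higher class of the other family with
a tie at distance at most `2 ρ` from the corner.** -/
theorem mac_or_rhoV (hρ : ρ ≤ h) (hM : Multi X W Bb B TT fm co Wl La b o)
    (hC : CnrW W Bb B TT Tn fm co Wl La Λ b o L iL iF κ h Um Vm D)
    (hD : CnrN TT Tn fm co La b L iL iF κ h)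
    (hT : VTog V W B TT fm co Wl La b o) (hT' : VTogX V W Bb B TT fm co Wl Λ b)
    (hω : ω ⊆ B) (hS : κ.Sur ρ L ω)
    (hk : k ∈ CMW W TT Tn fm co Wl La b o L iL iF κ ω \ IMV V W TT fm co Wl La b o ω) :
    (∃ e ∈ k, Mac fm co La b 1 0 0 ρ ω e) ∨
    ∃ k' ∈ CMW W TT Tn fm co Wl La b o L iL iF κ ω \ IMV V W TT fm co Wl La b o ω,
      rkW Tn fm co b L iL iF κ ω k < rkW Tn fm co b L iL iF κ ω k' ∧
        (∀ e ∈ k, ∀ e' ∈ k', co (fm e') ≠ co (fm e)) ∧ ∃ e' ∈ k',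
          (0 ≤ κ.U (nd (co (fm e')) (b e')) ∧ κ.U (nd (co (fm e')) (b e')) ≤ 2 * ρ) ∧
          0 ≤ κ.V (nd (co (fm e')) (b e')) ∧ κ.V (nd (co (fm e')) (b e')) ≤ 2 * ρ := by
  classical
  have hh := hC.hh
  have hkC := (mem_sdiff.1 hk).1
  obtain ⟨hkJ, v0, hv0⟩ := CnrW.mem_CMW.1 hkC
  have hki := JM_img hkJ
  have hne : (hW Tn fm co b L iL iF κ ω k).Nonempty := ⟨v0, hv0⟩
  obtain ⟨e0, he0, he0n, hv0⟩ := hv0
  rw [or_iff_not_imp_left]
  intro hcon
  push Not at hcon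
  have he0T := mem_TT hki he0
  have hn := not_Mac (κ := κ) (hcon e0 he0)
  obtain ⟨f1, hf1, hf1n, hf1v⟩ := hC.rk_mem hne
  obtain ⟨hf1f, hf1c⟩ := mem_two hki he0 hf1
  rcases hv0 with ⟨hi, ⟨t, ht, htV⟩, -⟩ | ⟨hi, g, hg, hgU, hgV, -⟩
  · -- left wall family
    rw [hi] at hn hf1f hf1c
    have hL := hC.tL e0 he0n hi
    have hLa : ∀ x, Co (HS (co iL) L ω) (b e0) x → Co (HS (co iL) (La iL) ω) (b e0) x := by
      intro x hx
      refine co_layer (f := κ.U) (h := h) ?_ hD.laL ?_ hx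
      · intro p q hpq
        have := κ.unit_UV hpq
        omega
      · intro x hx
        have h1 := (hn x hx).1
        rw [abs_lt, hL.2.2.1] at h1
        omega
    have hb : 0 ≤ κ.U (nd (co iL) (b e0)) ∧ 0 ≤ κ.V (nd (co iL) (b e0)) := by
      rw [hL.2.2.1]; exact ⟨le_rfl, by have := hL.2.2.2.1; omega⟩
    have htL := hn t (hLa t ht)
    rw [abs_lt, abs_lt, hL.2.2.1, htV] at htL
    have hLa' : ∀ x, Co (HS (co iL) (La iL) ω) (b e0) x → Co (HS (co iL) L ω) (b e0) x := by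
      intro x hx
      refine co_LaL (hD.laN iL (Or.inl rfl)) (fun y hy => ?_) hx
      have h2 := hn y hy
      rw [abs_lt, abs_lt, hL.2.2.1] at h2
      have g1 : |κ.U (nd (co iL) y)| ≤ h := by rw [abs_le]; omega
      have g2 : |κ.V (nd (co iL) y)| ≤ 2 * h := by rw [abs_le]; omega
      omega
    have hsm : ∀ x, Co (HS (co iL) L ω) (b e0) x →
        κ.U (nd (co iL) x) < 2 * ρ ∧ κ.V (nd (co iL) x) < 2 * ρ := by
      intro x hx
      have h1 := hn x (hLa x hx)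
      rw [abs_lt, abs_lt, hL.2.2.1] at h1
      omega
    obtain ⟨g, f, g1, g2, g3, g4, -, g6, g7⟩ := hS (co iL) (co iF) hC.neq (b e0) t hL.2.2.1 hb.2 ht
      htV hsm
    have hg0 := hb.2
    have hgV : 1 ≤ κ.V (nd (co iF) g) := by
      have := g4 (b e0) (Co.refl _ _) hL.2.2.1
      omega
    have hfU : 0 ≤ κ.U (nd (co iF) f) := by
      rcases hC.node g1 with h1 | h1
      · rw [h1, g2]
      · exact h1.1.1
    obtain ⟨f', hf', hf'i, hbf⟩ := hD.fullF f g3 hfU (by omega)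
    have hf'T := hC.tn hf'
    have hgf : Co (HS (co iF) L ω) (b f') g := by rw [hbf]; exact g1.symm
    have hv : κ.V (nd (co iF) g) ∈ hW Tn fm co b L iL iF κ ω (cls TT fm co La b ω f') :=
      ⟨f', self_cls hf'T, hf', Or.inr ⟨hf'i, g, hgf, g2, hgV, rfl⟩⟩
    have hlt : rkW Tn fm co b L iL iF κ ω k < κ.V (nd (co iF) g) := by
      rcases hf1v with ⟨k1, -, k2⟩ | ⟨k1, -⟩
      · rw [k2]
        exact g4 (b f1) (hLa' _ hf1c) (hC.tL f1 hf1n k1).2.2.1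
      · exact absurd (hf1f.symm.trans k1) hC.ine
    obtain ⟨k1, k2⟩ := hC.higherV hM hT hT' hω hk hf' hv hlt
    refine ⟨_, k1, k2, fun e he e' he' => ?_, f', self_cls hf'T, ?_⟩
    · rw [(mem_cls.1 he').1.2, hf'i, (mem_two hki he0 he).1, hi]
      exact Ne.symm hC.neq
    · rw [hf'i, hbf, g3]
      exact ⟨⟨hfU, g7⟩, le_rfl, by omega⟩
  · -- floor family
    rw [hi] at hn hf1f hf1c
    have hF := hC.tF e0 he0n hi
    have hLa : ∀ x, Co (HS (co iF) L ω) (b e0) x → Co (HS (co iF) (La iF) ω) (b e0) x := by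
      intro x hx
      refine co_layer (f := κ.V) (h := h) ?_ hD.laF ?_ hx
      · intro p q hpq
        have := κ.unit_UV hpq
        omega
      · intro x hx
        have h1 := (hn x hx).2
        rw [abs_lt, hF.2.2.1] at h1
        omega
    have hgL := hn g (hLa g hg)
    rw [abs_lt, abs_lt, hF.2.2.1, hgU] at hgL
    have hLa' : ∀ x, Co (HS (co iF) (La iF) ω) (b e0) x → Co (HS (co iF) L ω) (b e0) x := by
      intro x hx
      refine co_LaL (hD.laN iF (Or.inr rfl)) (fun y hy => ?_) hx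
      have h2 := hn y hy
      rw [abs_lt, abs_lt, hF.2.2.1] at h2
      have g1 : |κ.V (nd (co iF) y)| ≤ h := by rw [abs_le]; omega
      have g2 : |κ.U (nd (co iF) y)| ≤ 2 * h := by rw [abs_le]; omega
      omega
    have hsm : ∀ x, Co (HS (co iF) L ω) g x →
        κ.U (nd (co iF) x) < 2 * ρ ∧ κ.V (nd (co iF) x) < 2 * ρ := by
      intro x hx
      have h1 := hn x (hLa x (hg.trans hx))
      rw [abs_lt, abs_lt, hF.2.2.1] at h1
      omega
    obtain ⟨g', f', g1, g2, g3, g4, -, g6, g7⟩ := hS (co iF) (co iL) (Ne.symm hC.neq) g (b e0) hgU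
      (by omega) hg.symm hF.2.2.1 hsm
    have hgV' : 1 ≤ κ.V (nd (co iL) g') := by
      have := g4 g (Co.refl _ _) hgU
      omega
    obtain ⟨e', he', he'i, hbe⟩ := hD.fullL g' g2 hgV' (by omega)
    have he'T := hC.tn he'
    have hv : κ.V (nd (co iL) g') ∈ hW Tn fm co b L iL iF κ ω (cls TT fm co La b ω e') :=
      ⟨e', self_cls he'T, he', Or.inl ⟨he'i, ⟨f', by rw [hbe]; exact g1, g3⟩, by rw [hbe]⟩⟩
    have hlt : rkW Tn fm co b L iL iF κ ω k < κ.V (nd (co iL) g') := by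
      rcases hf1v with ⟨k1, -⟩ | ⟨k1, g3', k3, k4, k5, k2⟩
      · exact absurd (k1.symm.trans hf1f) hC.ine
      · rw [k2]
        exact g4 g3' (hg.symm.trans ((hLa' _ hf1c).trans k3)) k4
    obtain ⟨k1, k2⟩ := hC.higherV hM hT hT' hω hk he' hv hlt
    refine ⟨_, k1, k2, fun e he e'' he'' => ?_, e', self_cls he'T, ?_⟩
    · rw [(mem_cls.1 he'').1.2, he'i, (mem_two hki he0 he).1, hi]
      exact hC.neq
    · rw [he'i, hbe, g2]
      exact ⟨⟨le_rfl, by omega⟩, by omega, g6⟩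

/-- the top of the chain has size `ρ` -/
theorem mac_topV (hρ : ρ ≤ h) (hM : Multi X W Bb B TT fm co Wl La b o)
    (hC : CnrW W Bb B TT Tn fm co Wl La Λ b o L iL iF κ h Um Vm D)
    (hD : CnrN TT Tn fm co La b L iL iF κ h)
    (hT : VTog V W B TT fm co Wl La b o) (hT' : VTogX V W Bb B TT fm co Wl Λ b)
    (hω : ω ⊆ B) (hS : κ.Sur ρ L ω)
    (hk : k ∈ tops (rkW Tn fm co b L iL iF κ ω) (CMW W TT Tn fm co Wl La b o L iL iF κ ω \
      IMV V W TT fm co Wl La b o ω)) :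
    ∃ e ∈ k, Mac fm co La b 1 0 0 ρ ω e := by
  obtain ⟨hk1, hmax⟩ := mem_tops.1 hk
  rcases hD.mac_or_rhoV hρ hM hC hT hT' hω hS hk1 with h1 | ⟨k', h1, h2, -⟩
  · exact h1
  · have := hmax k' h1
    omega

/-- the second class of the chain has size `ρ` or the first one has a tie near the corner -/
theorem near_secondV (hρ : ρ ≤ h) (hM : Multi X W Bb B TT fm co Wl La b o)
    (hC : CnrW W Bb B TT Tn fm co Wl La Λ b o L iL iF κ h Um Vm D)
    (hD : CnrN TT Tn fm co La b L iL iF κ h)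
    (hT : VTog V W B TT fm co Wl La b o) (hT' : VTogX V W Bb B TT fm co Wl Λ b)
    (hω : ω ⊆ B) (hS : κ.Sur ρ L ω)
    (hm : m ∈ tops (rkW Tn fm co b L iL iF κ ω) ((CMW W TT Tn fm co Wl La b o L iL iF κ ω \
      IMV V W TT fm co Wl La b o ω).erase n)) :
    (∃ e ∈ m, Mac fm co La b 1 0 0 ρ ω e) ∨ ∃ e' ∈ n,
      (0 ≤ κ.U (nd (co (fm e')) (b e')) ∧ κ.U (nd (co (fm e')) (b e')) ≤ 2 * ρ) ∧
      0 ≤ κ.V (nd (co (fm e')) (b e')) ∧ κ.V (nd (co (fm e')) (b e')) ≤ 2 * ρ := by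
  obtain ⟨hm1, hmax⟩ := mem_tops.1 hm
  obtain ⟨hmn, hm2⟩ := mem_erase.1 hm1
  rcases hD.mac_or_rhoV hρ hM hC hT hT' hω hS hm2 with h1 | ⟨k', h1, h2, -, h4⟩
  · exact Or.inl h1
  · right
    by_cases hkn : k' = n
    · rw [← hkn]; exact h4
    · have := hmax k' (mem_erase.2 ⟨hkn, h1⟩)
      omega

end CnrN

end Pool.Agent.H40.Sp
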