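import Mathlib
import Pool.Agent.H40.Sp.ErrW
import Pool.Agent.H40.W.CnrGV
import Pool.Agent.H15.W.C.Adm
import Pool.Agent.H39.W.Fun

set_option autoImplicit false
open Finset

/-! # The first order expansion for a window with several marked corners, abstract functional

`CrW.firstV` : first order expansion, `CrW.err_meanV` : its error in terms of the number of macroscopic
classes without marks, `CrW.DV_mac` : a class with a response is macroscopic. -/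

namespace Pool.Agent.H40.Sp

open Pool.Agent.H75.Perc Pool.Agent.H75.TwoArm Pool.Agent.H75.Four Pool.Agent.H69.Q1
open Pool.Agent.Q1 Pool.Agent.H25.Q1.Add Pool.Agent.H99.NC Pool.Agent.H49.Perc
open Pool.Agent.H20.Q1 (Eh CS hf)
open Pool.Agent.H39.Q1 hiding hide_LL hide_LF hide_FL hide_FF
open Pool.Agent.H39.R45 (UM mem_UM UM_mono img_disj cls_of_mem Uc mem_Uc Uc_mono sum_ge2_le
  sum_pair_le three_pow qE qE_pb Ex_qE)
open Pool.Agent.H15.W

variable {ι γ : Type*} [DecidableEq ι] [DecidableEq γ]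
  {X : Env} {W Bb B TT ω ω' θ P k n m : Finset (ℤ × ℤ)}
  {fm : ℤ × ℤ → ι} {co : ι → Bool} {Wl La : ι → Finset (ℤ × ℤ)}
  {b o : ℤ × ℤ → ℤ × ℤ} {V : Finset (ℤ × ℤ) → Finset (ℤ × ℤ) → ℂ} {s : ℤ × ℤ → ℂ}
  {e x y : ℤ × ℤ} {h ρ : ℤ}
  {Γ : Finset γ} {Tn : γ → Finset (ℤ × ℤ)} {Λ : γ → ι → Finset (ℤ × ℤ)}
  {L : γ → Finset (ℤ × ℤ)} {iL iF : γ → ι} {κ : γ → Cht} {Um Vm D : γ → ℤ} {M K : ℝ}

/-- the chains -/
noncomputable def CCV (V : Finset (ℤ × ℤ) → Finset (ℤ × ℤ) → ℂ) (W TT : Finset (ℤ × ℤ))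
    (fm : ℤ × ℤ → ι) (co : ι → Bool) (Wl La : ι → Finset (ℤ × ℤ)) (b o : ℤ × ℤ → ℤ × ℤ)
    (Tn : γ → Finset (ℤ × ℤ)) (L : γ → Finset (ℤ × ℤ)) (iL iF : γ → ι) (κ : γ → Cht)
    (ω : Finset (ℤ × ℤ)) (c : γ) : Finset (Finset (ℤ × ℤ)) :=
  CMW W TT (Tn c) fm co Wl La b o (L c) (iL c) (iF c) (κ c) ω \ IMV V W TT fm co Wl La b o ω

/-- the error of the first order expansion -/
noncomputable def ErV (V : Finset (ℤ × ℤ) → Finset (ℤ × ℤ) → ℂ) (W TT : Finset (ℤ × ℤ))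
    (fm : ℤ × ℤ → ι) (co : ι → Bool) (Wl La : ι → Finset (ℤ × ℤ)) (b o : ℤ × ℤ → ℤ × ℤ)
    (Γ : Finset γ) (Tn : γ → Finset (ℤ × ℤ)) (L : γ → Finset (ℤ × ℤ)) (iL iF : γ → ι)
    (κ : γ → Cht) (s : ℤ × ℤ → ℂ) (M K : ℝ) (ω : Finset (ℤ × ℤ)) : ℝ :=
  chErrS (fun k => ∏ e ∈ k, s e)
    (fun c => rkW (Tn c) fm co b (L c) (iL c) (iF c) (κ c) ω)
    (JM W TT fm co Wl La b o ω \ IMV V W TT fm co Wl La b o ω) Γ
    (CCV V W TT fm co Wl La b o Tn L iL iF κ ω) M K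

/-- **First order expansion of a window with several marked corners.** -/
theorem CrW.firstV (hM : Multi X W Bb B TT fm co Wl La b o) {rk : ℤ × ℤ → ℤ}
    (hC : CrW W Bb B TT fm co Wl La b o h Γ Tn Λ L iL iF κ Um Vm D)
    (hT : VTog V W B TT fm co Wl La b o)
    (hT' : ∀ g ∈ Γ, VTogX V W Bb B TT fm co Wl (Λ g) b)
    (hrk : ∀ e ∈ TT, ∀ e' ∈ TT, rk e = rk e' → e = e') (hK : 1 ≤ K)
    (hs1 : ∀ e ∈ TT, ‖s e‖ ≤ 1) (hs2 : ∀ e ∈ TT, ‖1 - s e‖ ≤ K * (1 - ‖s e‖))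
    (hM' : ∀ ω ⊆ B, ∀ P ⊆ TT, ‖V ω P‖ ≤ M) :
    ‖TotV V B TT s - Tot0V V B TT -
      ∑ e ∈ TT, Eh B (fun ω => FT (TF TT fm (fm e)) b rk s e (SM TT fm co La b e ω) *
        DV V TT fm co La b e ω)‖ ≤
      Ex hf B (ErV V W TT fm co Wl La b o Γ Tn L iL iF κ s M K) := by
  classical
  set U : Finset (ℤ × ℤ) → Finset (Finset (ℤ × ℤ)) → ℂ :=
    fun ω A => V ω (unc TT fm co La b ω A) with hU
  have e1 : TotV V B TT s = Eh B (fun ω =>
      cE (fun k => ∏ e ∈ k, s e) (JM W TT fm co Wl La b o ω) (U ω)) := by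
    unfold TotV
    refine Ec_congr fun ω hω => ?_
    rw [hU]
    simp only
    rw [← Pool.Agent.H39.W.classesV hT hω]
  have e2 : Tot0V V B TT = Eh B (fun ω => U ω ∅) := by
    unfold Tot0V
    refine Ec_congr fun ω hω => ?_
    rw [hU]
    simp only
    rw [unc_empty]
  have e3 : (∑ e ∈ TT, Eh B (fun ω => FT (TF TT fm (fm e)) b rk s e
        (SM TT fm co La b e ω) * DV V TT fm co La b e ω)) =
      Eh B (fun ω => ∑ k ∈ JM W TT fm co Wl La b o ω, (∏ e ∈ k, s e) *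
        (U ω {k} - U ω ∅)) := by
    symm
    refine (Ec_congr fun ω hω => Pool.Agent.H39.W.sum_firstV (s := s) hM hT hω hrk).trans ?_
    exact Ec_sum _ _ _ _
  rw [e1, e2, e3]
  rw [← Ec_sub, ← Ec_sub]
  refine Ec_half_norm fun ω hω => ?_
  have hcT : ∀ k ∈ JM W TT fm co Wl La b o ω, k ⊆ TT := by
    intro k hk
    obtain ⟨e, -, rfl⟩ := mem_image.1 hk
    exact cls_sub
  refine first_chains' (J := JM W TT fm co Wl La b o ω) (F := U ω) (Γ := Γ)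
    (C := fun c => CMW W TT (Tn c) fm co Wl La b o (L c) (iL c) (iF c) (κ c) ω)
    (fun c _ => CMW_sub) hK ?_ ?_ ?_ ?_
  · intro c _ k hk
    exact (stolz_prod (K := K) (fun e he => hs1 e (hcT k (CMW_sub hk) he))
      (fun e he => hs2 e (hcT k (CMW_sub hk) he))).1
  · intro c _ k hk
    exact (stolz_prod (K := K) (fun e he => hs1 e (hcT k (CMW_sub hk) he))
      (fun e he => hs2 e (hcT k (CMW_sub hk) he))).2
  · intro A _
    exact hM' ω hω _ (filter_subset _ _)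
  · intro c hcΓ A _ i hi j hj _ hjA hij hr
    exact (hC.cnr c hcΓ).shV hM (hT' c hcΓ) hω hi hj hjA hij hr

namespace CrW

/-- **number of pairs of classes without marks** -/
theorem pairs_leV (hρ : ρ ≤ h) (hM : Multi X W Bb B TT fm co Wl La b o)
    (hC : CrW W Bb B TT fm co Wl La b o h Γ Tn Λ L iL iF κ Um Vm D)
    (hT : VTog V W B TT fm co Wl La b o)
    (hT' : ∀ g ∈ Γ, VTogX V W Bb B TT fm co Wl (Λ g) b) (hω : ω ⊆ B) {c : γ} (hcΓ : c ∈ Γ)
    (hS : (κ c).Sur h (L c) ω) (hSρ : (κ c).Sur ρ (L c) ω) {C : Finset (Finset (ℤ × ℤ))}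
    (hCdef : C = CCV V W TT fm co Wl La b o Tn L iL iF κ ω c) :
    ∑ n ∈ Uc (tops (rkW (Tn c) fm co b (L c) (iL c) (iF c) (κ c) ω) C) P,
      ((Uc (tops (rkW (Tn c) fm co b (L c) (iL c) (iF c) (κ c) ω) (C.erase n)) P).card : ℝ) ≤
      3 ^ (UM TT fm co La b 1 0 0 h ω P).card * ind (2 ≤ (UM TT fm co La b 1 0 0 h ω P).card) +
      ind (2 ≤ (UM TT fm co La b 1 0 0 ρ ω P).card ∨ NZW TT fm co La b h ρ Γ κ ω P) := by
  classical
  set rk := rkW (Tn c) fm co b (L c) (iL c) (iF c) (κ c) ω with hrk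
  set UH := UM TT fm co La b 1 0 0 h ω P with hUH
  set bad := 2 ≤ (UM TT fm co La b 1 0 0 ρ ω P).card ∨ NZW TT fm co La b h ρ Γ κ ω P with hbad
  have hCC : C ⊆ CMW W TT (Tn c) fm co Wl La b o (L c) (iL c) (iF c) (κ c) ω := by
    rw [hCdef]; exact sdiff_subset
  have hCI : ∀ k ∈ C, k ∈ TT.image (cls TT fm co La b ω) := fun k hk =>
    JM_img (CMW_sub (hCC hk))
  have hN := hC.cnn c hcΓ
  have hCc := hC.cnr c hcΓ
  have hNs : Uc (tops rk C) P ⊆ UH := by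
    intro n hn
    obtain ⟨h1, h2⟩ := mem_Uc.1 hn
    have h3 := (mem_tops.1 h1).1
    refine mem_UM.2 ⟨hCI n h3, h2, ?_⟩
    rw [hCdef] at h1
    exact hN.mac_topV le_rfl hM hCc hT (hT' c hcΓ) hω hS h1
  have key : ∀ n ∈ Uc (tops rk C) P,
      ((Uc (tops rk (C.erase n)) P).card : ℝ) ≤ ((UH.card : ℝ) - 1) + ind bad := by
    intro n hn
    have hnU := hNs hn
    have hpos : 1 ≤ UH.card := card_pos.2 ⟨n, hnU⟩
    by_cases hall : ∀ m ∈ Uc (tops rk (C.erase n)) P, m ∈ UH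
    · have h1 : Uc (tops rk (C.erase n)) P ⊆ UH.erase n := by
        intro m hm
        refine mem_erase.2 ⟨?_, hall m hm⟩
        exact (mem_erase.1 (mem_tops.1 (mem_Uc.1 hm).1).1).1
      have h2 := card_le_card h1
      rw [card_erase_of_mem hnU] at h2
      have h3 : ((Uc (tops rk (C.erase n)) P).card : ℝ) ≤ ((UH.card - 1 : ℕ) : ℝ) := by
        exact_mod_cast h2
      rw [Nat.cast_sub hpos] at h3
      have := ind_nonneg bad
      push_cast at h3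
      linarith
    · push Not at hall
      obtain ⟨m, hm, hmU⟩ := hall
      obtain ⟨hm1, hm2⟩ := mem_Uc.1 hm
      have hm3 := (mem_erase.1 (mem_tops.1 hm1).1)
      have hnm : ∀ e ∈ m, ¬ Mac fm co La b 1 0 0 h ω e := by
        intro e he hmac
        exact hmU (mem_UM.2 ⟨hCI m hm3.2, hm2, e, he, hmac⟩)
      have hone : Uc (tops rk (C.erase n)) P ⊆ {m} := by
        intro m' hm'
        rw [mem_singleton]
        have h4 := (mem_Uc.1 hm').1
        have h5 := (mem_erase.1 (mem_tops.1 h4).1)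
        have h6 : rk m = rk m' := le_antisymm ((mem_tops.1 h4).2 m (mem_erase.2 hm3))
          ((mem_tops.1 hm1).2 m' (mem_erase.2 h5))
        exact hN.rk_unique hCc (hCC hm3.2) (hCC h5.2) h6 hnm
      have hb : bad := by
        rw [hCdef] at hm1
        rcases hN.near_secondV hρ hM hCc hT (hT' c hcΓ) hω hSρ hm1 with h7 | ⟨e', he', h8⟩
        · left
          have g1 : m ∈ UM TT fm co La b 1 0 0 ρ ω P :=
            mem_UM.2 ⟨hCI m hm3.2, hm2, h7⟩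
          have g2 : n ∈ UM TT fm co La b 1 0 0 ρ ω P := UM_mono hρ hnU
          have g3 : ({n, m} : Finset (Finset (ℤ × ℤ))) ⊆ UM TT fm co La b 1 0 0 ρ ω P := by
            intro k hk
            rw [mem_insert, mem_singleton] at hk
            rcases hk with rfl | rfl
            · exact g2
            · exact g1
          have g4 := card_le_card g3
          rwa [card_pair (Ne.symm hm3.1)] at g4
        · right
          exact ⟨c, hcΓ, n, hnU, e', he', h8⟩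
      have h8 := card_le_card hone
      rw [card_singleton] at h8
      have h9 : ((Uc (tops rk (C.erase n)) P).card : ℝ) ≤ 1 := by exact_mod_cast h8
      have h10 : (1 : ℝ) ≤ UH.card := by exact_mod_cast hpos
      rw [ind_true hb]
      linarith
  have hc0 := ind_nonneg bad
  have hcN : ((Uc (tops rk C) P).card : ℝ) ≤ UH.card := by exact_mod_cast card_le_card hNs
  by_cases hem : Uc (tops rk C) P = ∅
  · rw [hem, sum_empty]
    have : (0 : ℝ) ≤ 3 ^ UH.card * ind (2 ≤ UH.card) := mul_nonneg (by positivity) (ind_nonneg _)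
    linarith
  obtain ⟨n0, hn0⟩ := nonempty_iff_ne_empty.2 hem
  have hpos : 1 ≤ UH.card := card_pos.2 ⟨n0, hNs hn0⟩
  have hposR : (1 : ℝ) ≤ UH.card := by exact_mod_cast hpos
  refine (sum_le_sum key).trans ?_
  rw [sum_const, nsmul_eq_mul]
  have h1 : ((Uc (tops rk C) P).card : ℝ) * ((UH.card : ℝ) - 1 + ind bad) ≤
      UH.card * ((UH.card : ℝ) - 1 + ind bad) :=
    mul_le_mul_of_nonneg_right hcN (by linarith)
  refine h1.trans ?_
  have hind1 : ind bad ≤ 1 := ind_le_one _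
  by_cases h2 : 2 ≤ UH.card
  · rw [ind_true h2, mul_one]
    have h3 := three_pow UH.card
    nlinarith
  · have h3 : UH.card = 1 := by omega
    rw [ind_false h2, mul_zero, h3]
    push_cast
    linarith

/-- **The error for one configuration.** -/
theorem err_UMV (hρ : ρ ≤ h) (hM : Multi X W Bb B TT fm co Wl La b o)
    (hC : CrW W Bb B TT fm co Wl La b o h Γ Tn Λ L iL iF κ Um Vm D)
    (hT : VTog V W B TT fm co Wl La b o)
    (hT' : ∀ g ∈ Γ, VTogX V W Bb B TT fm co Wl (Λ g) b) (hω : ω ⊆ B)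
    (hS : ∀ c ∈ Γ, (κ c).Sur h (L c) ω) (hSρ : ∀ c ∈ Γ, (κ c).Sur ρ (L c) ω)
    {q : ℤ × ℤ → ℝ} (hq : Pb q)
    (hw : ∀ e ∈ TT, ‖s e‖ ≤ 1 - q e) (hM0 : 0 ≤ M) (hK : 1 ≤ K) :
    ErV V W TT fm co Wl La b o Γ Tn L iL iF κ s M K ω ≤
      Ex q TT (fun P => ((1 + 2 * 3 ^ Γ.card * Γ.card) * K ^ Γ.card) * M *
          (3 ^ (UM TT fm co La b 1 0 0 h ω P).card *
          ind (2 ≤ (UM TT fm co La b 1 0 0 h ω P).card)) +
        (2 * 3 ^ Γ.card * Γ.card * K ^ Γ.card) * M *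
          ind (2 ≤ (UM TT fm co La b 1 0 0 ρ ω P).card ∨ NZW TT fm co La b h ρ Γ κ ω P)) := by
  classical
  set J := JM W TT fm co Wl La b o ω \ IMV V W TT fm co Wl La b o ω with hJ
  set C := CCV V W TT fm co Wl La b o Tn L iL iF κ ω with hCdef
  set rk := fun c => rkW (Tn c) fm co b (L c) (iL c) (iF c) (κ c) ω with hrk
  have hCJ : ∀ c ∈ Γ, C c ⊆ J := fun c _ => sdiff_subset_sdiff CMW_sub (Subset.refl _)
  have hJi : J ⊆ TT.image (cls TT fm co La b ω) := fun k hk => JM_img (mem_sdiff.1 hk).1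
  have hJT : ∀ k ∈ J, k ⊆ TT := by
    intro k hk
    obtain ⟨e, -, rfl⟩ := mem_image.1 (hJi hk)
    exact cls_sub
  have hJn : ∀ k ∈ J, k.Nonempty := by
    intro k hk
    obtain ⟨e, he, rfl⟩ := mem_image.1 (hJi hk)
    exact ⟨e, self_cls he⟩
  have h1 := chErrS_le (q := q) (T := TT) (J := J) (Γ := Γ) (C := C)
    (φ := fun k => ∏ e ∈ k, s e) (rk := rk)
    (M := M) (K := K) hq hM0 hK hCJ hJT (img_disj.subset (coe_subset.2 hJi)) (by
      intro k hk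
      rw [norm_prod]
      exact prod_le_prod (fun _ _ => norm_nonneg _) fun e he => hw e (hJT k hk he))
  refine h1.trans (Ex_mono hq fun P _ => ?_)
  set UH : ℝ := 3 ^ (UM TT fm co La b 1 0 0 h ω P).card *
    ind (2 ≤ (UM TT fm co La b 1 0 0 h ω P).card) with hUH
  set IB : ℝ := ind (2 ≤ (UM TT fm co La b 1 0 0 ρ ω P).card ∨ NZW TT fm co La b h ρ Γ κ ω P)
    with hIB
  have h2 : ∑ c ∈ Γ, ∑ n ∈ Uc (tops (rk c) (C c)) P,
      ((Uc (tops (rk c) ((C c).erase n)) P).card : ℝ) ≤ Γ.card * (UH + IB) := by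
    refine (sum_le_sum fun c hcΓ => hC.pairs_leV (P := P) (C := C c) hρ hM hT hT'
      hω hcΓ (hS c hcΓ) (hSρ c hcΓ) rfl).trans ?_
    rw [sum_const, nsmul_eq_mul]
  have h3 : Uc ((J \ Γ.biUnion C) ∪ Γ.biUnion fun c => tops (rk c) (C c)) P ⊆
      UM TT fm co La b 1 0 0 h ω P := by
    intro k hk
    obtain ⟨g1, g2⟩ := mem_Uc.1 hk
    rcases mem_union.1 g1 with g | g
    · obtain ⟨g3, g4⟩ := mem_sdiff.1 g
      obtain ⟨e, he⟩ := hJn k g3
      refine mem_UM.2 ⟨hJi g3, g2, e, he, hC.mac_sdiff hM hω (mem_sdiff.1 g3).1 ?_ he⟩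
      intro c hcΓ g5
      exact g4 (mem_biUnion.2 ⟨c, hcΓ, mem_sdiff.2 ⟨g5, (mem_sdiff.1 g3).2⟩⟩)
    · obtain ⟨c, hcΓ, g3⟩ := mem_biUnion.1 g
      refine mem_UM.2 ⟨hJi (hCJ c hcΓ (mem_tops.1 g3).1), g2, ?_⟩
      exact (hC.cnn c hcΓ).mac_topV le_rfl hM (hC.cnr c hcΓ) hT (hT' c hcΓ) hω (hS c hcΓ) g3
  have h4 : (3 : ℝ) ^ (Uc ((J \ Γ.biUnion C) ∪ Γ.biUnion fun c => tops (rk c) (C c)) P).card *
      ind (2 ≤ (Uc ((J \ Γ.biUnion C) ∪ Γ.biUnion fun c => tops (rk c) (C c)) P).card) ≤ UH := by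
    have g1 := card_le_card h3
    exact mul_le_mul (pow_le_pow_right₀ (by norm_num) g1) (ind_mono fun g2 => g2.trans g1)
      (ind_nonneg _) (by positivity)
  have hKM : 0 ≤ K ^ Γ.card * M := mul_nonneg (by positivity) hM0
  have h5 := mul_le_mul_of_nonneg_left h4 hKM
  have h6 := mul_le_mul_of_nonneg_left h2
    (mul_nonneg (by positivity : (0 : ℝ) ≤ 2 * 3 ^ Γ.card) hKM)
  refine (add_le_add h5 h6).trans (le_of_eq ?_)
  ring

/-- **The error of the first order expansion**, mean value: `σ` bounds the norms of the weights. -/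
theorem err_meanV (hρ : ρ ≤ h) (hM : Multi X W Bb B TT fm co Wl La b o)
    (hC : CrW W Bb B TT fm co Wl La b o h Γ Tn Λ L iL iF κ Um Vm D)
    (hT : VTog V W B TT fm co Wl La b o)
    (hT' : ∀ g ∈ Γ, VTogX V W Bb B TT fm co Wl (Λ g) b)
    (hS : ∀ c ∈ Γ, ∀ ρ ≤ h, ∀ ω, (κ c).Sur ρ (L c) ω) {σ : ℝ} (hσ0 : 0 ≤ σ)
    (hσ1 : σ ≤ 1) (hw : ∀ e ∈ TT, ‖s e‖ ≤ σ) (hM0 : 0 ≤ M) (hK : 1 ≤ K) :
    Ex hf B (ErV V W TT fm co Wl La b o Γ Tn L iL iF κ s M K) ≤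
      ((1 + 2 * 3 ^ Γ.card * Γ.card) * K ^ Γ.card) * M * Ex (qE TT σ) (B ∪ TT) (fun Ω =>
        3 ^ (UM TT fm co La b 1 0 0 h (Ω ∩ B) (Ω ∩ TT)).card *
          ind (2 ≤ (UM TT fm co La b 1 0 0 h (Ω ∩ B) (Ω ∩ TT)).card)) +
      (2 * 3 ^ Γ.card * Γ.card * K ^ Γ.card) * M * PrP (qE TT σ) (B ∪ TT) (fun Ω =>
        2 ≤ (UM TT fm co La b 1 0 0 ρ (Ω ∩ B) (Ω ∩ TT)).card ∨
          NZW TT fm co La b h ρ Γ κ (Ω ∩ B) (Ω ∩ TT)) := by
  have hd : Disjoint B TT := hM.bT.mono_left hM.bB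
  have hq : Pb (fun _ : ℤ × ℤ => 1 - σ) := Pb.const (by linarith) (by linarith)
  refine (Ex_mono (fun _ => by norm_num : Pb hf) fun ω hω => hC.err_UMV hρ hM hT hT' hω
    (fun c hcΓ => hS c hcΓ h le_rfl ω) (fun c hcΓ => hS c hcΓ ρ hρ ω) hq
    (fun e he => by rw [sub_sub_cancel]; exact hw e he) hM0 hK).trans (le_of_eq ?_)
  unfold PrP
  rw [← Ex_smul, ← Ex_smul, ← Ex_add, ← Ex_qE hd]

/-- **A class with an influence is macroscopic.** -/
theorem DV_mac (hM : Multi X W Bb B TT fm co Wl La b o)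
    (hC : CrW W Bb B TT fm co Wl La b o h Γ Tn Λ L iL iF κ Um Vm D)
    (hT : VTog V W B TT fm co Wl La b o)
    (hT' : ∀ g ∈ Γ, VTogX V W Bb B TT fm co Wl (Λ g) b)
    (hS : ∀ c ∈ Γ, (κ c).Sur h (L c) ω) (hω : ω ⊆ B) (heT : e ∈ TT)
    (hne : DV V TT fm co La b e ω ≠ 0) :
    ∃ e' ∈ cls TT fm co La b ω e, Mac fm co La b 1 0 0 h ω e' := by
  classical
  have hnf : ¬ fre W TT fm co Wl La b o ω e := fun hf => hne (DV_free hM hT hω heT hf)
  have hJ : cls TT fm co La b ω e ∈ JM W TT fm co Wl La b o ω :=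
    mem_image_of_mem _ (mem_filter.2 ⟨heT, hnf⟩)
  have hz : ∀ h1 : V ω (unc TT fm co La b ω
      (insert (cls TT fm co La b ω e) ∅)) = V ω (unc TT fm co La b ω ∅),
      False := by
    intro h1
    apply hne
    unfold DV
    have e1 : (insert (cls TT fm co La b ω e) ∅ : Finset (Finset (ℤ × ℤ))) =
      {cls TT fm co La b ω e} := rfl
    rw [e1, unc_single, unc_empty] at h1
    rw [h1, sub_self]
  have hI : cls TT fm co La b ω e ∉ IMV V W TT fm co Wl La b o ω := fun h1 =>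
    hz ((mem_Ir.1 h1).2 ∅ (empty_subset _) (notMem_empty _))
  by_cases hk : ∃ c ∈ Γ, cls TT fm co La b ω e ∈
      CMW W TT (Tn c) fm co Wl La b o (L c) (iL c) (iF c) (κ c) ω
  · obtain ⟨c, hcΓ, hk⟩ := hk
    refine (hC.cnn c hcΓ).mac_topV le_rfl hM (hC.cnr c hcΓ) hT (hT' c hcΓ) hω (hS c hcΓ)
      (mem_tops.2 ⟨mem_sdiff.2 ⟨hk, hI⟩, fun j hj => ?_⟩)
    by_contra hlt
    push Not at hlt
    have hj1 := (mem_sdiff.1 hj).1
    refine hz ((hC.cnr c hcΓ).shV (A := ∅) hM (hT' c hcΓ) hω hk hj1 (notMem_empty _) ?_ hlt.le)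
    intro h1
    rw [h1] at hlt
    exact lt_irrefl _ hlt
  · push Not at hk
    exact ⟨e, self_cls heT, hC.mac_sdiff hM hω hJ hk (self_cls heT)⟩

end CrW

end Pool.Agent.H40.Sp
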