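import Mathlib
import Pool.Agent.H40.Sp.MCor
import Pool.Agent.H72.W.NXB
import Pool.Agent.H95.W.CoR

set_option autoImplicit false
open Finset

/-! # The marked corners of a coarse window with a flat right wall

Successor of `H40/Sp/MCor` for the class `H54.W.Win` (`tX`, `pX`, `oT`, `oP`, `chQ`, `eS`, `flS`, `yV`, `yH`
are those of `H40.Sp`, `B := fun _ => W`). Differences: the world `p` is shifted horizontally, so `gxS` depends
on `p` and `gyS` does not; positions as in `H72/W/NPos`; the marked corners `GmC` are on the left arc only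
(`sd = true`). `cS`, `iS` : colour and arc of the side of the cell row `Y` (`sd = true` : left; the bottom for
`Y < 0`, the top for `H ≤ Y`). `NatS` : off the line the frozen tiles are open iff they are open in `WR`. -/

namespace Pool.Agent.H40.W.N

open Pool.Agent.H75.Perc Pool.Agent.H75.TwoArm Pool.Agent.Q1 Pool.Agent.H33.Q1
open Pool.Agent.H69.Q1
open Pool.Agent.H54.W (Win)
open Pool.Agent.H54.W.Win
open Pool.Agent.H72.W.N
open Pool.Agent.H42.Sp (Sd Ix kt rt kt_odd rt_even kt_Tg rt_Tg)
open Pool.Agent.H13.R45 (ev gp ev_true ev_false Tg)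
open Pool.Agent.H74.R45 (exists_lt)
open Pool.Agent.H54.R45 (nd_gp node_exists el_adj adj_unit)
open Pool.Agent.H39.Q1 (nd el cU cV cx cy VN av nd_el TF mem_TF)
open Pool.Agent.H40.Sp (tX pX oT oP oT_tX tX_oT oP_pX pX_oP chQ chQ_UV chQ_lt chQ_gp eS flS yV yH)

section Defs

variable (D : Win) (p : Bool) (s0 n H : ℤ) (A B : ℤ → ℤ)

/-- colour of the side of the cell row `Y` (the bottom below, the top above) -/
def cS (sd : Bool) (Y : ℤ) : Bool :=
  if Y < 0 then D.cb else if H ≤ Y then D.ct
  else if sd = true then D.cl (n * Y + n / 2) else D.cr (n * Y + n / 2)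

/-- position of the middle of the side of the cell row `Y` -/
def qS (sd : Bool) (Y : ℤ) : ℤ :=
  if Y < 0 then 0 else if H ≤ Y then D.h + 1
  else if sd = true then 2 * D.h + 1 - (n * Y + n / 2) else n * Y + n / 2 + 1

/-- arc of the side of the cell row `Y` -/
def iS (sd : Bool) (Y : ℤ) : ℤ := rep D s0 (qS D n H sd Y)

/-- horizontal coordinate of the corner in the world `p` -/
def gxS (c : Bool × ℤ) : ℤ := n * eS A B c.1 (yV H A B c) - sh p

/-- vertical coordinate of the corner -/
def gyS (c : Bool × ℤ) : ℤ := n * c.2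

/-- arc of the vertical wall at the corner -/
def iVs (c : Bool × ℤ) : ℤ := iS D s0 n H c.1 (yV H A B c)

/-- arc of the horizontal wall at the corner -/
def iHs (c : Bool × ℤ) : ℤ := iS D s0 n H c.1 (yH H A B c)

/-- the corner point has the colour of the vertical wall -/
def wS (c : Bool × ℤ) : Bool := ev (gxS p n H A B c, gyS n c) == cS D n H c.1 (yV H A B c)

/-- the chart of the corner -/
def kS (c : Bool × ℤ) : Pool.Agent.H40.Sp.Cht :=
  chQ c.1 (flS H A B c) (wS D p n H A B c) (gxS p n H A B c) (gyS n c)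

/-- the arc with the colour of the corner point -/
def iLs (c : Bool × ℤ) : ℤ :=
  if wS D p n H A B c = true then iVs D s0 n H A B c else iHs D s0 n H A B c

/-- the other arc -/
def iFs (c : Bool × ℤ) : ℤ :=
  if wS D p n H A B c = true then iHs D s0 n H A B c else iVs D s0 n H A B c

/-- **The marked corners**: on the left arc, the colours of the rows `Y - 1` and `Y` differ. -/
noncomputable def GmC : Finset (Bool × ℤ) :=
  (({true} : Finset Bool) ×ˢ Icc 0 H).filter fun c => cS D n H c.1 (c.2 - 1) ≠ cS D n H c.1 c.2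

/-- the point `g` is on the horizontal wall of a marked corner at distance less than `h` of the corner and
`i` is the arc of the vertical wall, or vice versa -/
def NrM (h i : ℤ) (g : ℤ × ℤ) : Prop :=
  ∃ c ∈ GmC D n H,
    (i = iVs D s0 n H A B c ∧ g.2 = gyS n c ∧
      0 ≤ oP c.1 (gxS p n H A B c) g.1 ∧ oP c.1 (gxS p n H A B c) g.1 < h) ∨
    (i = iHs D s0 n H A B c ∧ g.1 = gxS p n H A B c ∧
      0 ≤ oP (flS H A B c) (gyS n c) g.2 ∧ oP (flS H A B c) (gyS n c) g.2 < h)

/-- **The exits of the layers of the environment `XA`, in tiles.** -/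
def ExA (O : OutB D) (S : Finset (ℤ × ℤ)) (L h : ℤ) : Prop :=
  ∀ (i : ℤ) (g : ℤ × ℤ) (X Y : ℤ), ev g = colp D i → OnT g X Y →
    ((∃ u v k, TieP D p k (colp D i) u v ∧ fmA D p s0 (lt (u, v)) = i ∧ bt k (colp D i) (u, v) = g) ∨
      ∃ u v, OnT g u v ∧ lt (u, v) ∈ LaA D p s0 h i) →
    av (EN D p) (WA O p S) (TA D p) (fmA D p s0) (colp D) (WlA D p s0 L S) i (lt (X, Y)) →
    (∀ u v, OnT g u v → lt (u, v) ∉ WlA D p s0 L S i) →
    lt (X, Y) ∈ LaA D p s0 h i ∨
    (∀ u v k, TieP D p k (colp D i) u v → fmA D p s0 (lt (u, v)) = i →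
      h ≤ 2 * |g.1 - (bt k (colp D i) (u, v)).1| ∨ h ≤ 2 * |g.2 - (bt k (colp D i) (u, v)).2|) ∨
    NrM D p s0 n H A B h i g

/-- position of the line of the world `p` : on the left arc or on the right wall -/
def tp (p : Bool) : ℤ → ℤ := fun y => if p = true then D.w else D.a y

/-- off the line and off the right wall (without its end tiles) the frozen tiles have the state which they
have in `WR` -/
def NatS (S : Finset (ℤ × ℤ)) : Prop :=
  ∀ x y, (x + sh p < D.w ∨ y < 0 ∨ D.h ≤ y) → FRt D p x y → ¬ D.InE (tp D p) x y →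
    (lt (x, y) ∈ S ↔ D.InO (tp D p) x y)

end Defs

variable {D : Win} {p : Bool} {n H : ℤ} {A B : ℤ → ℤ} {c : Bool × ℤ}

lemma mem_GmC : c ∈ GmC D n H ↔ c.1 = true ∧ (0 ≤ c.2 ∧ c.2 ≤ H) ∧
    cS D n H c.1 (c.2 - 1) ≠ cS D n H c.1 c.2 := by
  unfold GmC
  rw [mem_filter, mem_product, mem_singleton, mem_Icc, and_assoc]

/-- the corners of a coarse window: left arc -/
lemma eS_left {W Y : ℤ} : eS A (fun _ => W) true Y = A Y := rfl

end Pool.Agent.H40.W.N
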