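import Mathlib
import Pool.Agent.H40.W.NMCor

set_option autoImplicit false
open Finset

/-! # Tiles and grid points near a corner, in the chart

`tq v1 v2 w gx gy i j` : tile with the offsets `i` in the direction of `U` and `j` in the direction of `V`,
`gq` : grid point. `sq1`, `sq2` : kinds of the walls `U = 0` and `V = 0`. -/

namespace Pool.Agent.H40.W.N

open Pool.Agent.H75.Perc Pool.Agent.H75.TwoArm Pool.Agent.Q1 Pool.Agent.H33.Q1
open Pool.Agent.H69.Q1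
open Pool.Agent.H54.W (Win)
open Pool.Agent.H54.W.Win
open Pool.Agent.H72.W.N
open Pool.Agent.H42.Sp (Sd Ix kt rt kt_odd rt_even kt_Tg rt_Tg)
open Pool.Agent.H13.R45 (ev gp ev_true ev_false Tg)
open Pool.Agent.H74.R45 (exists_lt)
open Pool.Agent.H54.R45 (nd_gp node_exists el_adj adj_unit)
open Pool.Agent.H39.Q1 (nd el cU cV cx cy VN av nd_el TF mem_TF)
open Pool.Agent.H40.Sp (tX pX oT oP oT_tX tX_oT oP_pX pX_oP chQ chQ_UV chQ_lt chQ_gp eS flS yV yH)

/-- tile with the offsets `i`, `j` -/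
def tq (v1 v2 w : Bool) (gx gy i j : ℤ) : ℤ × ℤ :=
  if w = true then (tX v1 gx i, tX v2 gy j) else (tX v1 gx j, tX v2 gy i)

/-- grid point with the offsets `i`, `j` -/
def gq (v1 v2 w : Bool) (gx gy i j : ℤ) : ℤ × ℤ :=
  if w = true then (pX v1 gx i, pX v2 gy j) else (pX v1 gx j, pX v2 gy i)

/-- kind of the wall `U = 0` -/
def sq1 (v1 v2 w : Bool) : Sd :=
  if w = true then (if v1 = true then .L else .R) else (if v2 = true then .F else .C)

/-- kind of the wall `V = 0` -/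
def sq2 (v1 v2 w : Bool) : Sd :=
  if w = true then (if v2 = true then .F else .C) else (if v1 = true then .L else .R)

variable {v1 v2 w : Bool} {gx gy i j a b i' j' : ℤ} {c : Bool} {s : Sd}

lemma tq_UV : (chQ v1 v2 w gx gy).U (lt (tq v1 v2 w gx gy i j)) = 2 * i + 1 ∧
    (chQ v1 v2 w gx gy).V (lt (tq v1 v2 w gx gy i j)) = 2 * j + 1 := by
  unfold tq
  cases w
  · rw [if_neg Bool.false_ne_true]
    have := chQ_lt (v1 := v1) (v2 := v2) (w := false) (gx := gx) (gy := gy) (x := tX v1 gx j)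
      (y := tX v2 gy i)
    simpa using this
  · rw [if_pos rfl]
    have := chQ_lt (v1 := v1) (v2 := v2) (w := true) (gx := gx) (gy := gy) (x := tX v1 gx i)
      (y := tX v2 gy j)
    simpa using this

lemma gq_UV (hc : ev (gq v1 v2 w gx gy a b) = c) :
    (chQ v1 v2 w gx gy).U (nd c (gp (gq v1 v2 w gx gy a b))) = 2 * a ∧
    (chQ v1 v2 w gx gy).V (nd c (gp (gq v1 v2 w gx gy a b))) = 2 * b := by
  have h := chQ_gp (v1 := v1) (v2 := v2) (w := w) (gx := gx) (gy := gy) hc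
  rw [h.1, h.2]
  unfold gq
  cases w <;> simp

lemma tq_surj (t : ℤ × ℤ) : ∃ i j, tq v1 v2 w gx gy i j = t := by
  unfold tq
  cases w
  · exact ⟨oT v2 gy t.2, oT v1 gx t.1, by simp⟩
  · exact ⟨oT v1 gx t.1, oT v2 gy t.2, by simp⟩

lemma gq_surj (t : ℤ × ℤ) : ∃ i j, gq v1 v2 w gx gy i j = t := by
  unfold gq
  cases w
  · exact ⟨oP v2 gy t.2, oP v1 gx t.1, by simp⟩
  · exact ⟨oP v1 gx t.1, oP v2 gy t.2, by simp⟩

lemma tq_inj : tq v1 v2 w gx gy i j = tq v1 v2 w gx gy i' j' ↔ i = i' ∧ j = j' := by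
  unfold tq tX
  cases v1 <;> cases v2 <;> cases w <;> simp <;> tauto

lemma gq_inj : gq v1 v2 w gx gy i j = gq v1 v2 w gx gy i' j' ↔ i = i' ∧ j = j' := by
  unfold gq pX
  cases v1 <;> cases v2 <;> cases w <;> simp <;> tauto

lemma onT_q : OnT (gq v1 v2 w gx gy a b) (tq v1 v2 w gx gy i j).1 (tq v1 v2 w gx gy i j).2 ↔
    (i = a ∨ i = a - 1) ∧ (j = b ∨ j = b - 1) := by
  unfold OnT tq gq tX pX
  cases v1 <;> cases v2 <;> cases w <;> simp <;> omega

lemma ev_gq : ev (gq v1 v2 w gx gy a b) = if (a + b) % 2 = 0 then ev (gx, gy) else !ev (gx, gy) := by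
  have key : ∀ c, ev (gx, gy) = c →
      ev (gq v1 v2 w gx gy a b) = if (a + b) % 2 = 0 then c else !c := by
    intro c hc
    unfold gq pX
    cases c
    · rw [ev_false] at hc

      cases v1 <;> cases v2 <;> cases w <;> simp only [↓reduceIte, Bool.false_eq_true] <;>
        split_ifs <;> first | (rw [ev_false]; omega) | (rw [Bool.not_false, ev_true]; omega)
    · rw [ev_true] at hc

      cases v1 <;> cases v2 <;> cases w <;> simp only [↓reduceIte, Bool.false_eq_true] <;>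
        split_ifs <;> first | (rw [ev_true]; omega) | (rw [Bool.not_true, ev_false]; omega)
  exact key _ rfl

lemma ev_gq_eq (hc : ev (gx, gy) = c) : ev (gq v1 v2 w gx gy a b) = c ↔ (a + b) % 2 = 0 := by
  rw [ev_gq, hc]
  by_cases h : (a + b) % 2 = 0 <;> simp [h]

lemma ev_gq_ne (hc : ev (gx, gy) = !c) : ev (gq v1 v2 w gx gy a b) = c ↔ (a + b) % 2 = 1 := by
  rw [ev_gq, hc]
  by_cases h : (a + b) % 2 = 0
  · simp [h]
  · simp [h]; omega

/-- the inner neighbour of a tile, wall `U = 0` -/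
lemma dr1 : (tq v1 v2 w gx gy i j).1 + (dr (sq1 v1 v2 w)).1 = (tq v1 v2 w gx gy (i + 1) j).1 ∧
    (tq v1 v2 w gx gy i j).2 + (dr (sq1 v1 v2 w)).2 = (tq v1 v2 w gx gy (i + 1) j).2 := by
  unfold tq tX sq1 dr
  cases v1 <;> cases v2 <;> cases w <;> simp <;> ring

lemma dr2 : (tq v1 v2 w gx gy i j).1 + (dr (sq2 v1 v2 w)).1 = (tq v1 v2 w gx gy i (j + 1)).1 ∧
    (tq v1 v2 w gx gy i j).2 + (dr (sq2 v1 v2 w)).2 = (tq v1 v2 w gx gy i (j + 1)).2 := by
  unfold tq tX sq2 dr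
  cases v1 <;> cases v2 <;> cases w <;> simp <;> ring

lemma dr1' : (tq v1 v2 w gx gy i j).1 - (dr (sq1 v1 v2 w)).1 = (tq v1 v2 w gx gy (i - 1) j).1 ∧
    (tq v1 v2 w gx gy i j).2 - (dr (sq1 v1 v2 w)).2 = (tq v1 v2 w gx gy (i - 1) j).2 := by
  unfold tq tX sq1 dr
  cases v1 <;> cases v2 <;> cases w <;> simp <;> ring

lemma dr2' : (tq v1 v2 w gx gy i j).1 - (dr (sq2 v1 v2 w)).1 = (tq v1 v2 w gx gy i (j - 1)).1 ∧
    (tq v1 v2 w gx gy i j).2 - (dr (sq2 v1 v2 w)).2 = (tq v1 v2 w gx gy i (j - 1)).2 := by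
  unfold tq tX sq2 dr
  cases v1 <;> cases v2 <;> cases w <;> simp <;> ring

/-- the direction of a kind in the chart -/
lemma dr_q (s : Sd) : ∃ α β : ℤ,
    ((α = 1 ∧ β = 0 ∧ s = sq1 v1 v2 w) ∨ (α = 0 ∧ β = 1 ∧ s = sq2 v1 v2 w) ∨ (α = -1 ∧ β = 0) ∨
      (α = 0 ∧ β = -1)) ∧ ∀ i j, (tq v1 v2 w gx gy i j).1 + (dr s).1 = (tq v1 v2 w gx gy (i + α) (j + β)).1 ∧
      (tq v1 v2 w gx gy i j).2 + (dr s).2 = (tq v1 v2 w gx gy (i + α) (j + β)).2 := by
  cases w
  · refine ⟨(dr s).2 * (if v2 = true then 1 else -1), (dr s).1 * (if v1 = true then 1 else -1), ?_, ?_⟩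
    · unfold sq1 sq2 dr
      cases v1 <;> cases v2 <;> cases s <;> simp
    · intro i j
      unfold tq tX
      cases v1 <;> cases v2 <;> simp <;> constructor <;> ring
  · refine ⟨(dr s).1 * (if v1 = true then 1 else -1), (dr s).2 * (if v2 = true then 1 else -1), ?_, ?_⟩
    · unfold sq1 sq2 dr
      cases v1 <;> cases v2 <;> cases s <;> simp
    · intro i j
      unfold tq tX
      cases v1 <;> cases v2 <;> simp <;> constructor <;> ring

/-- the two tiles of a tie point on the wall `U = 0` -/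
lemma pair1 : (kt (sq1 v1 v2 w, gq v1 v2 w gx gy a b) = tq v1 v2 w gx gy a b ∧
      rt (sq1 v1 v2 w, gq v1 v2 w gx gy a b) = tq v1 v2 w gx gy a (b - 1)) ∨
    (kt (sq1 v1 v2 w, gq v1 v2 w gx gy a b) = tq v1 v2 w gx gy a (b - 1) ∧
      rt (sq1 v1 v2 w, gq v1 v2 w gx gy a b) = tq v1 v2 w gx gy a b) := by
  unfold tq gq tX pX sq1
  cases v1 <;> cases v2 <;> cases w <;> simp only [↓reduceIte, Bool.false_eq_true, kt, rt] <;>
    split_ifs <;> simp only [Prod.mk.injEq, true_and, and_true] <;> omega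

/-- the two tiles of a tie point on the wall `V = 0` -/
lemma pair2 : (kt (sq2 v1 v2 w, gq v1 v2 w gx gy a b) = tq v1 v2 w gx gy a b ∧
      rt (sq2 v1 v2 w, gq v1 v2 w gx gy a b) = tq v1 v2 w gx gy (a - 1) b) ∨
    (kt (sq2 v1 v2 w, gq v1 v2 w gx gy a b) = tq v1 v2 w gx gy (a - 1) b ∧
      rt (sq2 v1 v2 w, gq v1 v2 w gx gy a b) = tq v1 v2 w gx gy a b) := by
  unfold tq gq tX pX sq2
  cases v1 <;> cases v2 <;> cases w <;> simp only [↓reduceIte, Bool.false_eq_true, kt, rt] <;>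
    split_ifs <;> simp only [Prod.mk.injEq, true_and, and_true] <;> omega

/-- the inner end of the tie, wall `U = 0` -/
lemma bt1 (hc : (((gq v1 v2 w gx gy a b).1 + (gq v1 v2 w gx gy a b).2) % 2 = 1 ↔ c = true)) :
    bt (sq1 v1 v2 w) c (kt (sq1 v1 v2 w, gq v1 v2 w gx gy a b)) = gq v1 v2 w gx gy (a + 1) b := by
  revert hc
  unfold gq pX sq1
  cases v1 <;> cases v2 <;> cases w <;> cases c <;>
    simp only [↓reduceIte, Bool.false_eq_true, kt, iff_true, iff_false] <;>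
    intro hc <;> first
      | (rw [if_pos hc]; unfold bt; refine Prod.ext ?_ ?_ <;> simp only <;> omega)
      | (rw [if_neg hc]; unfold bt; refine Prod.ext ?_ ?_ <;> simp only <;> omega)

/-- the inner end of the tie, wall `V = 0` -/
lemma bt2 (hc : (((gq v1 v2 w gx gy a b).1 + (gq v1 v2 w gx gy a b).2) % 2 = 1 ↔ c = true)) :
    bt (sq2 v1 v2 w) c (kt (sq2 v1 v2 w, gq v1 v2 w gx gy a b)) = gq v1 v2 w gx gy a (b + 1) := by
  revert hc
  unfold gq pX sq2
  cases v1 <;> cases v2 <;> cases w <;> cases c <;>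
    simp only [↓reduceIte, Bool.false_eq_true, kt, iff_true, iff_false] <;>
    intro hc <;> first
      | (rw [if_pos hc]; unfold bt; refine Prod.ext ?_ ?_ <;> simp only <;> omega)
      | (rw [if_neg hc]; unfold bt; refine Prod.ext ?_ ?_ <;> simp only <;> omega)

/-- the outer end is opposite to the inner end -/
lemma ot_q (h : bt s c (tq v1 v2 w gx gy i j) = gq v1 v2 w gx gy a b) :
    ot s c (tq v1 v2 w gx gy i j) = gq v1 v2 w gx gy (2 * i + 1 - a) (2 * j + 1 - b) := by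
  unfold ot
  rw [h]
  unfold tq gq tX pX
  cases v1 <;> cases v2 <;> cases w <;> simp only [↓reduceIte, Bool.false_eq_true,
    Prod.mk.injEq] <;> constructor <;> ring

/-- distances -/
lemma dist_q {m : ℤ} : ((tq v1 v2 w gx gy i j).1 ≤ (tq v1 v2 w gx gy i' j').1 + m ∧
      (tq v1 v2 w gx gy i' j').1 ≤ (tq v1 v2 w gx gy i j).1 + m ∧
      (tq v1 v2 w gx gy i j).2 ≤ (tq v1 v2 w gx gy i' j').2 + m ∧
      (tq v1 v2 w gx gy i' j').2 ≤ (tq v1 v2 w gx gy i j).2 + m) ↔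
    (i ≤ i' + m ∧ i' ≤ i + m) ∧ j ≤ j' + m ∧ j' ≤ j + m := by
  unfold tq tX
  cases v1 <;> cases v2 <;> cases w <;> simp <;> omega

lemma tie_par {k : Ix} : ((k.2.1 + k.2.2) % 2 = 1 ↔ c = true) ↔ ev k.2 = !c := by
  unfold ev
  cases c <;> simp <;> omega

/-- the tie of a tie point -/
lemma tie_of_CA {D : Win} {p : Bool} {k : Ix} (h : CA D p k)
    (hc : (k.2.1 + k.2.2) % 2 = 1 ↔ c = true) : TieP D p k.1 c (kt k).1 (kt k).2 := by
  have e : decide ((k.2.1 + k.2.2) % 2 = 1) = c := by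
    cases c
    · rw [decide_eq_false_iff_not]; simpa using hc
    · rw [decide_eq_true_eq]; simpa using hc
  have h1 := gt_kt k
  rw [e] at h1
  exact ⟨kt_odd k, by rw [Prod.mk.eta, h1]; exact h, by rw [Prod.mk.eta, h1]; exact hc⟩

/-- the tie point of a tie -/
lemma CA_of_tie {D : Win} {p : Bool} {t : ℤ × ℤ} (h : TieP D p s c t.1 t.2) :
    ∃ q, CA D p (s, q) ∧ kt (s, q) = t ∧ ((q.1 + q.2) % 2 = 1 ↔ c = true) :=
  ⟨_, h.2.1, kt_gt h.1, h.2.2⟩

end Pool.Agent.H40.W.N
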