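import Mathlib
import Pool.Agent.H40.W.NQuad

set_option autoImplicit false
open Finset

/-! # Available labels of the environment `XA`

`av_pair`, `av_fill`, `av_fz` : tiles of the ties, of the fill and frozen tiles which are not available. -/

namespace Pool.Agent.H40.W.N

open Pool.Agent.H75.Perc Pool.Agent.H75.TwoArm Pool.Agent.Q1 Pool.Agent.H33.Q1
open Pool.Agent.H69.Q1
open Pool.Agent.H54.W (Win)
open Pool.Agent.H54.W.Win
open Pool.Agent.H72.W.N
open Pool.Agent.H42.Sp (Sd Ix kt rt kt_odd rt_even kt_Tg rt_Tg)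
open Pool.Agent.H13.R45 (ev gp ev_true ev_false Tg)
open Pool.Agent.H74.R45 (exists_lt)
open Pool.Agent.H54.R45 (nd_gp node_exists el_adj adj_unit)
open Pool.Agent.H39.Q1 (nd el cU cV cx cy VN av nd_el TF mem_TF)
open Pool.Agent.H40.Sp (tX pX oT oP oT_tX tX_oT oP_pX pX_oP chQ chQ_UV chQ_lt chQ_gp eS flS yV yH)

variable {D : Win} {p : Bool} {s0 L i x y u v : ℤ} {c : Bool} {s : Sd} {O : OutB D}
  {S : Finset (ℤ × ℤ)} {k : Ix} {t : ℤ × ℤ}

/-- the colour of the removed tile of a tie point -/
lemma CA_natc (h : CA D p k) (ht : t = kt k ∨ t = rt k) :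
    (k.2.1 + k.2.2) % 2 = 1 ↔ natc D p t.1 t.2 = true := by
  obtain ⟨s, x, y⟩ := k
  rcases ht with rfl | rfl
  · cases s <;> simp only [CA, Col4] at h <;> simp only [kt] <;> split_ifs <;> simp only <;> tauto
  · cases s <;> simp only [CA, Col4] at h <;> simp only [rt] <;> split_ifs <;> simp only <;> tauto

lemma CA_ly (h : CA D p k) (ht : t = kt k ∨ t = rt k) : LyA D p k.1 t.1 t.2 := by
  rcases ht with rfl | rfl
  · exact h.kt_ly
  · exact h.rt_ly

/-- the open labels of the box -/
lemma wa_fill (hf : Fill D p x y) (hB : InB D x y) (hS : S ⊆ FR D p) :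
    lt (x, y) ∈ WA O p S ↔ natc D p x y = true := by
  rw [mem_WA]
  constructor
  · rintro (h | h | h | h)
    · exact h.2.2
    · obtain ⟨s, hs⟩ := h.ly
      exact absurd hs.near hf
    · exact absurd (mem_FR.1 (hS h)).1.1 hf
    · exact absurd hB (O.far x y h)
  · intro h
    exact Or.inl ⟨hB, hf, h⟩

lemma wa_fz (hf : FRt D p x y) : lt (x, y) ∈ WA O p S ↔ lt (x, y) ∈ S := by
  rw [mem_WA]
  constructor
  · rintro (h | h | h | h)
    · exact absurd hf.1.1 h.2.1
    · obtain ⟨k, h1, h2, -⟩ := h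
      exact absurd ⟨k, h1, h2⟩ hf.2.2
    · exact h
    · exact absurd hf.1.inB (O.far x y h)
  · intro h
    exact Or.inr (Or.inr (Or.inl h))

lemma wa_rt (hS : S ⊆ FR D p) (h : CA D p k) (ht : t = rt k) :
    lt t ∈ WA O p S ↔ natc D p t.1 t.2 = false := by
  obtain ⟨u, v⟩ := t
  obtain ⟨s, x, y⟩ := k
  have hly : LyA D p s u v := CA_ly h (Or.inr ht)
  have hc := CA_natc h (Or.inr ht)
  simp only at hc
  rw [mem_WA]
  constructor
  · rintro (h' | h' | h' | h')
    · exact absurd hly.near h'.2.1
    · obtain ⟨⟨s', x', y'⟩, h1, h2, h3⟩ := h'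
      have hc' := CA_natc h1 (Or.inr h2.symm)
      simp only at hc'
      rw [ev_true] at h3
      rcases hn : natc D p u v with _ | _
      · rfl
      · rw [hn] at hc'
        simp only [iff_true] at hc'
        exfalso
        omega
    · exact absurd ⟨_, h, ht.symm⟩ (mem_FR.1 (hS h')).2.2
    · exact absurd (hly.inB (by omega) (by omega) (by omega) (by omega)) (O.far u v h')
  · intro h'
    rw [h'] at hc
    refine Or.inr (Or.inl ⟨_, h, ht.symm, ?_⟩)
    rw [ev_true]
    have hc2 : ¬ (x + y) % 2 = 1 := fun h1 => Bool.noConfusion (hc.1 h1)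
    omega

/-- the tiles of a tie of the arc `i` are not available for `i` -/
theorem av_pair (hS : S ⊆ FR D p) (h : CA D p k) (hf : fmA D p s0 (lt (kt k)) = i)
    (ht : t = kt k ∨ t = rt k) :
    ¬ av (EN D p) (WA O p S) (TA D p) (fmA D p s0) (colp D) (WlA D p s0 L S) i (lt t) := by
  have hEW := disj_EWA O hS
  have hc0 := CA_natc h (Or.inl rfl)
  set c := natc D p (kt k).1 (kt k).2 with hc
  have hT : TieP D p k.1 c (kt k).1 (kt k).2 := tie_of_CA h hc0
  have hmT : lt (kt k) ∈ TA D p := mem_TA.2 ⟨_, _, hT⟩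
  have hci : colp D i = c := by rw [← hf]; exact hT.co
  have hly : LyA D p k.1 t.1 t.2 := CA_ly h ht
  have hE : lt t ∉ EN D p := by
    rw [show lt t = lt (t.1, t.2) from rfl, mem_EN]; exact hly.out
  rcases ht with ht | ht
  · subst ht
    have hTF : lt (kt k) ∈ TF (TA D p) (fmA D p s0) i := mem_TF.2 ⟨hmT, hf⟩
    unfold av
    rcases hco : colp D i with _ | _
    · rw [if_neg Bool.false_ne_true]
      intro h'
      exact h' (mem_union_right _ (mem_union_left _ hTF))
    · rw [if_pos rfl]
      intro h'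
      rcases mem_union.1 h' with h' | h'
      · rcases mem_union.1 h' with h' | h'
        · exact hE h'
        · exact (mem_sdiff.1 h').2 hTF
      · exact disjoint_left.1 hEW (mem_union_right _ hmT) (mem_sdiff.1 h').1
  · have hT' : lt t ∉ TA D p := by
      rw [show lt t = lt (t.1, t.2) from rfl, mem_TA]
      rintro ⟨s', c', h'⟩
      have h1 := h'.odd
      have h2 := rt_even k
      rw [ht] at h1
      omega
    have hW : lt t ∈ WA O p S ↔ c = false := by
      rw [wa_rt hS h ht]
      have h1 := CA_natc h (Or.inr ht)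
      have h2 : natc D p t.1 t.2 = true ↔ c = true := by rw [← h1, hc0]
      revert h2
      cases natc D p t.1 t.2 <;> cases c <;> simp
    unfold av
    rcases hco : colp D i with _ | _
    · rw [if_neg Bool.false_ne_true]
      intro h'
      exact h' (mem_union_left _ (hW.2 (by rw [← hci, hco])))
    · rw [if_pos rfl]
      intro h'
      rcases mem_union.1 h' with h' | h'
      · rcases mem_union.1 h' with h' | h'
        · exact hE h'
        · exact hT' (mem_sdiff.1 h').1
      · have := hW.1 (mem_sdiff.1 h').1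
        rw [← hci, hco] at this
        exact Bool.noConfusion this

/-- fill tiles of the other colour or of the same arc are not available -/
theorem av_fill (hL : 5 ≤ L) (hS : S ⊆ FR D p) (hf : Fill D p x y) (hB : InB D x y)
    (h : natc D p x y ≠ colp D i ∨ arc D p s0 x y = i) :
    ¬ av (EN D p) (WA O p S) (TA D p) (fmA D p s0) (colp D) (WlA D p s0 L S) i (lt (x, y)) := by
  have hE : lt (x, y) ∉ EN D p := by rw [mem_EN]; exact hf.not_inP
  have hT' : lt (x, y) ∉ TA D p := by
    rw [mem_TA]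
    rintro ⟨s', c', h'⟩
    exact hf h'.ly.near
  have hWl : arc D p s0 x y = i → lt (x, y) ∈ WlA D p s0 L S i := fun ha =>
    (mem_WlA hL).2 (Or.inl ⟨InL_of_InB hL hB, hf, ha, fun _ => hB⟩)
  have hW := wa_fill (O := O) hf hB hS
  have ha : arc D p s0 x y = i → natc D p x y = colp D i := by
    intro ha; rw [← colp_arc (s0 := s0), ha]
  unfold av
  rcases hco : colp D i with _ | _
  · rw [if_neg Bool.false_ne_true]
    intro h'
    rw [hco] at h ha
    rcases h with h | h
    · apply h'
      refine mem_union_left _ (hW.2 ?_)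
      simpa using h
    · exact h' (mem_union_right _ (mem_union_right _ (hWl h)))
  · rw [if_pos rfl]
    intro h'
    rw [hco] at h ha
    rcases mem_union.1 h' with h' | h'
    · rcases mem_union.1 h' with h' | h'
      · exact hE h'
      · exact hT' (mem_sdiff.1 h').1
    · obtain ⟨h1, h2⟩ := mem_sdiff.1 h'
      rcases h with h | h
      · exact h (hW.1 h1)
      · exact h2 (hWl h)

/-- frozen tiles which belong to the wall if they have its colour are not available -/
theorem av_fz (hL : 5 ≤ L) (hf : FRt D p x y)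
    (h : (lt (x, y) ∈ S ↔ colp D i = true) → FzA D p s0 L S i x y) :
    ¬ av (EN D p) (WA O p S) (TA D p) (fmA D p s0) (colp D) (WlA D p s0 L S) i (lt (x, y)) := by
  have hE : lt (x, y) ∉ EN D p := by rw [mem_EN]; exact hf.1.2
  have hT' : lt (x, y) ∉ TA D p := by
    rw [mem_TA]
    intro h'
    exact hf.2.1 (KA_iff.2 h')
  have hW := wa_fz (O := O) (S := S) hf
  have hWl : (lt (x, y) ∈ S ↔ colp D i = true) → lt (x, y) ∈ WlA D p s0 L S i := fun ha =>
    (mem_WlA hL).2 (Or.inr (h ha))
  unfold av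
  rcases hco : colp D i with _ | _
  · rw [if_neg Bool.false_ne_true]
    intro h'
    rw [hco] at hWl
    have h1 : lt (x, y) ∉ S := fun h2 => h' (mem_union_left _ (hW.2 h2))
    exact h' (mem_union_right _ (mem_union_right _ (hWl (by simp [h1]))))
  · rw [if_pos rfl]
    intro h'
    rw [hco] at hWl
    rcases mem_union.1 h' with h' | h'
    · rcases mem_union.1 h' with h' | h'
      · exact hE h'
      · exact hT' (mem_sdiff.1 h').1
    · obtain ⟨h1, h2⟩ := mem_sdiff.1 h'
      exact h2 (hWl (by simp [hW.1 h1]))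

/-- a fill tile from its neighbours -/
lemma fill_of (h : ∀ x' y', x' ≤ x + 1 → x ≤ x' + 1 → y' ≤ y + 1 → y ≤ y' + 1 → ¬ InP D p x' y') :
    Fill D p x y := by
  rintro ⟨Z, h1, h2, h3, h4, h5, h6⟩
  have h7 := D.aw Z h3 h4
  have key : ∀ x', D.a Z ≤ x' + sh p → x' + sh p < D.w → x' ≤ x + 1 → x ≤ x' + 1 → False := by
    intro x' g1 g2 g3 g4
    exact h x' Z g3 g4 (by omega) (by omega) ⟨h3, h4, g1, g2⟩
  by_cases c1 : D.a Z ≤ x - 1 + sh p
  · exact key (x - 1) c1 (by omega) (by omega) (by omega)
  · by_cases c2 : D.a Z ≤ x + sh p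
    · exact key x c2 (by omega) (by omega) (by omega)
    · exact key (x + 1) (by omega) (by omega) (by omega) (by omega)

lemma near_of {x' y' : ℤ} (h : InP D p x' y') (h1 : x' ≤ x + 1) (h2 : x ≤ x' + 1) (h3 : y' ≤ y + 1)
    (h4 : y ≤ y' + 1) : NearP D (x + sh p) y := by
  obtain ⟨k1, k2, k3, k4⟩ := h
  exact ⟨y', by omega, by omega, k1, k2, by omega, by omega⟩

end Pool.Agent.H40.W.N
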