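import Mathlib
import Pool.Agent.H27.W.LnkX
import Pool.Agent.H40.W.NCrX
import Pool.Agent.H49.W.ExC
import Pool.Agent.H59.W.FineW
import Pool.Agent.H60.W.C.EdgA

set_option autoImplicit false
open Finset

/-! # Walls and marked corners of the environment `XA` of a coarse window with a flat right wall

Successor of `H40/Sp/WcrC` for the class `H54.W.Win`: only the left arc. `wcrC` : the structure `WCr`.
`card_GmC` : number of marked corners. -/

namespace Pool.Agent.H40.W.N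

open Pool.Agent.H54.W (Win)
open Pool.Agent.H54.W.Win
open Pool.Agent.H72.W.N
open Pool.Agent.H27.W.N
open Pool.Agent.H95.W (CoarseRC)
open Pool.Agent.H95.W.N
open Pool.Agent.H60.W.N (edgA wdD)
open Pool.Agent.H42.Sp (Sd)

variable {D : Win} {n H W : ℤ} {A : ℤ → ℤ} {CL : ℤ → Bool} {p : Bool}
  {s0 L h : ℤ} {S : Finset (ℤ × ℤ)} {O : OutB D}

/-- **Walls and marked corners of the environment `XA` of a coarse window**, without open hypothesis. -/
theorem wcrC (hC : CoarseRC D n H W A CL) (hcut : colp D (s0 - 1) ≠ colp D s0)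
    (hR : ∀ q, ¬ CA D p (.R, q)) (hSol : SolR D p S)
    (hS : S ⊆ FR D p) (hNat : NatS D p S) (hL : 5 ≤ L) {Dd : ℤ} {Q : ℝ} (hD0 : 1 ≤ Dd)
    (hDh : 16 * Dd ≤ h) (hn : 4 * h + 40 ≤ n) (hQ : (n : ℝ) ≤ 2 * (Q * Dd))
    (w0 : KL H A (fun _ => W)) :
    H59.W.WCr (WA O p S) (EN D p) (LBA D p (h + 1)) (TA D p) (fmA D p s0) (colp D)
      (WlA D p s0 L S) (LaA D p s0 h) (bA D p) (oA D p) h (GmC D n H)
      (TnX D p s0 n H A (fun _ => W) h) (LamX D p s0 n H A (fun _ => W) h)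
      (LX D p n H A (fun _ => W) h) (iLs D p s0 n H A (fun _ => W)) (iFs D p s0 n H A (fun _ => W))
      (kS D p n H A (fun _ => W)) (fun _ => 2 * (2 * h + 2)) (fun _ => 2 * (2 * h + 2))
      (fun _ => 2 * (2 * h + 2)) (wlD D n H A (fun _ => W) p w0) (fwD D n H A (fun _ => W) s0)
      (epD H A (fun _ => W)) (x0D D n H A (fun _ => W) p s0) (ND D n H A (fun _ => W) p s0) Dd Q where
  wd := wdD (arcB (CoarseC.ofR hC) hcut fun k hk hs => hR k.2 (by
      obtain ⟨s, q⟩ := k; simp only at hs; subst hs; exact hk)) (Coarse.ofR hC.toCoarseR)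
    (by omega) (by omega) (by omega) hQ w0
  cr := crW_X hC hcut hS hNat hL (by omega) (by omega) (fun _ => laB_D _)
    (Pool.Agent.H49.W.N.exA hC hcut hR hSol hS hNat hL (by omega) (by omega))
  sur := surX hC hcut hNat hL (by omega) (by omega)
  lnk := lnkX (edgA (arcB (CoarseC.ofR hC) hcut fun k hk hs => hR k.2 (by
      obtain ⟨s, q⟩ := k; simp only at hs; subst hs; exact hk)) (Coarse.ofR hC.toCoarseR))
    (Coarse.ofR hC.toCoarseR) (by omega) w0
  D16 := hDh

/-- the same for the reference window `refD D p` with the cut `2` -/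
theorem wcrC_ref {D : Win} {p : Bool} {S : Finset (ℤ × ℤ)} {O : OutB (refD D p)}
    (hC : CoarseRC (refD D p) n H W A CL) (hSol : SolR D p S)
    (hS : S ⊆ FR (refD D p) p) (hNat : NatS (refD D p) p S) (hL : 5 ≤ L) {Dd : ℤ} {Q : ℝ}
    (hD0 : 1 ≤ Dd) (hDh : 16 * Dd ≤ h) (hn : 4 * h + 40 ≤ n) (hQ : (n : ℝ) ≤ 2 * (Q * Dd))
    (w0 : KL H A (fun _ => W)) :
    H59.W.WCr (WA O p S) (EN (refD D p) p) (LBA (refD D p) p (h + 1)) (TA (refD D p) p)
      (fmA (refD D p) p 2) (colp (refD D p)) (WlA (refD D p) p 2 L S) (LaA (refD D p) p 2 h)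
      (bA (refD D p) p) (oA (refD D p) p) h (GmC (refD D p) n H)
      (TnX (refD D p) p 2 n H A (fun _ => W) h) (LamX (refD D p) p 2 n H A (fun _ => W) h)
      (LX (refD D p) p n H A (fun _ => W) h) (iLs (refD D p) p 2 n H A (fun _ => W))
      (iFs (refD D p) p 2 n H A (fun _ => W)) (kS (refD D p) p n H A (fun _ => W))
      (fun _ => 2 * (2 * h + 2)) (fun _ => 2 * (2 * h + 2)) (fun _ => 2 * (2 * h + 2))
      (wlD (refD D p) n H A (fun _ => W) p w0) (fwD (refD D p) n H A (fun _ => W) 2)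
      (epD H A (fun _ => W)) (x0D (refD D p) n H A (fun _ => W) p 2)
      (ND (refD D p) n H A (fun _ => W) p 2) Dd Q :=
  wcrC hC (cut_ref D.hh) not_CA_R hSol hS hNat hL hD0 hDh hn hQ w0

/-- number of marked corners -/
lemma card_GmC (h0 : 0 ≤ H) : ((GmC D n H).card : ℤ) ≤ H + 1 := by
  unfold GmC
  have h1 := Finset.card_filter_le (({true} : Finset Bool) ×ˢ Icc 0 H)
    (fun c => cS D n H c.1 (c.2 - 1) ≠ cS D n H c.1 c.2)
  rw [card_product, card_singleton, Int.card_Icc] at h1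
  omega

end Pool.Agent.H40.W.N
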