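import Pool.Agent.H64.Q1.LExchange

set_option autoImplicit false
set_option linter.unusedSectionVars false

/-!
# Two parallel lines next to a cap: the maps

Language of `H64.Q1.LPair`: `u`, `l` are the heads of the upper and of the lower line (both run to the
right), `c`, `c'` two neighbouring columns whose lower ends are joined by a cap (`capJ`), `gE` is the gap
operator: the heads of the two lines are joined, and a new arc from `u` to `l` is created.

`ucM`: the cap is cut by the upper line (`{u, c}` joined, `u` continues as `c'`), the lower line passes.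
The 16 states of the four tiles reduce to `capJ, ucM, ucM ∘ gE, gE ∘ capJ, gE ∘ ucM`.
-/

namespace Pool.Agent.H40.W

open Pool.Agent.H64.Q1 Pool.Agent.H64.Q1.LP Equiv

variable {D : Type*} [DecidableEq D]

/-- fresh arcs with the opposite label -/
theorem jn_flip {x y : D} (h : x ≠ y) (τ κ : ℤ) (f : LP D) :
    LP.jn x y τ (-κ) f = sw x y (LP.jn x y τ κ f) := by
  have h1 := f.ne x
  have h2 := f.ne y
  have h3 := f.invol x
  have h4 := f.invol y
  apply LP.ext
  · intro t
    unfold sw
    rw [ren_apply, jn_apply _ _ _ _ _ h, jn_apply _ _ _ _ _ h, symm_swap]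
    have h5 := f.invol t
    simp only [swap_apply_def]
    grind
  · intro t
    unfold sw
    rw [ren_d, jn_d _ _ _ _ _ h, jn_d _ _ _ _ _ h, symm_swap]
    simp only [swap_apply_def]
    grind

/-- closing a loop -/
theorem jn_loop {x y : D} {τ κ : ℤ} {f : LP D} (h : f x = y) (hd : f.d x = κ) :
    LP.jn x y τ κ f = f := by
  subst h; subst hd
  have h1 := f.ne2 x
  have h3 := f.invol x
  have h6 := f.anti x
  apply LP.ext
  · intro t
    rw [jn_apply x _ _ _ f h1]
    grind
  · intro t
    rw [jn_d x _ _ _ f h1]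
    grind

variable (e : ℤ) (u l c c' : D)

/-- the cap -/
def capJ (f : LP D) : LP D := LP.jn c c' e e f
/-- the gap operator -/
def gE (f : LP D) : LP D := LP.jn u l (-e) e f
/-- the cap is cut by the line `u` -/
def ucM (f : LP D) : LP D := sw u c' (sw u c (LP.jn u c e e f))

variable {e u l c c'}

/-- joins after a renaming -/
theorem jn_sw (x y z w : D) (τ κ : ℤ) (f : LP D) :
    LP.jn z w τ κ (sw x y f) = sw x y (LP.jn (swap x y z) (swap x y w) τ κ f) := by
  rw [sw_jn]; simp

/-- two products of transpositions -/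
theorem sws_eq {s t : Equiv.Perm D} (h : s = t) (f : LP D) : ren s f = ren t f := by rw [h]

/-! ### One line over the cap -/

section one

variable (h1 : u ≠ c) (h2 : u ≠ c') (h3 : c ≠ c')

include h1 h2 h3

theorem cap_PP (f : LP D) : capJ e c c' (sw u c' (sw u c f)) = ucM e u c c' f := by
  unfold capJ ucM
  rw [jn_sw, swap_apply_right, swap_apply_of_ne_of_ne h1.symm h3, jn_sw, swap_apply_right,
    swap_apply_left]

theorem cap_PQ (f : LP D) : capJ e c c' (LP.jn u c' e e (sw u c f)) = capJ e c c' f := by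
  unfold capJ
  rw [jn_comm c c' _ _ _ h3, jn_share (z := u) (jn_right _ _ _ _ _ h2) (jn_d_right _ _ _ _ _ h2)
    h3.symm, sw_jn, swap_apply_left, swap_apply_of_ne_of_ne h2.symm h3.symm, sw_sw]

theorem cap_QP (f : LP D) : capJ e c c' (sw u c' (LP.jn u c e e f)) = ucM e u c c' f := by
  unfold capJ ucM
  rw [jn_sw, swap_apply_right, swap_apply_of_ne_of_ne h1.symm h3,
    jn_of_eq_neg (jn_right _ _ _ _ _ h1) (jn_d_right _ _ _ _ _ h1), sw_comm c u]

theorem cap_QQ (f : LP D) : capJ e c c' (LP.jn u c' e e (LP.jn u c e e f)) = ucM e u c c' f := by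
  unfold capJ ucM
  rw [jn_share (z := c) (jn_left _ _ _ _ _ h1) (jn_d_left _ _ _ _ _ h1) h2, jn_sw,
    swap_apply_left, swap_apply_right, jn_comm c' c _ _ _ h3.symm,
    jn_share (z := u) (jn_right _ _ _ _ _ h1) (jn_d_right _ _ _ _ _ h1) h3]
  unfold sw
  rw [← ren_mul, ← ren_mul]
  apply sws_eq
  ext t
  simp only [Equiv.Perm.mul_apply, swap_apply_def]
  grind

end one

/-! ### Two lines -/

section two

variable (a1 : u ≠ l) (a2 : u ≠ c) (a3 : u ≠ c') (a4 : l ≠ c) (a5 : l ≠ c') (a6 : c ≠ c')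

include a1

theorem gE_gE (f : LP D) : gE e u l (gE e u l f) = gE e u l f :=
  jn_loop (jn_left _ _ _ _ _ a1) (jn_d_left _ _ _ _ _ a1)

theorem gE_left (f : LP D) : gE e u l f u = l := jn_left _ _ _ _ _ a1

theorem gE_d (f : LP D) : (gE e u l f).d u = e := jn_d_left _ _ _ _ _ a1

include a2 a3 a4 a5 a6

theorem gE_capJ (f : LP D) : gE e u l (capJ e c c' f) = capJ e c c' (gE e u l f) := by
  unfold gE capJ
  exact jn_jn _ _ _ _ _ _ _ _ _ a1 a2 a3 a4 a5 a6

/-- the cut cap below a right cup -/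
theorem ucM_gE (f : LP D) : ucM e u c c' (gE e u l f) =
    sw u c' (sw u c (sw l c (gE e u l f))) := by
  unfold ucM
  rw [jn_share (gE_left a1 f) (gE_d a1 f) a2]

theorem low_PP (f : LP D) :
    ucM e l c c' (sw u c' (sw u c f)) = ucM e u c c' (gE e u l f) := by
  rw [ucM_gE a1 a2 a3 a4 a5 a6]
  unfold ucM gE
  rw [jn_sw, swap_apply_of_ne_of_ne a1.symm a5, swap_apply_of_ne_of_ne a2.symm a6, jn_sw,
    swap_apply_of_ne_of_ne a1.symm a4, swap_apply_right, jn_comm l u _ _ _ a1.symm,
    jn_flip a1]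
  unfold sw
  simp only [← ren_mul]
  apply sws_eq
  ext t
  simp only [Equiv.Perm.mul_apply, swap_apply_def]
  grind

theorem low_PQ (f : LP D) :
    ucM e l c c' (LP.jn u c' e e (sw u c f)) = gE e u l (capJ e c c' f) := by
  have b1 : LP.jn l c e e (LP.jn u c' e e (sw u c f)) =
      sw u c (LP.jn c c' e e (LP.jn l u e e f)) := by
    rw [jn_jn l c u c' _ _ _ _ _ a4 a1.symm a5 a2.symm a6 a3, jn_sw,
      swap_apply_of_ne_of_ne a1.symm a4, swap_apply_right, jn_sw, swap_apply_left,
      swap_apply_of_ne_of_ne a3.symm a6.symm]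
  have b2 : LP.jn c c' e e (LP.jn l u e e f) = sw u l (gE e u l (capJ e c c' f)) := by
    rw [gE_capJ a1 a2 a3 a4 a5 a6]
    unfold capJ gE
    rw [jn_comm l u _ _ _ a1.symm, jn_flip a1, jn_sw, swap_apply_of_ne_of_ne a2.symm a4.symm,
      swap_apply_of_ne_of_ne a3.symm a5.symm]
  set G := gE e u l (capJ e c c' f) with hG
  have c1 : G u = l := gE_left a1 _
  have c2 : G.d u = e := gE_d a1 _
  have c3 : G c = c' := by rw [hG, gE_capJ a1 a2 a3 a4 a5 a6]; exact jn_left _ _ _ _ _ a6
  have c4 : G.d c = e := by rw [hG, gE_capJ a1 a2 a3 a4 a5 a6]; exact jn_d_left _ _ _ _ _ a6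
  have key := ren_tau a1 a2 a3 a4 a5 a6 c1 c3 (c2.trans c4.symm)
  unfold ucM
  rw [b1, b2]
  conv_rhs => rw [← key]
  unfold sw
  simp only [← ren_mul]
  apply sws_eq
  ext t
  simp only [Equiv.Perm.mul_apply, swap_apply_def]
  grind

theorem low_QP (f : LP D) :
    ucM e l c c' (sw u c' (LP.jn u c e e f)) = ucM e u c c' f := by
  have b1 : sw u c' (LP.jn u c e e f) = LP.jn c' c e e (sw u c' f) := by
    rw [sw_jn, swap_apply_left, swap_apply_of_ne_of_ne a2.symm a6]
  set g := LP.jn c' c e e (sw u c' f) with hg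
  have b2 : LP.jn l c e e g = sw c' l g := by
    rw [jn_comm l c _ _ _ a4]
    exact jn_share (jn_right _ _ _ _ _ a6.symm) (jn_d_right _ _ _ _ _ a6.symm) a4.symm
  unfold ucM
  rw [b1, b2, ← b1]
  unfold sw
  simp only [← ren_mul]
  apply sws_eq
  ext t
  simp only [Equiv.Perm.mul_apply, swap_apply_def]
  grind

theorem low_QQ (f : LP D) :
    ucM e l c c' (LP.jn u c' e e (LP.jn u c e e f)) = gE e u l (ucM e u c c' f) := by
  set h0 := LP.jn u c e e f with hh0
  have b0 : LP.jn u c' e e h0 = sw c c' h0 :=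
    jn_share (jn_left _ _ _ _ _ a2) (jn_d_left _ _ _ _ _ a2) a3
  have b1 : LP.jn l c e e (sw c c' h0) = sw c c' (LP.jn l c' e e h0) := by
    rw [jn_sw, swap_apply_left, swap_apply_of_ne_of_ne a4 a5]
  set G := LP.jn l c' e e h0 with hG
  have c1 : G l = c' := jn_left _ _ _ _ _ a5
  have c2 : G.d l = e := jn_d_left _ _ _ _ _ a5
  have hc : G = LP.jn u c e e (LP.jn l c' e e f) := by
    rw [hG, hh0, jn_jn _ _ _ _ _ _ _ _ _ a5 a1.symm a4 a3.symm a6.symm a2]
  have c3 : G u = c := by rw [hc]; exact jn_left _ _ _ _ _ a2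
  have c4 : G.d u = e := by rw [hc]; exact jn_d_left _ _ _ _ _ a2
  have key := ren_tau a2 a1 a3 a4.symm a6 a5 c3 c1 (c4.trans c2.symm)
  unfold ucM
  rw [← hh0, b0, b1]
  have b2 : gE e u l (sw u c' (sw u c h0)) = sw u c' (sw u c (sw l c' G)) := by
    unfold gE
    rw [jn_sw, swap_apply_left, swap_apply_of_ne_of_ne a1.symm a5, jn_sw,
      swap_apply_of_ne_of_ne a3.symm a6.symm, swap_apply_of_ne_of_ne a1.symm a4,
      jn_comm c' l _ _ _ a5.symm, neg_neg, jn_flip a5]
  rw [b2]
  conv_rhs => rw [← key]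
  unfold sw
  simp only [← ren_mul]
  apply sws_eq
  ext t
  simp only [Equiv.Perm.mul_apply, swap_apply_def]
  grind

theorem gE_ucM_gE (f : LP D) :
    gE e u l (ucM e u c c' (gE e u l f)) = gE e u l (capJ e c c' f) := by
  rw [ucM_gE a1 a2 a3 a4 a5 a6]
  set h := gE e u l f with hh
  have b1 : gE e u l (sw u c' (sw u c (sw l c h))) =
      sw u c' (sw u c (sw l c (sw c c' (capJ e c c' h)))) := by
    unfold gE capJ
    rw [jn_sw, swap_apply_left, swap_apply_of_ne_of_ne a1.symm a5, jn_sw,
      swap_apply_of_ne_of_ne a3.symm a6.symm, swap_apply_of_ne_of_ne a1.symm a4, jn_sw,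
      swap_apply_of_ne_of_ne a5.symm a6.symm, swap_apply_left, jn_comm c' c _ _ _ a6.symm,
      neg_neg, jn_flip a6]
  rw [b1, hh, ← gE_capJ a1 a2 a3 a4 a5 a6]
  set G := gE e u l (capJ e c c' f) with hG
  have c1 : G u = l := gE_left a1 _
  have c2 : G.d u = e := gE_d a1 _
  have c3 : G c = c' := by rw [hG, gE_capJ a1 a2 a3 a4 a5 a6]; exact jn_left _ _ _ _ _ a6
  have c4 : G.d c = e := by rw [hG, gE_capJ a1 a2 a3 a4 a5 a6]; exact jn_d_left _ _ _ _ _ a6
  have key := ren_tau a1 a2 a3 a4 a5 a6 c1 c3 (c2.trans c4.symm)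
  conv_rhs => rw [← key]
  unfold sw
  simp only [← ren_mul]
  apply sws_eq
  ext t
  simp only [Equiv.Perm.mul_apply, swap_apply_def]
  grind

end two

/-! ### The ends of a run

At the left end the line `u` crosses the column `l`, whose lower end becomes the line `l`; at the right
end the line `u` crosses the column `v`, whose lower end is joined with the line `l`. -/

section ends

variable {v : D}

theorem gE_sw (a1 : u ≠ l) (f : LP D) : gE e u l (sw u l f) = LP.jn u l e e f := by
  unfold gE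
  rw [jn_sw, swap_apply_left, swap_apply_right, jn_comm l u _ _ _ a1.symm, neg_neg,
    jn_flip a1, sw_sw]

theorem gE_jn (a1 : u ≠ l) (f : LP D) : gE e u l (LP.jn u l e e f) = LP.jn u l e e f :=
  jn_loop (jn_left _ _ _ _ _ a1) (jn_d_left _ _ _ _ _ a1)

variable (e v) in
/-- the right end: the line `u` takes the column `v`, the column takes the line `l` -/
def endP (u l : D) (f : LP D) : LP D := LP.jn l v e e (sw u v f)

variable (e v) in
/-- the right end: the line `u` is joined with the column `v`, the line `l` continues as `u` -/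
def endQ (u l : D) (f : LP D) : LP D := LP.jn l v e e (LP.jn u v e e f)

variable (a1 : u ≠ l) (a2 : u ≠ v) (a3 : l ≠ v)

include a1 a2 a3

theorem endP_gE (f : LP D) : endP e v u l (gE e u l f) = endP e v u l f := by
  unfold endP
  rw [jn_sw, swap_apply_of_ne_of_ne a1.symm a3, swap_apply_right, jn_sw,
    swap_apply_of_ne_of_ne a1.symm a3, swap_apply_right, jn_comm l u e e f a1.symm, jn_flip a1]
  have h1 : gE e u l f l = u := by
    unfold gE; exact jn_right _ _ _ _ _ a1
  have h2 : (gE e u l f).d l = -e := by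
    unfold gE; exact jn_d_right _ _ _ _ _ a1
  rw [jn_of_eq_neg h1 h2, sw_comm l u]
  rfl

theorem endQ_gE (f : LP D) : endQ e v u l (gE e u l f) = endP e v u l f := by
  rw [← endP_gE a1 a2 a3]
  unfold endP endQ
  rw [jn_share (gE_left a1 f) (gE_d a1 f) a2, jn_sw, jn_sw, swap_apply_left, swap_apply_right,
    swap_apply_of_ne_of_ne a1.symm a3, swap_apply_right, jn_comm v l _ _ _ a3.symm]
  have h1 : gE e u l f l = u := by
    unfold gE; exact jn_right _ _ _ _ _ a1
  have h2 : (gE e u l f).d l = -e := by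
    unfold gE; exact jn_d_right _ _ _ _ _ a1
  rw [jn_of_eq_neg h1 h2, jn_share h1 h2 a3]
  unfold sw
  simp only [← ren_mul]
  apply sws_eq
  ext t
  simp only [Equiv.Perm.mul_apply, swap_apply_def]
  grind

end ends

end Pool.Agent.H40.W
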