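import Mathlib
import Pool.Agent.H76.W.CoefZ
import Pool.Agent.H40.W.FBz

set_option autoImplicit false
set_option linter.unusedSectionVars false
open Finset

/-! # The frozen bound from the labels near the row

`fb_sub` : the bound for the random labels `EL`, `EU` follows from the bound for fewer random labels `EL'`,
`EU'`, uniformly in the states of the other labels. -/

namespace Pool.Agent.H40.W

open Pool.Agent.H75.Perc Pool.Agent.H75.TwoArm Pool.Agent.Q1 Pool.Agent.H81.G1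
open Pool.Agent.H99.NC
open Pool.Agent.H30.Mid (RS rl ug)
open Pool.Agent.Q1.M6b.Gl (gE tr mem_tr)
open Pool.Agent.H30.W
open Pool.Agent.H76.W (frozen_sumZ AG_freeze)

variable {N : ℕ} {x0 y0 : ℤ} {κ' : Type*} [Fintype κ'] [DecidableEq κ'] {X : Env} {l2 : κ' → ℤ × ℤ}
  {EL EU EL' EU' : Finset (ℤ × ℤ)}

/-- the sum over the coupons as one average -/
lemma sum_AmpZ (L : LayE X N x0 y0 l2 EL EU) (ct : ℤ × ℤ) (a b : ℂ) (a2 b2 : κ' → ℂ) (k : Fin N)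
    (m : ℕ) :
    ∑ s ∈ powersetCard m (Finset.Ico (-((k : ℕ) : ℤ)) ((N : ℤ) - (k : ℕ))),
        Ec (fun _ => (1 / 2 : ℂ)) (gE EL EU (1, -1))
          (AmpZ X N x0 y0 l2 ct a b a2 b2 EL EU (k : ℕ) s) =
      Ec (fun _ => (1 / 2 : ℂ)) (EL ∪ EU)
        (fun ω => ∑ S ∈ powersetCard m (univ \ {k}),
          AG X (lbE N x0 y0 l2) ct (eA (insert k S) a a2) (eB (insert k S) b b2) ω) := by
  have hi := image_lbE N x0 y0 l2
  have hsub : EL ∪ EU ⊆ X.E \ (RS N x0 y0 ∪ XS l2) := by rw [L.eq]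
  have hE : EL ∪ EU ∪ (RS N x0 y0 ∪ XS l2) = X.E := by
    rw [← L.eq, sdiff_union_of_subset]
    rw [← hi]; exact L.fam.sub
  have key := frozen_sumZ (t := ∅) L.fam hsub L.disj L.disj' ct a b a2 b2 k m (empty_subset _)
  rw [hE] at key
  have e1 : ∀ s : Finset ℤ, AmpZ (X.freeze X.E ∅) N x0 y0 l2 ct a b a2 b2 EL EU (k : ℕ) s =
      AmpZ X N x0 y0 l2 ct a b a2 b2 EL EU (k : ℕ) s := by
    intro s
    funext ω
    unfold AmpZ AmpE
    split_ifs with h0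
    · rfl
    · have hu : ug EL EU (1, -1) ω ⊆ EL ∪ EU := Pool.Agent.H30.Mid.ug_sub
      rw [AG_freeze L.fam ct _ _ (by rw [hi]; rw [← hE]; exact subset_union_right)]
      · rw [empty_inter, union_empty]
      · rw [hi, inter_self]
        exact hu.trans hsub
  simp only [e1] at key
  rw [← key]
  refine Ec_congr fun ω _ => ?_
  simp only [union_empty]

/-- **The outer average.** -/
theorem fb_sub (L : LayE X N x0 y0 l2 EL EU) (hL : EL' ⊆ EL) (hU : EU' ⊆ EU) (ct : ℤ × ℤ) (a b : ℂ)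
    (a2 b2 : κ' → ℂ) (k : Fin N) (m : ℕ) {Bd : ℝ}
    (hB : ∀ t ⊆ (EL ∪ EU) \ (EL' ∪ EU'),
      ‖∑ s ∈ powersetCard m (Finset.Ico (-((k : ℕ) : ℤ)) ((N : ℤ) - (k : ℕ))),
        Ec (fun _ => (1 / 2 : ℂ)) (gE EL' EU' (1, -1))
          (AmpZ (X.freeze (EL' ∪ EU' ∪ (RS N x0 y0 ∪ XS l2)) t) N x0 y0 l2 ct a b a2 b2 EL' EU'
            (k : ℕ) s)‖ ≤ Bd) :
    ‖∑ s ∈ powersetCard m (Finset.Ico (-((k : ℕ) : ℤ)) ((N : ℤ) - (k : ℕ))),
        Ec (fun _ => (1 / 2 : ℂ)) (gE EL EU (1, -1))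
          (AmpZ X N x0 y0 l2 ct a b a2 b2 EL EU (k : ℕ) s)‖ ≤ Bd := by
  have hLU : EL' ∪ EU' ⊆ EL ∪ EU := union_subset_union hL hU
  rw [sum_AmpZ L, Ec_split _ hLU, Ec_swap]
  have hq : Pb (fun _ : ℤ × ℤ => (1 / 2 : ℝ)) := fun _ => ⟨by norm_num, by norm_num⟩
  have hc : (fun _ : ℤ × ℤ => (1 / 2 : ℂ)) = fun e => (((fun _ : ℤ × ℤ => (1 / 2 : ℝ)) e : ℝ) : ℂ) := by
    funext e; push_cast; rfl
  have hs0 : ∀ e ∈ EL ∪ EU, e ∈ X.E ∧ e ∉ RS N x0 y0 ∪ XS l2 := fun e he => by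
    rw [← L.eq, mem_sdiff] at he; exact he
  have key : ∀ t ⊆ (EL ∪ EU) \ (EL' ∪ EU'), ‖Ec (fun _ => (1 / 2 : ℂ)) (EL' ∪ EU')
      (fun ω => ∑ S ∈ powersetCard m (univ \ {k}),
        AG X (lbE N x0 y0 l2) ct (eA (insert k S) a a2) (eB (insert k S) b b2) (ω ∪ t))‖ ≤ Bd := by
    intro t ht
    rw [frozen_sumZ L.fam (fun e he => mem_sdiff.2 (hs0 e (hLU he)))
      (L.disj.mono hL hU) (L.disj'.mono hL (map_subset_map.2 hU)) ct a b a2 b2 k m ?_]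
    · exact hB t ht
    · intro e he
      have h1 := mem_sdiff.1 (ht he)
      have h2 := hs0 e h1.1
      rw [mem_sdiff, mem_union]
      exact ⟨h2.1, fun h => h.elim h1.2 h2.2⟩
  rw [hc]
  refine (Ec_norm hq (g := fun _ => Bd) fun t ht => ?_).trans (le_of_eq (Ex_const _ _ _))
  rw [← hc]
  exact key t ht

end Pool.Agent.H40.W
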