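import Mathlib
import Pool.Agent.H30.W.Slit
import Pool.Agent.H86.W.TRun

set_option autoImplicit false
set_option linter.unusedSectionVars false
open Finset

/-! # The boxes of the ties of a slit are near the ends of the row

`sepZ_rt` : a tile of a region over a run. `sepZ_Bt` : the boxes `Bt K v e`. -/

namespace Pool.Agent.H40.W

open Pool.Agent.H69.M6b (lbt lbt_inj)
open Pool.Agent.H33.Q1 (lt lt_inj)
open Pool.Agent.H30.W
open Pool.Agent.H54.W Pool.Agent.H54.W.HWin
open Pool.Agent.H25.W (hseg)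
open Pool.Agent.H46.Sp (TSys nxt)
open Pool.Agent.H46.G1 (Wp)
open Pool.Agent.H86.W

variable {D : HWin} (S : Slit D) {G : Finset ℤ} {L L2 u x y g : ℤ} {v : Bool}

/-- **A tile of a region over a run** is far from the row or beside it. -/
theorem sepZ_rt (hG : TLev D S.τ G) (hF : FatH D L2) (hu : 0 ≤ u) (huL : u + 2 ≤ L2) (hg : g ∈ G)
    (h : RT D S.τ G u x y v g) :
    x < S.x1 ∨ S.x2 ≤ x ∨ (2 * (x - S.x1) + 1 ≤ y - S.y0) ∨ 2 * (S.x2 - x) + 1 ≤ y - S.y0 := by
  have H := S.pos
  have hp := S.p_le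
  have hq := S.le_q
  have s1 := S.s1
  have s2 := S.s2
  have up := S.up
  have r2 := S.r2
  have g0 := hG.lo g hg
  have g1 := hG.hi g hg
  have tin : ∀ z, S.x1 ≤ z → z < S.x2 → te D S.τ z = S.y0 + 1 := fun z h1 h2 => by
    rw [te_in (by omega) (by omega), S.τ_in h1 h2]
  have tout : ∀ z, D.p ≤ z → z < D.q → ¬ (S.x1 ≤ z ∧ z < S.x2) → te D S.τ z = D.a z :=
    fun z h1 h2 h3 => by rw [te_in h1 h2, S.τ_out h3]
  by_cases c1 : x < S.x1
  · exact Or.inl c1
  by_cases c2 : S.x2 ≤ x
  · exact Or.inr (Or.inl c2)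
  cases h with
  | L hx h1 h2 =>
    right; right; left
    have key : g ≤ S.x1 ∧ S.y0 + 1 ≤ te D S.τ g := by
      rcases lt_trichotomy g S.x1 with c | c | c
      · have hj := te_jump_L (x := g) H g0 g1 (by omega)
        have k1 := (hF.l g hj.1).2 (S.x1 - 1) (by omega) (by omega)
        have k2 := S.lft (by omega)
        rw [tout g g0 hj.2.1 (by omega)]
        omega
      · rw [c, tin S.x1 le_rfl (by omega)]
        omega
      · exfalso
        have e1 := tin (g - 1) (by omega) (by omega)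
        have e2 := tin g (by omega) (by omega)
        omega
    omega
  | R hx h1 h2 =>
    right; right; right
    have key : S.x2 ≤ g ∧ S.y0 + 1 ≤ te D S.τ (g - 1) := by
      rcases lt_trichotomy g S.x2 with c | c | c
      · exfalso
        have e1 := tin (g - 1) (by omega) (by omega)
        have e2 := tin g (by omega) (by omega)
        omega
      · rw [tin (g - 1) (by omega) (by omega)]
        omega
      · have hj := te_jump_R (x := g) H g0 g1 (by omega)
        have k1 := (hF.r g hj.1).2 S.x2 (by omega) (by omega)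
        have k2 := S.rgt (by omega)
        rw [tout (g - 1) (by omega) (by omega) (by omega)]
        omega
    omega
  | F hy h1 h2 h3 h4 =>
    exfalso
    have e1 := hG.eqs hg (x := x) (by omega) (by omega)
    have e2 := S.τ_in (x := x) (by omega) (by omega)
    have e3 := S.fl x (by omega) (by omega)
    omega

/-- **The boxes of the ties of a slit.** -/
theorem sepZ_Bt (hG : TLev D S.τ G) (hF : FatH D L2) (hL : L + 2 ≤ L2) {E W : Finset (ℤ × ℤ)}
    [Nonempty (Rh G)] {K : ℤ} (hO : (tsys D S.τ G).Ok E W L) (hK : 20 ≤ K)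
    (hKL : ∀ a, ((tsys D S.τ G).N a : ℤ) < K * L) {v : Finset (ℤ × ℤ)}
    (hv : v ⊆ (tsys D S.τ G).Ti) :
    SepZ (v.biUnion ((tsys D S.τ G).Bt K v)) S.N S.x1 S.y0 S.k ∧
      SepZ (v.biUnion ((tsys D S.τ G).Bt K v)) S.N S.x1 (S.y0 + 1) S.k := by
  have n1 := S.N_eq
  have key : ∀ x y : ℤ, lbt x y ∈ v.biUnion ((tsys D S.τ G).Bt K v) →
      x < S.x1 ∨ S.x2 ≤ x ∨ (2 * (x - S.x1) + 1 ≤ y - S.y0) ∨ 2 * (S.x2 - x) + 1 ≤ y - S.y0 := by
    intro x y h
    obtain ⟨e, he, hl⟩ := mem_biUnion.1 h
    obtain ⟨hx, hxe⟩ := hO.idx_mem (hv he)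
    rw [← hxe] at hl
    obtain ⟨u, t, h1, h2, h3⟩ := TSys.Bt_rg hO hK hKL hx hl
    have h4 := rt_of h3
    rw [Pool.Agent.H30.Mid.lbt_lt] at h1
    have h5 := lt_inj h1
    have e1 : x = ((tsys D S.τ G).tl ((tsys D S.τ G).idx e).1 u t).1 := congrArg Prod.fst h5
    have e2 : y = ((tsys D S.τ G).tl ((tsys D S.τ G).idx e).1 u t).2 := congrArg Prod.snd h5
    rw [← e1, ← e2] at h4
    have hu := h3.2.1
    exact sepZ_rt S hG hF h2 (by omega) ((tsys D S.τ G).idx e).1.2.2 h4
  constructor
  · intro x y h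
    have a1 := le_abs_self (y - S.y0)
    have a2 := abs_nonneg (y - S.y0)
    rcases key x y h with h1 | h1 | h1 | h1
    · left; omega
    · right; left; omega
    · left; omega
    · right; left; omega
  · intro x y h
    have a1 := le_abs_self (y - (S.y0 + 1))
    have a2 := abs_nonneg (y - (S.y0 + 1))
    rcases key x y h with h1 | h1 | h1 | h1
    · left; omega
    · right; left; omega
    · left; omega
    · right; left; omega

end Pool.Agent.H40.W
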